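import Pool.Agent.H.MP_53e2a7_pr.h81.Defs

/-!
# The fast type has no positive density: definitions

`PosDensity`, `DensePossible` are used in the hand-in, the others are auxiliary.
-/

namespace Frog81

open MeasureTheory ProbabilityTheory Filter
open scoped ENNReal NNReal

/-- The sites of the box of radius `n`. -/
noncomputable def box (d n : ℕ) : Finset (Site d) :=
  Fintype.piFinset fun _ => Finset.Icc (-(n : ℤ)) n

open scoped Classical in
/-- The sites with particles activated by type `i` have positive lower density. -/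
def PosDensity {d : ℕ} (ω : Env d) (t : Site d → ℝ≥0∞) (θ : Site d → Kind) (i : Kind) : Prop :=
  ∃ a : ℝ, 0 < a ∧ ∀ᶠ n : ℕ in atTop,
    a * (box d n).card ≤ ((box d n).filter fun y => θ y = i ∧ t y ≠ ⊤ ∧ 1 ≤ (ω y).1).card

/-- For some `z ≠ 0`, with positive probability the two-type process exists and in it type two
activates infinitely many particles while the sites activated by type one have positive lower
density. -/
def DensePossible (d : ℕ) [NeZero d] (ν : Measure ℕ) (β : ℝ) : Prop :=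
  ∃ z : Site d, z ≠ 0 ∧ ∃ E : Set (Env d), MeasurableSet E ∧ 0 < envLaw d ν E ∧
    ∀ ω ∈ E, (∃ t θ, IsTwoType β z ω t θ) ∧
      ∀ t θ, IsTwoType β z ω t θ → Activates ω t θ Kind.two ∧ PosDensity ω t θ Kind.one

/-- A site as a real vector. -/
def rv {d : ℕ} (y : Site d) : Fin d → ℝ := fun i => (y i : ℝ)

/-- A gauge comparable to the norm. -/
structure IsGauge {d : ℕ} (μ : (Fin d → ℝ) → ℝ) (c C : ℝ) : Prop where
  c_pos : 0 < c
  C_pos : 0 < C
  add : ∀ x y, μ (x + y) ≤ μ x + μ y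
  smul : ∀ (r : ℝ) x, 0 ≤ r → μ (r • x) = r * μ x
  low : ∀ x, c * ‖x‖ ≤ μ x
  up : ∀ x, μ x ≤ C * ‖x‖

/-- The growth from `g` is regular. -/
def Good {d : ℕ} (μ : (Fin d → ℝ) → ℝ) (κ : ℝ) (N : ℕ) (ω : Env d) (g : Site d) : Prop :=
  1 ≤ (ω g).1 ∧ ∀ y, T ω g y ≤ ENNReal.ofReal ((1 + κ) * μ (rv y - rv g) + N) ∧
    ENNReal.ofReal ((1 - κ) * μ (rv y - rv g) - N) ≤ T ω g y

/-- Near every point at distance at least `N` there is a regular site. -/
def Dense {d : ℕ} (μ : (Fin d → ℝ) → ℝ) (κ : ℝ) (N : ℕ) (ω : Env d) : Prop :=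
  ∀ x : Fin d → ℝ, (N : ℝ) ≤ ‖x‖ → ∃ g, Good μ κ N ω g ∧ ‖rv g - x‖ ≤ κ * ‖x‖

/-- The growth from `z` is not faster than the shape. -/
def Slow {d : ℕ} (μ : (Fin d → ℝ) → ℝ) (κ : ℝ) (N : ℕ) (ω : Env d) (z : Site d) : Prop :=
  ‖rv z‖ ≤ N ∧ ∀ y, y ≠ z → ENNReal.ofReal ((1 - κ) * μ (rv y) - N) ≤ T ω z y

/-- The sites near `x` are type one, early. -/
def Won {d : ℕ} (μ : (Fin d → ℝ) → ℝ) (κ ρ : ℝ) (t : Site d → ℝ≥0∞) (θ : Site d → Kind)
    (x : Fin d → ℝ) : Prop :=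
  ∀ y : Site d, ‖rv y - x‖ ≤ κ * ‖x‖ → θ y = Kind.one ∧ t y ≤ ENNReal.ofReal (ρ * μ (rv y))

/-- A step of the spiral. -/
def SStep {d : ℕ} (h s : ℝ) (x x' : Fin d → ℝ) : Prop :=
  ∃ v, ‖v‖ ≤ s * ‖x‖ ∧ x' = (1 + h) • (x + v)

end Frog81
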