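import Pool.Agent.H.MP_53e2a7_pr.h81.Basic
import Pool.Agent.H.MP_53e2a7_pr.hd.Defs

/-!
# Chain: the chain from a type one site

PROOF. First: for every list `l`, every `a` and every `s : ℝ≥0∞` with `θ a = one`, `t a ≤ t g + s`, `T ω g a ≤ s` and with
`L = s + cost ω a (l ++ [y])`: either `θ y = one ∧ t y ≤ t g + L` or there is `w` with `θ w = two`, `t w ≤ t g + L`, `T ω g w ≤ L`.
Induction on `l`: by `h.le a b` and `rate β one = 1`, `t b ≤ t a + travel ω a b`, and `T ω g b ≤ T ω g a + travel ω a b`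
(`T_triangle`, `T_le_travel`); if the next site `b` of the list (or `y`) is of type two take `w = b`, otherwise go on with `a = b`,
`s + travel ω a b`. Apply it to `a = g`, `s = 0` (`T ω g g = 0` by `T_self`) and a list with `cost ω g (l ++ [y]) ≤ T ω g y + 1`, which
exists because `T ω g y ≠ ⊤` is an infimum (`iInf_lt_iff`).
-/

namespace Frog81

open MeasureTheory ProbabilityTheory Filter
open scoped ENNReal NNReal

private theorem chain_step {d : ℕ} {β : ℝ} {z : Site d} {ω : Env d} {t : Site d → ℝ≥0∞}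
    {θ : Site d → Kind} (h : IsTwoType β z ω t θ) {g a b : Site d} {s : ℝ≥0∞}
    (ha : θ a = Kind.one) (ht : t a ≤ t g + s) (hT : T ω g a ≤ s) :
    t b ≤ t g + (s + travel ω a b) ∧ T ω g b ≤ s + travel ω a b := by
  refine ⟨?_, (T_triangle ω g a b).trans (add_le_add hT (T_le_travel ω a b))⟩
  have h1 := h.le a b
  have h2 : travel ω a b / rate β (θ a) = travel ω a b := by
    rw [ha]
    exact div_one _
  rw [h2] at h1
  refine h1.trans ((add_le_add ht le_rfl).trans (le_of_eq ?_))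
  exact add_assoc _ _ _

private theorem chain_aux {d : ℕ} {β : ℝ} {z : Site d} {ω : Env d} {t : Site d → ℝ≥0∞}
    {θ : Site d → Kind} (h : IsTwoType β z ω t θ) {g y : Site d} (l : List (Site d)) :
    ∀ (a : Site d) (s : ℝ≥0∞), θ a = Kind.one → t a ≤ t g + s → T ω g a ≤ s →
      (θ y = Kind.one ∧ t y ≤ t g + (s + cost ω a (l ++ [y]))) ∨
        ∃ w, θ w = Kind.two ∧ t w ≤ t g + (s + cost ω a (l ++ [y])) ∧
          T ω g w ≤ s + cost ω a (l ++ [y]) := by
  induction l with
  | nil =>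
    intro a s ha ht hT
    have hc : cost ω a ([] ++ [y]) = travel ω a y := by simp [cost]
    obtain ⟨h1, h2⟩ := chain_step h (b := y) ha ht hT
    rw [hc]
    cases hk : θ y with
    | one => exact Or.inl ⟨rfl, h1⟩
    | two => exact Or.inr ⟨y, hk, h1, h2⟩
  | cons b l ih =>
    intro a s ha ht hT
    have hc : cost ω a ((b :: l) ++ [y]) = travel ω a b + cost ω b (l ++ [y]) := rfl
    obtain ⟨h1, h2⟩ := chain_step h (b := b) ha ht hT
    rw [hc, ← add_assoc s]
    cases hk : θ b with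
    | one => exact ih b (s + travel ω a b) hk h1 h2
    | two =>
      right
      exact ⟨b, hk, h1.trans (add_le_add le_rfl le_self_add), h2.trans le_self_add⟩

theorem chain_or {d : ℕ} {β : ℝ} {z : Site d} {ω : Env d} {t : Site d → ℝ≥0∞} {θ : Site d → Kind}
    (h : IsTwoType β z ω t θ) {g y : Site d} (hg : 1 ≤ (ω g).1) (hg1 : θ g = Kind.one)
    (hT : T ω g y ≠ ⊤) :
    (θ y = Kind.one ∧ t y ≤ t g + (T ω g y + 1)) ∨
      ∃ w, θ w = Kind.two ∧ t w ≤ t g + (T ω g y + 1) ∧ T ω g w ≤ T ω g y + 1 := by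
  have h1 : T ω g y < T ω g y + 1 := ENNReal.lt_add_right hT one_ne_zero
  have h2 : (⨅ l : List (Site d), cost ω g (l ++ [y])) < T ω g y + 1 := h1
  obtain ⟨l, hl⟩ := iInf_lt_iff.1 h2
  have h3 := chain_aux h (g := g) (y := y) l g 0 hg1 (by rw [add_zero]) (T_self ω g hg).le
  rw [zero_add] at h3
  rcases h3 with ⟨h4, h5⟩ | ⟨w, h4, h5, h6⟩
  · exact Or.inl ⟨h4, h5.trans (add_le_add le_rfl hl.le)⟩
  · exact Or.inr ⟨w, h4, h5.trans (add_le_add le_rfl hl.le), h6.trans hl.le⟩

end Frog81
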