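import Pool.Agent.H.MP_53e2a7_pr.h81.Comp
import Pool.Agent.H.MP_53e2a7_pr.hd.Defs

/-!
# Cpl: monotonicity in beta in a fixed environment

PROOF. `P y`: if `θ' y = one`, `t' y ≠ ⊤` then `θ y = one ∧ t y ≤ t' y`. `Q y`: if `θ y = two`, `t y ≠ ⊤` then `θ' y = two ∧ t' y ≤ t y`.
Let the time of a violation be `t' y` for `P y`, `t y` for `Q y`. If there is a violation there is one with the least time `m < ⊤` (the sets
`{y | t y ≤ m}`, `{y | t' y ≤ m}` are finite by `h.fin`, `h'.fin`). Parents are strictly earlier (`time_lt` in Comp).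
Case `P y` fails, time `t' y = m`: `y ≠ 0`, `y ≠ z`, parent `x` of `y` in the primed process, `θ' x = one`, `t' x < m`, so `P x`: `θ x = one`,
`t x ≤ t' x`, hence `t y ≤ t x + travel ω x y ≤ t' y` and therefore `θ y = two`. Take the parent `x₂` of `y` in the unprimed process: `θ x₂ = two`,
`t x₂ < t y ≤ m`, so `Q x₂`: `θ' x₂ = two`, `t' x₂ ≤ t x₂`, `t' y ≤ t' x₂ + travel / β' < t x₂ + travel / β = t y ≤ t' y` (`travel` is
positive, as `t x₂ < t y`, and finite; `β < β'`), contradiction.
Case `Q y` fails, time `t y = m`: parent `x`, `θ x = two`, `Q x`, `t' y ≤ t' x + travel / β' < t y = m`, so `θ' y = one`; `P y` holds as `t' y < m`,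
so `θ y = one`, contradiction.
-/

namespace Frog81

open MeasureTheory ProbabilityTheory Filter
open scoped ENNReal NNReal

/-- the faster rate gives the shorter time -/
private theorem cpl_div_lt {a : ℝ≥0∞} {β β' : ℝ} (hβ0 : 0 < β) (hββ : β < β') (ha0 : a ≠ 0)
    (ha : a ≠ ⊤) : a / rate β' Kind.two < a / rate β Kind.two := by
  unfold rate
  apply ENNReal.div_lt_div_left ha0 ha
  exact (ENNReal.ofReal_lt_ofReal_iff (hβ0.trans hββ)).2 hββ

/-- type two: the next site is reached strictly earlier with the faster rate -/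
private theorem cpl_two {d : ℕ} {β β' : ℝ} {z : Site d} {ω : Env d} {t t' : Site d → ℝ≥0∞}
    {θ' : Site d → Kind} (hβ0 : 0 < β) (hββ : β < β') (h' : IsTwoType β' z ω t' θ')
    {x y : Site d} (hlt : t x < t y) (hty : t y ≠ ⊤)
    (he : t y = t x + travel ω x y / rate β Kind.two) (h2 : θ' x = Kind.two)
    (hle : t' x ≤ t x) : t' y < t y := by
  have hx : t x ≠ ⊤ := (hlt.trans_le le_top).ne
  have h1 := h'.le x y
  rw [h2] at h1
  have ha0 : travel ω x y ≠ 0 := by
    intro h0
    rw [h0, ENNReal.zero_div, add_zero] at he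
    exact hlt.ne he.symm
  have ha : travel ω x y ≠ ⊤ := by
    intro h0
    rw [h0, ENNReal.top_div_of_ne_top (by simp [rate]), add_top] at he
    exact hty he
  have h3 := cpl_div_lt hβ0 hββ ha0 ha
  calc t' y ≤ t' x + travel ω x y / rate β' Kind.two := h1
    _ ≤ t x + travel ω x y / rate β' Kind.two := add_le_add hle le_rfl
    _ < t x + travel ω x y / rate β Kind.two := ENNReal.add_lt_add_left hx h3
    _ = t y := he.symm

private theorem cpl_fin {d : ℕ} {β : ℝ} {z : Site d} {ω : Env d} {t : Site d → ℝ≥0∞}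
    {θ : Site d → Kind} (h : IsTwoType β z ω t θ) {m : ℝ≥0∞} (hm : m ≠ ⊤) :
    {u | t u < m}.Finite := by
  refine (h.fin m.toNNReal).subset ?_
  intro u hu
  have hu' : t u < m := hu
  change t u ≤ (m.toNNReal : ℝ≥0∞)
  rw [ENNReal.coe_toNNReal hm]
  exact hu'.le

/-- the measure of the induction does not grow -/
private theorem cpl_le {d : ℕ} {t : Site d → ℝ≥0∞} {m m' : ℝ≥0∞} (hf : {u | t u < m}.Finite)
    (hm : m' < m) : {u | t u < m'}.ncard ≤ {u | t u < m}.ncard := by
  apply Set.ncard_le_ncard _ hf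
  intro u hu
  exact lt_trans (show t u < m' from hu) hm

/-- the measure of the induction drops at a time that occurs -/
private theorem cpl_lt {d : ℕ} {t : Site d → ℝ≥0∞} {m m' : ℝ≥0∞} (hf : {u | t u < m}.Finite)
    (hm : m' < m) {u : Site d} (hu : t u = m') :
    {u | t u < m'}.ncard < {u | t u < m}.ncard := by
  apply Set.ncard_lt_ncard _ hf
  constructor
  · intro v hv
    exact lt_trans (show t v < m' from hv) hm
  · intro hsub
    have h2 : u ∈ {u | t u < m} := by
      change t u < m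
      rw [hu]; exact hm
    exact absurd hu (ne_of_lt (show t u < m' from hsub h2))

/-- both halves of the comparison at the time `m` -/
private theorem cpl_main {d : ℕ} {β β' : ℝ} {z : Site d} {ω : Env d} {t t' : Site d → ℝ≥0∞}
    {θ θ' : Site d → Kind} (hreg : Regular ω) (hβ0 : 0 < β) (hββ : β < β')
    (h : IsTwoType β z ω t θ) (h' : IsTwoType β' z ω t' θ') :
    ∀ n : ℕ, ∀ m : ℝ≥0∞, m ≠ ⊤ → {u | t u < m}.ncard + {u | t' u < m}.ncard = n →
      (∀ y, t' y = m → θ' y = Kind.one → θ y = Kind.one ∧ t y ≤ t' y) ∧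
      (∀ y, t y = m → θ y = Kind.two → θ' y = Kind.two ∧ t' y ≤ t y) := by
  have hβ0' : 0 < β' := hβ0.trans hββ
  intro n
  induction n using Nat.strong_induction_on with
  | _ n ih =>
    intro m hm hn
    have hP : ∀ y, t' y < m → θ' y = Kind.one → θ y = Kind.one ∧ t y ≤ t' y := by
      intro y hy
      refine (ih _ ?_ (t' y) (hy.trans_le le_top).ne rfl).1 y rfl
      rw [← hn]
      exact add_lt_add_of_le_of_lt (cpl_le (cpl_fin h hm) hy) (cpl_lt (cpl_fin h' hm) hy rfl)
    have hQ : ∀ y, t y < m → θ y = Kind.two → θ' y = Kind.two ∧ t' y ≤ t y := by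
      intro y hy
      refine (ih _ ?_ (t y) (hy.trans_le le_top).ne rfl).2 y rfl
      rw [← hn]
      exact add_lt_add_of_lt_of_le (cpl_lt (cpl_fin h hm) hy rfl) (cpl_le (cpl_fin h' hm) hy)
    constructor
    · intro y hym hy
      have hty : t' y ≠ ⊤ := by rw [hym]; exact hm
      by_cases hy0 : y = 0
      · subst hy0
        exact ⟨h.kind_zero, by rw [h.time_zero]; exact bot_le⟩
      have hyz : y ≠ z := by
        rintro rfl
        rw [h'.kind_start] at hy
        exact absurd hy (by decide)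
      obtain ⟨x, hxy, hθ, he⟩ := h'.parent y hy0 hyz hty
      have hlt := time_lt hreg hβ0' h' x y hxy hty he
      obtain ⟨h1, h2⟩ := hP x (hym ▸ hlt) (hθ.trans hy)
      have h3 : t y ≤ t' y := by
        calc t y ≤ t x + travel ω x y / rate β (θ x) := h.le x y
          _ ≤ t' x + travel ω x y / rate β' (θ' x) := by
            rw [h1, hθ, hy]
            exact add_le_add h2 le_rfl
          _ = t' y := he.symm
      refine ⟨?_, h3⟩
      rcases hk : θ y with _ | _
      · rfl
      · exfalso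
        have hty2 : t y ≠ ⊤ := (lt_of_le_of_lt h3 (lt_top_iff_ne_top.2 hty)).ne
        obtain ⟨x₂, hx₂, hθ₂, he₂⟩ := h.parent y hy0 hyz hty2
        have hlt2 := time_lt hreg hβ0 h x₂ y hx₂ hty2 he₂
        have hx2 : θ x₂ = Kind.two := hθ₂.trans hk
        obtain ⟨h4, h5⟩ := hQ x₂ (lt_of_lt_of_le hlt2 (h3.trans hym.le)) hx2
        rw [hx2] at he₂
        have h6 := cpl_two hβ0 hββ h' hlt2 hty2 he₂ h4 h5
        exact absurd (lt_of_lt_of_le h6 h3) (lt_irrefl _)
    · intro y hym hy
      have hty : t y ≠ ⊤ := by rw [hym]; exact hm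
      have hy0 : y ≠ 0 := by
        rintro rfl
        rw [h.kind_zero] at hy
        exact absurd hy (by decide)
      by_cases hyz : y = z
      · subst hyz
        exact ⟨h'.kind_start, by rw [h'.time_start]; exact bot_le⟩
      obtain ⟨x, hxy, hθ, he⟩ := h.parent y hy0 hyz hty
      have hlt := time_lt hreg hβ0 h x y hxy hty he
      have hx2 : θ x = Kind.two := hθ.trans hy
      obtain ⟨h4, h5⟩ := hQ x (hym ▸ hlt) hx2
      rw [hx2] at he
      have h6 := cpl_two hβ0 hββ h' hlt hty he h4 h5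
      refine ⟨?_, h6.le⟩
      rcases hk : θ' y with _ | _
      · exfalso
        have h7 := (hP y (hym ▸ h6) hk).1
        rw [hy] at h7
        exact absurd h7 (by decide)
      · rfl

theorem coupling {d : ℕ} {β β' : ℝ} {z : Site d} {ω : Env d} {t t' : Site d → ℝ≥0∞}
    {θ θ' : Site d → Kind} (hreg : Regular ω) (hβ0 : 0 < β) (hββ : β < β') (hβ1 : β' ≤ 1)
    (h : IsTwoType β z ω t θ) (h' : IsTwoType β' z ω t' θ') (y : Site d) (hy : θ' y = Kind.one)
    (hty : t' y ≠ ⊤) : θ y = Kind.one ∧ t y ≤ t' y := by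
  exact (cpl_main hreg hβ0 hββ h h' _ (t' y) hty rfl).1 y rfl hy

end Frog81
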