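import Pool.Agent.H.MP_53e2a7_pr.hd.Defs

/-!
# Upper density: definitions
-/

namespace Frog81

open MeasureTheory ProbabilityTheory Filter
open scoped ENNReal NNReal

open scoped Classical in
/-- The sites with particles activated by type `i` have positive upper density. -/
def PosUpper {d : ℕ} (ω : Env d) (t : Site d → ℝ≥0∞) (θ : Site d → Kind) (i : Kind) : Prop :=
  ∃ a : ℝ, 0 < a ∧ ∃ᶠ n : ℕ in atTop,
    a * (box d n).card ≤ ((box d n).filter fun y => θ y = i ∧ t y ≠ ⊤ ∧ 1 ≤ (ω y).1).card

/-- For some `z ≠ 0`, with positive probability the two-type process exists and in it type two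
activates infinitely many particles while the sites activated by type one have positive upper
density. -/
def DensePossibleU (d : ℕ) [NeZero d] (ν : Measure ℕ) (β : ℝ) : Prop :=
  ∃ z : Site d, z ≠ 0 ∧ ∃ E : Set (Env d), MeasurableSet E ∧ 0 < envLaw d ν E ∧
    ∀ ω ∈ E, (∃ t θ, IsTwoType β z ω t θ) ∧
      ∀ t θ, IsTwoType β z ω t θ → Activates ω t θ Kind.two ∧ PosUpper ω t θ Kind.one

end Frog81
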