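import Pool.Agent.H.MP_53e2a7_pr.hd.Hit

/-!
# Dens: irregular occupied sites have small lower density

PROOF. It suffices to treat `a = 1 / (j + 1)`, `j : ℕ`. `X N n ω = card (...)`. For fixed `N` the event `A m = {ω | ∀ n ≥ m, a * card box n ≤ X N n ω}` is increasing in `m` and
`P (A m) ≤ P {a * card box m ≤ X N m} ≤ (∫⁻ X N m) / (a * card box m) = P {1 ≤ (ω 0).1 ∧ ¬ Good μ κ N ω 0} / a` (Markov, `mul_meas_ge_le_lintegral`; linearity and
`measurePreserving_shift`, `good_shift`). So `P (⋃ m, A m)` has the same bound, which by `bad_tendsto` is at most any `ε` for a suitable `N`; hence the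
event that for all `N` some `A m` holds is null; `not_frequently`, `eventually_atTop`.
-/

namespace Frog81

open MeasureTheory ProbabilityTheory Filter
open scoped ENNReal NNReal

variable {d : ℕ} [NeZero d] (ν : Measure ℕ) [IsProbabilityMeasure ν]

open scoped Classical in
theorem ae_bad_density {μ : (Fin d → ℝ) → ℝ} {κ : ℝ}
    (hg : ∀ᵐ ω ∂ envLaw d ν, ∀ x : Site d, 1 ≤ (ω x).1 → ∃ N : ℕ, Good μ κ N ω x) :
    ∀ᵐ ω ∂ envLaw d ν, ∀ a : ℝ, 0 < a → ∃ N : ℕ, ∃ᶠ n : ℕ in atTop,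
      (((box d n).filter fun x => 1 ≤ (ω x).1 ∧ ¬ Good μ κ N ω x).card : ℝ) <
        a * (box d n).card := by
  obtain ⟨B, hB⟩ : ∃ B : ℕ → Site d → Set (Env d),
    B = fun N x => {ω | 1 ≤ (ω x).1 ∧ ¬ Good μ κ N ω x} := ⟨_, rfl⟩
  have hBm : ∀ N x, MeasurableSet (B N x) := by
    intro N x
    rw [hB]
    refine MeasurableSet.inter ?_ (measurableSet_good μ κ N x).compl
    exact (measurable_fst.comp (measurable_pi_apply x))
      (MeasurableSet.of_discrete (s := {m : ℕ | 1 ≤ m}))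
  have hBP : ∀ N x, envLaw d ν (B N x) = envLaw d ν (B N 0) := by
    intro N x
    have h1 : B N x = shift x ⁻¹' (B N 0) := by
      ext ω
      rw [hB]
      show (1 ≤ (ω x).1 ∧ ¬ Good μ κ N ω x) ↔
        (1 ≤ (shift x ω 0).1 ∧ ¬ Good μ κ N (shift x ω) 0)
      have h2 : shift x ω 0 = ω x := by
        show ω (0 + x) = ω x
        rw [zero_add]
      rw [good_shift, zero_add, h2]
    rw [h1]
    exact (measurePreserving_shift ν x).measure_preimage (hBm N 0).nullMeasurableSet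
  -- the number of bad sites
  obtain ⟨X, hX⟩ : ∃ X : ℕ → ℕ → Env d → ℝ≥0∞,
    X = fun N n ω => ∑ x ∈ box d n, (B N x).indicator (fun _ => (1 : ℝ≥0∞)) ω := ⟨_, rfl⟩
  have hXc : ∀ N n ω, (((box d n).filter fun x => 1 ≤ (ω x).1 ∧ ¬ Good μ κ N ω x).card : ℝ≥0∞) =
      X N n ω := by
    intro N n ω
    rw [hX, Finset.card_filter, Nat.cast_sum]
    refine Finset.sum_congr rfl fun x _ => ?_
    rw [hB]
    by_cases h : 1 ≤ (ω x).1 ∧ ¬ Good μ κ N ω x
    · rw [if_pos h, Set.indicator_of_mem (show ω ∈ {ω | 1 ≤ (ω x).1 ∧ ¬ Good μ κ N ω x} from h),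
        Nat.cast_one]
    · rw [if_neg h,
        Set.indicator_of_notMem (show ω ∉ {ω | 1 ≤ (ω x).1 ∧ ¬ Good μ κ N ω x} from h),
        Nat.cast_zero]
  have hXm : ∀ N n, Measurable (X N n) := by
    intro N n
    rw [hX]
    exact Finset.measurable_sum _ fun x _ => measurable_const.indicator (hBm N x)
  have hXi : ∀ N n, ∫⁻ ω, X N n ω ∂ envLaw d ν = (box d n).card * envLaw d ν (B N 0) := by
    intro N n
    rw [hX]
    show ∫⁻ ω, ∑ x ∈ box d n, (B N x).indicator (fun _ => (1 : ℝ≥0∞)) ω ∂ envLaw d ν = _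
    rw [lintegral_finsetSum _ fun x _ => measurable_const.indicator (hBm N x)]
    have h1 : ∀ x ∈ box d n, ∫⁻ ω, (B N x).indicator (fun _ => (1 : ℝ≥0∞)) ω ∂ envLaw d ν =
        envLaw d ν (B N 0) := by
      intro x _
      rw [lintegral_indicator_const (hBm N x), one_mul, hBP]
    rw [Finset.sum_congr rfl h1, Finset.sum_const, nsmul_eq_mul]
  have hbox : ∀ n, (box d n).card ≠ 0 := by
    intro n h
    have h1 : (0 : Site d) ∈ box d n := by
      unfold box
      rw [Fintype.mem_piFinset]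
      intro i
      rw [Finset.mem_Icc]
      constructor
      · show -(n : ℤ) ≤ 0
        omega
      · show (0 : ℤ) ≤ n
        omega
    rw [Finset.card_eq_zero.1 h] at h1
    exact absurd h1 (Finset.notMem_empty _)
  -- one value of `a`
  have key : ∀ a : ℝ, 0 < a → ∀ᵐ ω ∂ envLaw d ν, ∃ N : ℕ, ∃ᶠ n : ℕ in atTop,
      (((box d n).filter fun x => 1 ≤ (ω x).1 ∧ ¬ Good μ κ N ω x).card : ℝ) <
        a * (box d n).card := by
    intro a ha
    rw [ae_iff]
    refine le_antisymm ?_ bot_le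
    refine ENNReal.le_of_forall_pos_le_add fun ε hε _ => ?_
    rw [zero_add]
    have ha' : ENNReal.ofReal a ≠ 0 := by
      rw [Ne, ENNReal.ofReal_eq_zero, not_le]
      exact ha
    have hpos : 0 < ENNReal.ofReal a * (ε : ℝ≥0∞) := by
      refine pos_iff_ne_zero.2 (mul_ne_zero ha' ?_)
      exact_mod_cast hε.ne'
    obtain ⟨N, hN⟩ := bad_tendsto ν hg hpos
    have hN' : envLaw d ν (B N 0) ≤ ENNReal.ofReal a * ε := by
      rw [hB]
      exact hN
    obtain ⟨A, hA⟩ : ∃ A : ℕ → Set (Env d), A = fun m => {ω | ∀ n, m ≤ n →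
        ENNReal.ofReal a * ((box d n).card : ℝ≥0∞) ≤ X N n ω} := ⟨_, rfl⟩
    have hAmono : Monotone A := by
      intro m m' hm ω hω
      rw [hA] at hω ⊢
      exact fun n hn => hω n (hm.trans hn)
    have hAle : ∀ m, envLaw d ν (A m) ≤ ε := by
      intro m
      have h1 : A m ⊆ {ω | ENNReal.ofReal a * ((box d m).card : ℝ≥0∞) ≤ X N m ω} := by
        intro ω hω
        rw [hA] at hω
        exact hω m le_rfl
      have h2 := mul_meas_ge_le_lintegral (μ := envLaw d ν) (hXm N m)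
        (ENNReal.ofReal a * ((box d m).card : ℝ≥0∞))
      rw [hXi] at h2
      have h3 : ENNReal.ofReal a * ((box d m).card : ℝ≥0∞) * envLaw d ν (A m) ≤
          ENNReal.ofReal a * ((box d m).card : ℝ≥0∞) * ε := by
        calc ENNReal.ofReal a * ((box d m).card : ℝ≥0∞) * envLaw d ν (A m)
            ≤ ENNReal.ofReal a * ((box d m).card : ℝ≥0∞) *
              envLaw d ν {ω | ENNReal.ofReal a * ((box d m).card : ℝ≥0∞) ≤ X N m ω} := by
              gcongr
          _ ≤ ((box d m).card : ℝ≥0∞) * envLaw d ν (B N 0) := h2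
          _ ≤ ((box d m).card : ℝ≥0∞) * (ENNReal.ofReal a * ε) := by gcongr
          _ = ENNReal.ofReal a * ((box d m).card : ℝ≥0∞) * ε := by ring
      refine (ENNReal.mul_le_mul_iff_right ?_ ?_).1 h3
      · exact mul_ne_zero ha' (by exact_mod_cast hbox m)
      · exact ENNReal.mul_ne_top ENNReal.ofReal_ne_top (ENNReal.natCast_ne_top _)
    have hsub : {ω | ¬ ∃ N : ℕ, ∃ᶠ n : ℕ in atTop,
        (((box d n).filter fun x => 1 ≤ (ω x).1 ∧ ¬ Good μ κ N ω x).card : ℝ) <
          a * (box d n).card} ⊆ ⋃ m, A m := by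
      intro ω hω
      have h1 : ¬ ∃ᶠ n : ℕ in atTop,
        (((box d n).filter fun x => 1 ≤ (ω x).1 ∧ ¬ Good μ κ N ω x).card : ℝ) <
          a * (box d n).card := fun h => hω ⟨N, h⟩
      rw [not_frequently, eventually_atTop] at h1
      obtain ⟨m, hm⟩ := h1
      rw [Set.mem_iUnion]
      refine ⟨m, ?_⟩
      rw [hA]
      intro n hn
      have h2 := not_lt.1 (hm n hn)
      rw [← hXc, ← ENNReal.ofReal_natCast ((box d n).card), ← ENNReal.ofReal_mul ha.le,
        ← ENNReal.ofReal_natCast]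
      exact ENNReal.ofReal_le_ofReal h2
    calc envLaw d ν _ ≤ envLaw d ν (⋃ m, A m) := measure_mono hsub
      _ = ⨆ m, envLaw d ν (A m) := hAmono.measure_iUnion
      _ ≤ ε := iSup_le hAle
  have hall : ∀ᵐ ω ∂ envLaw d ν, ∀ j : ℕ, ∃ N : ℕ, ∃ᶠ n : ℕ in atTop,
      (((box d n).filter fun x => 1 ≤ (ω x).1 ∧ ¬ Good μ κ N ω x).card : ℝ) <
        (1 / ((j : ℝ) + 1)) * (box d n).card := by
    rw [ae_all_iff]
    exact fun j => key _ Nat.one_div_pos_of_nat
  filter_upwards [hall] with ω hω a ha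
  obtain ⟨j, hj⟩ := exists_nat_one_div_lt ha
  obtain ⟨N, hN⟩ := hω j
  refine ⟨N, hN.mono fun n hn => hn.trans_le ?_⟩
  exact mul_le_mul_of_nonneg_right hj.le (Nat.cast_nonneg _)

end Frog81
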