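import Pool.Agent.H.MP_53e2a7_pr.hd.WienB

/-!
# WienC: the maximal inequality for boxes, all radii

PROOF. From `wiener_fin`: `L → ∞`, `((2 (L + M) + 1) / (2 L + 1))^d → 1`, gives `ofReal a * P (G M) ≤ 3^d P B`; then `M → ∞` (increasing union).
-/

namespace Frog81

open MeasureTheory ProbabilityTheory Filter
open scoped ENNReal NNReal

variable {d : ℕ} [NeZero d] (ν : Measure ℕ) [IsProbabilityMeasure ν]

open scoped Classical in
private theorem wienC_fin {B : Set (Env d)} (hB : MeasurableSet B) {a : ℝ} (ha : 0 < a) (M : ℕ) :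
    ENNReal.ofReal a * envLaw d ν {ω | ∃ n ≤ M, a * (box d n).card <
      (((box d n).filter fun y => shift y ω ∈ B).card : ℝ)} ≤ 3 ^ d * envLaw d ν B := by
  obtain ⟨S, hS⟩ : ∃ S : Set (Env d), S = {ω | ∃ n ≤ M, a * (box d n).card <
      (((box d n).filter fun y => shift y ω ∈ B).card : ℝ)} := ⟨_, rfl⟩
  obtain ⟨p, hp⟩ : ∃ p : ℝ, p = (envLaw d ν S).toReal := ⟨_, rfl⟩
  obtain ⟨b, hb⟩ : ∃ b : ℝ, b = (envLaw d ν B).toReal := ⟨_, rfl⟩
  have hpe : envLaw d ν S = ENNReal.ofReal p := by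
    rw [hp, ENNReal.ofReal_toReal (measure_ne_top _ _)]
  have hbe : envLaw d ν B = ENNReal.ofReal b := by
    rw [hb, ENNReal.ofReal_toReal (measure_ne_top _ _)]
  have hp0 : 0 ≤ p := by
    rw [hp]
    exact ENNReal.toReal_nonneg
  have hb0 : 0 ≤ b := by
    rw [hb]
    exact ENNReal.toReal_nonneg
  have key : ∀ L : ℕ, a * p ≤ 3 ^ d * ((2 * ((L : ℝ) + M) + 1) / (2 * L + 1)) ^ d * b := by
    intro L
    have h1 := wiener_fin ν hB ha L M
    rw [← hS, hpe, hbe, ← ENNReal.ofReal_mul (by positivity),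
      ← ENNReal.ofReal_mul (by positivity)] at h1
    have h2 := (ENNReal.ofReal_le_ofReal_iff (by positivity)).1 h1
    have h3 : (0 : ℝ) < (2 * L + 1) ^ d := by positivity
    have h4 : 3 ^ d * ((2 * ((L : ℝ) + M) + 1) / (2 * L + 1)) ^ d * b =
        (3 ^ d * (2 * ((L : ℝ) + M) + 1) ^ d * b) / (2 * L + 1) ^ d := by
      rw [div_pow]
      ring
    rw [h4, le_div_iff₀ h3]
    calc a * p * (2 * (L : ℝ) + 1) ^ d = a * (2 * L + 1) ^ d * p := by ring
      _ ≤ _ := h2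
  have h0 : Tendsto (fun L : ℕ => (1 : ℝ) / (2 * L + 1)) atTop (nhds 0) :=
    tendsto_const_nhds.div_atTop (tendsto_atTop_add_const_right _ 1
      (tendsto_natCast_atTop_atTop.const_mul_atTop two_pos))
  have h1 : Tendsto (fun L : ℕ => (2 * ((L : ℝ) + M) + 1) / (2 * L + 1)) atTop (nhds 1) := by
    have h : (fun L : ℕ => (2 * ((L : ℝ) + M) + 1) / (2 * L + 1)) =
        fun L : ℕ => 1 + 2 * (M : ℝ) * (1 / (2 * L + 1)) := by
      funext L
      have h5 : (2 * (L : ℝ) + 1) ≠ 0 := by positivity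
      field_simp
      ring
    rw [h]
    have h6 := (h0.const_mul (2 * (M : ℝ))).const_add 1
    rwa [mul_zero, add_zero] at h6
  have hlim : Tendsto (fun L : ℕ => 3 ^ d * ((2 * ((L : ℝ) + M) + 1) / (2 * L + 1)) ^ d * b) atTop
      (nhds (3 ^ d * 1 ^ d * b)) := ((h1.pow d).const_mul _).mul_const _
  have h7 := ge_of_tendsto' hlim key
  rw [one_pow, mul_one] at h7
  have e3 : (3 : ℝ≥0∞) ^ d = ENNReal.ofReal (3 ^ d) := by
    rw [ENNReal.ofReal_pow (by norm_num)]
    norm_num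
  rw [← hS, hpe, hbe, ← ENNReal.ofReal_mul ha.le, e3, ← ENNReal.ofReal_mul (by positivity)]
  exact ENNReal.ofReal_le_ofReal h7

open scoped Classical in
theorem wiener {B : Set (Env d)} (hB : MeasurableSet B) {a : ℝ} (ha : 0 < a) :
    ENNReal.ofReal a * envLaw d ν {ω | ∃ n : ℕ, a * (box d n).card <
      (((box d n).filter fun y => shift y ω ∈ B).card : ℝ)} ≤ 3 ^ d * envLaw d ν B := by
  have h1 : {ω : Env d | ∃ n : ℕ, a * (box d n).card <
      (((box d n).filter fun y => shift y ω ∈ B).card : ℝ)} =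
      ⋃ M : ℕ, {ω : Env d | ∃ n ≤ M, a * (box d n).card <
        (((box d n).filter fun y => shift y ω ∈ B).card : ℝ)} := by
    ext ω
    simp only [Set.mem_ofPred_eq, Set.mem_iUnion]
    constructor
    · rintro ⟨n, hn⟩
      exact ⟨n, n, le_refl n, hn⟩
    · rintro ⟨M, n, -, hn⟩
      exact ⟨n, hn⟩
  have h2 : Monotone fun M : ℕ => {ω : Env d | ∃ n ≤ M, a * (box d n).card <
      (((box d n).filter fun y => shift y ω ∈ B).card : ℝ)} := by
    rintro M M' hM ω ⟨n, hn, h⟩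
    exact ⟨n, hn.trans hM, h⟩
  rw [h1, h2.measure_iUnion, ENNReal.mul_iSup]
  exact iSup_le fun M => wienC_fin ν hB ha M

end Frog81
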