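import Pool.Agent.H.MP_53e2a7_pr.hd.Hit
import Pool.Agent.H.MP_53e2a7_pr.hd.WienC

/-!
# DensU: irregular occupied sites have small upper density

PROOF. It suffices to treat `a = 1 / (j + 1)`. With `B N = {ω | 1 ≤ (ω 0).1 ∧ ¬ Good μ κ N ω 0}` (measurable, `measurableSet_good`, `measurable_count`),
`shift y ω ∈ B N ↔ 1 ≤ (ω y).1 ∧ ¬ Good μ κ N ω y` (`good_shift`, `0 + y = y`). By `wiener` the probability that the bound fails for some `n` is at most
`3^d P (B N) / a`, which by `bad_tendsto` is at most any `ε` for a suitable `N`; so the event that it fails for every `N` is null.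
-/

namespace Frog81

open MeasureTheory ProbabilityTheory Filter
open scoped ENNReal NNReal

variable {d : ℕ} [NeZero d] (ν : Measure ℕ) [IsProbabilityMeasure ν]

open scoped Classical in
theorem ae_bad_upper {μ : (Fin d → ℝ) → ℝ} {κ : ℝ}
    (hg : ∀ᵐ ω ∂ envLaw d ν, ∀ x : Site d, 1 ≤ (ω x).1 → ∃ N : ℕ, Good μ κ N ω x) :
    ∀ᵐ ω ∂ envLaw d ν, ∀ a : ℝ, 0 < a → ∃ N : ℕ, ∀ n : ℕ,
      (((box d n).filter fun x => 1 ≤ (ω x).1 ∧ ¬ Good μ κ N ω x).card : ℝ) ≤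
        a * (box d n).card := by
  obtain ⟨B, hBd⟩ : ∃ B : ℕ → Set (Env d),
      ∀ N, B N = {ω : Env d | 1 ≤ (ω 0).1 ∧ ¬ Good μ κ N ω 0} := ⟨_, fun _ => rfl⟩
  have hB : ∀ N : ℕ, MeasurableSet (B N) := by
    intro N
    rw [hBd]
    exact (measurableSet_le measurable_const (measurable_count 0)).inter
      (measurableSet_good μ κ N 0).compl
  have hmem : ∀ (N : ℕ) (ω : Env d) (y : Site d), shift y ω ∈ B N ↔
      1 ≤ (ω y).1 ∧ ¬ Good μ κ N ω y := by
    intro N ω y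
    rw [hBd]
    show (1 ≤ (ω (0 + y)).1 ∧ ¬ Good μ κ N (shift y ω) 0) ↔ _
    rw [good_shift, zero_add]
  have key : ∀ j : ℕ, ∀ᵐ ω ∂ envLaw d ν, ∃ N : ℕ, ∀ n : ℕ,
      (((box d n).filter fun x => 1 ≤ (ω x).1 ∧ ¬ Good μ κ N ω x).card : ℝ) ≤
        1 / ((j : ℝ) + 1) * (box d n).card := by
    intro j
    obtain ⟨a, haj⟩ : ∃ a : ℝ, a = 1 / ((j : ℝ) + 1) := ⟨_, rfl⟩
    have ha : 0 < a := by
      rw [haj]
      positivity
    rw [← haj, ae_iff]
    by_contra hp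
    obtain ⟨p, hpd⟩ : ∃ p, p = envLaw d ν {ω : Env d | ¬ ∃ N : ℕ, ∀ n : ℕ,
      (((box d n).filter fun x => 1 ≤ (ω x).1 ∧ ¬ Good μ κ N ω x).card : ℝ) ≤
        a * (box d n).card} := ⟨_, rfl⟩
    rw [← hpd] at hp
    have hx : ENNReal.ofReal a * p ≠ 0 := mul_ne_zero (ENNReal.ofReal_pos.2 ha).ne' hp
    have hxt : ENNReal.ofReal a * p ≠ ⊤ := ENNReal.mul_ne_top ENNReal.ofReal_ne_top (by
      rw [hpd]
      exact measure_ne_top _ _)
    have h3 : (3 : ℝ≥0∞) ^ d ≠ 0 := pow_ne_zero _ (by norm_num)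
    have h3t : (3 : ℝ≥0∞) ^ d ≠ ⊤ := ENNReal.pow_ne_top (by norm_num)
    obtain ⟨N, hN⟩ := bad_tendsto ν hg (ε := ENNReal.ofReal a * p / 2 / 3 ^ d)
      (ENNReal.div_pos (ENNReal.div_pos hx (by norm_num)).ne' h3t)
    rw [← hBd] at hN
    have h4 := wiener ν (hB N) ha
    have h5 : p ≤ envLaw d ν {ω : Env d | ∃ n : ℕ, a * (box d n).card <
        (((box d n).filter fun y => shift y ω ∈ B N).card : ℝ)} := by
      rw [hpd]
      refine measure_mono fun ω hω => ?_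
      by_contra hc
      refine hω ⟨N, fun n => ?_⟩
      have h6 : ¬ a * (box d n).card < (((box d n).filter fun y => shift y ω ∈ B N).card : ℝ) :=
        fun h => hc ⟨n, h⟩
      have h8 : ((box d n).filter fun y => shift y ω ∈ B N) =
          ((box d n).filter fun x => 1 ≤ (ω x).1 ∧ ¬ Good μ κ N ω x) :=
        Finset.filter_congr fun y _ => hmem N ω y
      rw [h8] at h6
      exact not_lt.1 h6
    have h7 : ENNReal.ofReal a * p ≤ 3 ^ d * (ENNReal.ofReal a * p / 2 / 3 ^ d) :=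
      (mul_le_mul' le_rfl h5).trans (h4.trans (mul_le_mul' le_rfl hN))
    rw [ENNReal.mul_div_cancel h3 h3t] at h7
    exact absurd h7 (not_le.2 (ENNReal.half_lt_self hx hxt))
  filter_upwards [ae_all_iff.2 key] with ω h a ha
  obtain ⟨j, hj⟩ := exists_nat_one_div_lt ha
  obtain ⟨N, hN⟩ := h j
  exact ⟨N, fun n => (hN n).trans (mul_le_mul_of_nonneg_right hj.le (Nat.cast_nonneg _))⟩

end Frog81
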