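import Pool.Agent.H.MP_53e2a7_pr.hd.Defs

/-!
# Far: regular type one sites far away

PROOF. `a` from PosDensity, `N` from `hb` with `a / 2`. Given `R`, let `m` be a natural number `≥ R`. For infinitely many `n` the box has at least `a card` sites of
type one (finite time, occupied) and less than `a/2 card` sites which are occupied and not Good, so more than `a/2 card (box d n)` are Good of type one; `card (box d n) ≥ 2 n + 1 → ∞`
(`d ≥ 1`), so for `n` large this exceeds `card (box d m)` and one of them is outside `box d m`: `‖rv g‖ > m ≥ R`.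
-/

namespace Frog81

open MeasureTheory ProbabilityTheory Filter
open scoped ENNReal NNReal

theorem Far_card {d : ℕ} [NeZero d] (n : ℕ) : n ≤ (box d n).card := by
  have h1 : (box d n).card = (2 * n + 1) ^ d := by
    unfold box
    rw [Fintype.card_piFinset]
    simp only [Int.card_Icc, Finset.prod_const, Finset.card_univ, Fintype.card_fin]
    congr 1
    omega
  rw [h1]
  exact (show n ≤ 2 * n + 1 by omega).trans (Nat.le_self_pow (NeZero.ne d) _)

theorem Far_norm {d : ℕ} {m : ℕ} {g : Site d} (h : g ∉ box d m) : (m : ℝ) ≤ ‖rv g‖ := by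
  unfold box at h
  rw [Fintype.mem_piFinset] at h
  push Not at h
  obtain ⟨i, hi⟩ := h
  have h1 : ‖rv g i‖ ≤ ‖rv g‖ := norm_le_pi_norm (rv g) i
  refine le_trans ?_ h1
  have h2 : (m : ℤ) ≤ |g i| := by
    rw [Finset.mem_Icc] at hi
    by_contra hcon
    push Not at hcon
    exact hi (abs_le.1 hcon.le)
  unfold rv
  rw [Real.norm_eq_abs]
  exact_mod_cast h2

open scoped Classical in
theorem far_good {d : ℕ} [NeZero d] {ω : Env d} {t : Site d → ℝ≥0∞} {θ : Site d → Kind}
    {μ : (Fin d → ℝ) → ℝ} {κ : ℝ} (hp : PosDensity ω t θ Kind.one)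
    (hb : ∀ a : ℝ, 0 < a → ∃ N : ℕ, ∃ᶠ n : ℕ in atTop,
      (((box d n).filter fun x => 1 ≤ (ω x).1 ∧ ¬ Good μ κ N ω x).card : ℝ) <
        a * (box d n).card) :
    ∃ N : ℕ, ∀ R : ℝ, ∃ g : Site d, Good μ κ N ω g ∧ θ g = Kind.one ∧ t g ≠ ⊤ ∧ R ≤ ‖rv g‖ := by
  obtain ⟨a, ha, h1⟩ := hp
  obtain ⟨N, h2⟩ := hb (a / 2) (by positivity)
  refine ⟨N, fun R => ?_⟩
  obtain ⟨m, hm⟩ := exists_nat_ge R
  obtain ⟨M, hM⟩ := exists_nat_ge (((box d m).card : ℝ) / (a / 2))
  obtain ⟨n, hn1, hn2, hn3⟩ := (h2.and_eventually (h1.and (eventually_ge_atTop M))).exists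
  have hc : ((box d m).card : ℝ) ≤ a / 2 * (box d n).card := by
    have h3 : (M : ℝ) ≤ (box d n).card := by
      exact_mod_cast hn3.trans (Far_card n)
    rw [div_le_iff₀ (by positivity)] at hM
    calc ((box d m).card : ℝ) ≤ M * (a / 2) := hM
      _ ≤ (box d n).card * (a / 2) := mul_le_mul_of_nonneg_right h3 (by positivity)
      _ = _ := mul_comm _ _
  set A := (box d n).filter fun y => θ y = Kind.one ∧ t y ≠ ⊤ ∧ 1 ≤ (ω y).1 with hA
  set B := (box d n).filter fun x => 1 ≤ (ω x).1 ∧ ¬ Good μ κ N ω x with hB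
  have h4 : (A.card : ℝ) ≤ (A \ B).card + B.card := by
    exact_mod_cast Finset.card_le_card_sdiff_add_card
  have h5 : (box d m).card < (A \ B).card := by
    have h6 : ((box d m).card : ℝ) < (A \ B).card := by linarith
    exact_mod_cast h6
  obtain ⟨g, hg, hgm⟩ := Finset.exists_mem_notMem_of_card_lt_card h5
  rw [Finset.mem_sdiff] at hg
  obtain ⟨hgA, hgB⟩ := hg
  rw [hA, Finset.mem_filter] at hgA
  refine ⟨g, ?_, hgA.2.1, hgA.2.2.1, hm.trans (Far_norm hgm)⟩
  by_contra hcon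
  exact hgB (Finset.mem_filter.2 ⟨hgA.1, hgA.2.2.2, hcon⟩)

end Frog81
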