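import Pool.Agent.H.MP_53e2a7_pr.h81.Comp
import Pool.Agent.H.MP_53e2a7_pr.hd.DefsU

/-!
# FarU: regular type one sites far away, upper density version

PROOF of far_goodU: `a` from PosUpper, `N` from `hb` with `a / 2`. Given `R`, let `m` be a natural number `≥ R`. For infinitely many `n` the box has at least `a card`
sites of type one (finite time, occupied) and at most `a/2 card` sites which are occupied and not Good, so at least `a/2 card (box d n)` are Good of type one;
`card (box d n) ≥ 2 n + 1 → ∞` (`d ≥ 1`), so for `n` large this exceeds `card (box d m)` and one of them is outside `box d m`: `‖rv g‖ > m ≥ R`.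
PROOF of occ_zeroU: suppose `(ω 0).1 = 0`. By `parent_induction` (Comp) with `p y := θ y = one → y = 0`: a type one site `y ≠ 0`, `t y ≠ ⊤` has a parent `x` of
type one, so `x = 0`, `t y = t 0 + travel ω 0 y / 1 = ⊤` (`travel_eq_top`). So the filtered box of PosUpper is empty (`y = 0` has `(ω 0).1 = 0`), but
`a * card (box d n) > 0` (`0 ∈ box d n`).
-/

namespace Frog81

open MeasureTheory ProbabilityTheory Filter
open scoped ENNReal NNReal

private theorem FarU_card {d : ℕ} [NeZero d] (n : ℕ) : n ≤ (box d n).card := by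
  have h1 : (box d n).card = (2 * n + 1) ^ d := by
    unfold box
    rw [Fintype.card_piFinset]
    simp only [Int.card_Icc, Finset.prod_const, Finset.card_univ, Fintype.card_fin]
    congr 1
    omega
  rw [h1]
  exact (show n ≤ 2 * n + 1 by omega).trans (Nat.le_self_pow (NeZero.ne d) _)

private theorem FarU_norm {d : ℕ} {m : ℕ} {g : Site d} (h : g ∉ box d m) : (m : ℝ) ≤ ‖rv g‖ := by
  unfold box at h
  rw [Fintype.mem_piFinset] at h
  push Not at h
  obtain ⟨i, hi⟩ := h
  have h1 : ‖rv g i‖ ≤ ‖rv g‖ := norm_le_pi_norm (rv g) i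
  refine le_trans ?_ h1
  have h2 : (m : ℤ) ≤ |g i| := by
    rw [Finset.mem_Icc] at hi
    by_contra hcon
    push Not at hcon
    exact hi (abs_le.1 hcon.le)
  unfold rv
  rw [Real.norm_eq_abs]
  exact_mod_cast h2

open scoped Classical in
theorem far_goodU {d : ℕ} [NeZero d] {ω : Env d} {t : Site d → ℝ≥0∞} {θ : Site d → Kind}
    {μ : (Fin d → ℝ) → ℝ} {κ : ℝ} (hp : PosUpper ω t θ Kind.one)
    (hb : ∀ a : ℝ, 0 < a → ∃ N : ℕ, ∀ n : ℕ,
      (((box d n).filter fun x => 1 ≤ (ω x).1 ∧ ¬ Good μ κ N ω x).card : ℝ) ≤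
        a * (box d n).card) :
    ∃ N : ℕ, ∀ R : ℝ, ∃ g : Site d, Good μ κ N ω g ∧ θ g = Kind.one ∧ t g ≠ ⊤ ∧ R ≤ ‖rv g‖ := by
  obtain ⟨a, ha, h1⟩ := hp
  obtain ⟨N, h2⟩ := hb (a / 2) (by positivity)
  refine ⟨N, fun R => ?_⟩
  obtain ⟨m, hm⟩ := exists_nat_ge R
  obtain ⟨M, hM⟩ := exists_nat_gt (((box d m).card : ℝ) / (a / 2))
  obtain ⟨n, hn2, hn3⟩ := (h1.and_eventually (eventually_ge_atTop M)).exists
  have hn1 := h2 n
  have hc : ((box d m).card : ℝ) < a / 2 * (box d n).card := by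
    have h3 : (M : ℝ) ≤ (box d n).card := by
      exact_mod_cast hn3.trans (FarU_card n)
    rw [div_lt_iff₀ (by positivity)] at hM
    calc ((box d m).card : ℝ) < M * (a / 2) := hM
      _ ≤ (box d n).card * (a / 2) := mul_le_mul_of_nonneg_right h3 (by positivity)
      _ = _ := mul_comm _ _
  set A := (box d n).filter fun y => θ y = Kind.one ∧ t y ≠ ⊤ ∧ 1 ≤ (ω y).1 with hA
  set B := (box d n).filter fun x => 1 ≤ (ω x).1 ∧ ¬ Good μ κ N ω x with hB
  have h4 : (A.card : ℝ) ≤ (A \ B).card + B.card := by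
    exact_mod_cast Finset.card_le_card_sdiff_add_card
  have h5 : (box d m).card < (A \ B).card := by
    have h6 : ((box d m).card : ℝ) < (A \ B).card := by linarith
    exact_mod_cast h6
  obtain ⟨g, hg, hgm⟩ := Finset.exists_mem_notMem_of_card_lt_card h5
  rw [Finset.mem_sdiff] at hg
  obtain ⟨hgA, hgB⟩ := hg
  rw [hA, Finset.mem_filter] at hgA
  refine ⟨g, ?_, hgA.2.1, hgA.2.2.1, hm.trans (FarU_norm hgm)⟩
  by_contra hcon
  exact hgB (Finset.mem_filter.2 ⟨hgA.1, hgA.2.2.2, hcon⟩)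

theorem occ_zeroU {d : ℕ} {β : ℝ} {z : Site d} {ω : Env d} {t : Site d → ℝ≥0∞}
    {θ : Site d → Kind} (hreg : Regular ω) (hβ0 : 0 < β) (h : IsTwoType β z ω t θ)
    (hp : PosUpper ω t θ Kind.one) : 1 ≤ (ω 0).1 := by
  by_contra hcon
  have h0 : (ω 0).1 = 0 := by omega
  have key : ∀ y, t y ≠ ⊤ → θ y = Kind.one → y = 0 := by
    intro y hy
    refine parent_induction hreg h (fun y => θ y = Kind.one → y = 0) ?_ y hy
    intro y hty ih hθy
    by_contra hy0
    have hyz : y ≠ z := by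
      rintro rfl
      rw [h.kind_start] at hθy
      exact absurd hθy (by decide)
    obtain ⟨x, hxy, hθ, he⟩ := h.parent y hy0 hyz hty
    have hx := ih x (time_lt hreg hβ0 h x y hxy hty he) (hθ.trans hθy)
    rw [hx, h.kind_zero, h.time_zero, travel_eq_top ω 0 y h0] at he
    apply hty
    rw [he]
    simp [rate]
  obtain ⟨a, ha, hev⟩ := hp
  obtain ⟨n, hn⟩ := hev.exists
  have hbox : 0 < (box d n).card := by
    refine Finset.card_pos.2 ⟨0, ?_⟩
    unfold box
    rw [Fintype.mem_piFinset]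
    intro i
    rw [Finset.mem_Icc]
    constructor
    · simp
    · simp
  have hempty : ((box d n).filter fun y => θ y = Kind.one ∧ t y ≠ ⊤ ∧ 1 ≤ (ω y).1) = ∅ := by
    rw [Finset.filter_eq_empty_iff]
    rintro y _ ⟨h1, h2, h3⟩
    rw [key y h2 h1] at h3
    omega
  rw [hempty, Finset.card_empty, Nat.cast_zero] at hn
  have h1 : 0 < a * ((box d n).card : ℝ) := mul_pos ha (by exact_mod_cast hbox)
  linarith

end Frog81
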