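import Pool.Agent.H.MP_53e2a7_pr.hd.PairU

/-!
# FinU: countably many exceptional beta

PROOF. As Fin.lean (copy it when it is finished). For fixed `z` let `A z` be the set of `β ∈ (0,1)` for which the condition of DensePossibleU holds with this `z`; choose `E β`. For `β < β'` in `A z`,
`E β ∩ E β'` is contained in the exceptional null set of `pair_nullU`, so the sets are pairwise AEDisjoint and measurable of positive finite measure:
`Measure.countable_meas_pos_of_disjoint_of_meas_iUnion_ne_top₀` (Mathlib; index type `A z`) gives that `A z` is countable. The set of the theorem is the union over the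
countably many `z`.
-/

namespace Frog81

open MeasureTheory ProbabilityTheory Filter
open scoped ENNReal NNReal

theorem dense_countableU {d : ℕ} [NeZero d] (hd : 2 ≤ d) (ν : Measure ℕ) [IsProbabilityMeasure ν]
    (h : HasBoundedShape d ν) : {β : ℝ | 0 < β ∧ β < 1 ∧ DensePossibleU d ν β}.Countable := by
  obtain ⟨A, hA⟩ : ∃ A : Site d → Set ℝ, ∀ z, A z = {β : ℝ | 0 < β ∧ β < 1 ∧
      ∃ E : Set (Env d), MeasurableSet E ∧ 0 < envLaw d ν E ∧
        ∀ ω ∈ E, (∃ t θ, IsTwoType β z ω t θ) ∧
          ∀ t θ, IsTwoType β z ω t θ → Activates ω t θ Kind.two ∧ PosUpper ω t θ Kind.one} :=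
    ⟨_, fun _ => rfl⟩
  have hc : ∀ z, (A z).Countable := by
    intro z
    have hE : ∀ β : A z, 0 < β.1 ∧ β.1 < 1 ∧
      ∃ E : Set (Env d), MeasurableSet E ∧ 0 < envLaw d ν E ∧
        ∀ ω ∈ E, (∃ t θ, IsTwoType β.1 z ω t θ) ∧
          ∀ t θ, IsTwoType β.1 z ω t θ → Activates ω t θ Kind.two ∧
            PosUpper ω t θ Kind.one := by
      intro β
      exact (Set.ext_iff.1 (hA z) β.1).1 β.2
    choose hE0 hE1 E hEm hEp hEω using hE
    have key : ∀ β β' : A z, β.1 < β'.1 → AEDisjoint (envLaw d ν) (E β) (E β') := by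
      intro β β' hlt
      have h2 := ae_iff.1 (pair_nullU hd ν h (hE0 β) hlt (hE1 β') z)
      refine measure_mono_null ?_ h2
      rintro ω ⟨h3, h4⟩ h5
      obtain ⟨⟨t, θ, h6⟩, h7⟩ := hEω β ω h3
      obtain ⟨⟨t', θ', h8⟩, h9⟩ := hEω β' ω h4
      exact h5 t θ t' θ' h6 h8 (h7 t θ h6).1 (h9 t' θ' h8).2
    have hd1 : Pairwise (Function.onFun (AEDisjoint (envLaw d ν)) E) := by
      intro β β' hne
      rcases lt_or_gt_of_ne (fun h10 => hne (Subtype.ext h10) : β.1 ≠ β'.1) with h11 | h11
      · exact key β β' h11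
      · exact (key β' β h11).symm
    have h12 := Measure.countable_meas_pos_of_disjoint_iUnion₀ (μ := envLaw d ν)
      (fun β => (hEm β).nullMeasurableSet) hd1
    have h13 : {β : A z | 0 < envLaw d ν (E β)} = Set.univ :=
      Set.eq_univ_of_forall fun β => hEp β
    rw [h13] at h12
    exact Set.countable_coe_iff.1 (Set.countable_univ_iff.1 h12)
  refine (Set.countable_iUnion hc).mono ?_
  rintro β ⟨h0, h1, z, -, h2⟩
  refine Set.mem_iUnion.2 ⟨z, ?_⟩
  rw [hA]
  exact ⟨h0, h1, h2⟩

end Frog81
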