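import Pool.Agent.H.MP_53e2a7_pr.h81.Shape
import Pool.Agent.H.MP_53e2a7_pr.hd.Defs

/-!
# Gau: the gauge of the shape, regular sites

PROOF. As `shape_global`, `shape_line`, `ae_startsWell` in Shape.lean (copy the private lemmas `shape_filled`, `shape_det`, `shape_norm`, `shape_ev`; names
beginning with Gau). `μ = gauge A` for the set `A` of `HasBoundedShape`; `A` is a neighbourhood of `0` (`zero_mem_interior`) and bounded, which gives
`c`, `C` (`gauge_add_le`, `gauge_smul_of_nonneg`, the bounds of `gauge` are in the proof of `shape_global`). For `κ ∈ (0,1)` take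
`ε ∈ (0,1)` with `1 / (1 - ε) ≤ 1 + κ`, `1 - κ ≤ 1 / (1 + ε)` (`ε = κ / 2`). For almost all `ω` with `1 ≤ (ω 0).1` `shape_det` gives the bounds for
`T ω 0 y`; for other sites `x` use `measurePreserving_shift`, `T_shift` and `ae_all_iff` over the countable set of sites, as in `ae_startsWell`;
`N = ⌈t₀⌉₊`.
-/

namespace Frog81

open MeasureTheory ProbabilityTheory Filter
open scoped ENNReal NNReal Pointwise

private theorem Gau_filled {d : ℕ} (ω : Env d) (t : ℝ) (y : Site d) :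
    rv y ∈ filled ω t ↔ T ω 0 y ≤ ENNReal.ofReal t := by
  constructor
  · rintro ⟨y', hy', h⟩
    have e : y = y' := by
      funext i
      have h1 := h i
      have h2 : ((y i - y' i : ℤ) : ℝ) ∈ Set.Ioc (-1 / 2 : ℝ) (1 / 2) := by
        push_cast
        exact h1
      have h3 : (-1 : ℝ) < ((y i - y' i : ℤ) : ℝ) := by linarith [h2.1]
      have h4 : ((y i - y' i : ℤ) : ℝ) < 1 := by linarith [h2.2]
      have h5 : -1 < y i - y' i := by exact_mod_cast h3
      have h6 : y i - y' i < 1 := by exact_mod_cast h4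
      omega
    rw [e]
    exact hy'
  · intro h
    refine ⟨y, h, fun i => ?_⟩
    show (y i : ℝ) - (y i : ℝ) ∈ Set.Ioc (-1 / 2 : ℝ) (1 / 2)
    rw [sub_self]
    constructor <;> norm_num

private theorem Gau_det {d : ℕ} (ω : Env d) (A : Set (Fin d → ℝ)) (hconv : Convex ℝ A)
    (h0 : A ∈ nhds (0 : Fin d → ℝ)) {ε t₀ : ℝ} (hε0 : 0 < ε) (hε1 : ε < 1) (ht₀ : 1 ≤ t₀)
    (h : ∀ t, t₀ ≤ t → (1 - ε) • A ⊆ t⁻¹ • filled ω t ∧ t⁻¹ • filled ω t ⊆ (1 + ε) • A)
    (y : Site d) : T ω 0 y ≤ ENNReal.ofReal (gauge A (rv y) / (1 - ε) + t₀) ∧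
      ENNReal.ofReal (gauge A (rv y) / (1 + ε) - t₀) ≤ T ω 0 y := by
  have habs : Absorbent ℝ A := absorbent_nhds_zero h0
  have h0A : (0 : Fin d → ℝ) ∈ A := mem_of_mem_nhds h0
  have hg : 0 ≤ gauge A (rv y) := gauge_nonneg _
  have hε2 : 0 < 1 - ε := by linarith
  have hε3 : 0 < 1 + ε := by linarith
  constructor
  · set t : ℝ := gauge A (rv y) / (1 - ε) + t₀ with ht
    have h1 : 0 ≤ gauge A (rv y) / (1 - ε) := div_nonneg hg hε2.le
    have ht0 : 0 < t := by linarith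
    rw [← Gau_filled]
    have h2 : t⁻¹ • rv y ∈ (1 - ε) • A := by
      rw [Set.mem_smul_set_iff_inv_smul_mem₀ hε2.ne']
      apply setOfPred_gauge_lt_one_subset_self hconv h0A habs
      show gauge A ((1 - ε)⁻¹ • t⁻¹ • rv y) < 1
      rw [gauge_smul_of_nonneg (inv_nonneg.2 hε2.le), gauge_smul_of_nonneg (inv_nonneg.2 ht0.le),
        smul_eq_mul, smul_eq_mul]
      have h3 : gauge A (rv y) < (1 - ε) * t := by
        have h4 : (1 - ε) * t = gauge A (rv y) + (1 - ε) * t₀ := by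
          rw [ht]
          field_simp
        rw [h4]
        have : 0 < (1 - ε) * t₀ := mul_pos hε2 (by linarith)
        linarith
      rw [← mul_assoc, ← mul_inv, inv_mul_lt_iff₀ (mul_pos hε2 ht0), mul_one]
      exact h3
    obtain ⟨q, hq, e⟩ := (h t (by linarith)).1 h2
    have e' : q = rv y := smul_right_injective _ (inv_ne_zero ht0.ne') e
    rw [← e']
    exact hq
  · by_contra hlt
    rw [not_le] at hlt
    have htop : T ω 0 y ≠ ⊤ := ne_top_of_lt hlt
    have h1 : (T ω 0 y).toReal < gauge A (rv y) / (1 + ε) - t₀ := by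
      have h2 := (ENNReal.lt_ofReal_iff_toReal_lt htop).1 hlt
      exact h2
    set t : ℝ := max t₀ (T ω 0 y).toReal with ht
    have ht1 : t₀ ≤ t := le_max_left _ _
    have ht0 : 0 < t := by linarith
    have h2 : T ω 0 y ≤ ENNReal.ofReal t := by
      rw [← ENNReal.ofReal_toReal htop]
      exact ENNReal.ofReal_le_ofReal (le_max_right _ _)
    rw [← Gau_filled] at h2
    have h3 : t⁻¹ • rv y ∈ (1 + ε) • A := (h t ht1).2 ⟨_, h2, rfl⟩
    have h4 := gauge_le_of_mem hε3.le h3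
    rw [gauge_smul_of_nonneg (inv_nonneg.2 ht0.le), smul_eq_mul, inv_mul_le_iff₀ ht0] at h4
    have h5 : gauge A (rv y) / (1 + ε) ≤ t := by
      rw [div_le_iff₀ hε3]
      exact h4
    have h6 : t ≤ t₀ + (T ω 0 y).toReal := by
      refine max_le ?_ ?_
      · have := ENNReal.toReal_nonneg (a := T ω 0 y)
        linarith
      · linarith
    linarith

private theorem Gau_ev {d : ℕ} {A : Set (Fin d → ℝ)} {ω : Env d} {ε : ℝ}
    (h : ∀ᶠ t : ℝ in atTop, (1 - ε) • A ⊆ t⁻¹ • filled ω t ∧ t⁻¹ • filled ω t ⊆ (1 + ε) • A) :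
    ∃ t₀ : ℝ, 1 ≤ t₀ ∧ ∀ t, t₀ ≤ t →
      (1 - ε) • A ⊆ t⁻¹ • filled ω t ∧ t⁻¹ • filled ω t ⊆ (1 + ε) • A := by
  obtain ⟨t₁, ht₁⟩ := eventually_atTop.1 h
  exact ⟨max 1 t₁, le_max_left _ _, fun t ht => ht₁ t ((le_max_right _ _).trans ht)⟩

theorem exists_gauge {d : ℕ} [NeZero d] (ν : Measure ℕ) [IsProbabilityMeasure ν]
    (h : HasBoundedShape d ν) : ∃ (μ : (Fin d → ℝ) → ℝ) (c C : ℝ), IsGauge μ c C ∧
      ∀ κ : ℝ, 0 < κ → κ < 1 → ∀ᵐ ω ∂ envLaw d ν, ∀ x : Site d, 1 ≤ (ω x).1 →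
        ∃ N : ℕ, Good μ κ N ω x := by
  obtain ⟨hν, A, hA, hconv, hint, hA2⟩ := h
  have h0 : A ∈ nhds (0 : Fin d → ℝ) :=
    mem_interior_iff_mem_nhds.1 (zero_mem_interior ν hν A hA hconv hint hA2)
  have habs : Absorbent ℝ A := absorbent_nhds_zero h0
  obtain ⟨r, hr, hrA⟩ := Metric.mem_nhds_iff.1 h0
  obtain ⟨ρ, hρ0, hρ⟩ : ∃ ρ : ℝ, 0 < ρ ∧ A ⊆ Metric.closedBall 0 ρ := by
    obtain ⟨ρ, hρ⟩ := hA.subset_closedBall (0 : Fin d → ℝ)
    exact ⟨max ρ 1, lt_max_of_lt_right one_pos,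
      hρ.trans (Metric.closedBall_subset_closedBall (le_max_left _ _))⟩
  have hG : IsGauge (d := d) (gauge A) (1 / ρ) (1 / r) := by
    refine ⟨by positivity, by positivity, fun x y => gauge_add_le hconv habs x y,
      fun s x hs => ?_, fun x => ?_, fun x => ?_⟩
    · rw [gauge_smul_of_nonneg hs, smul_eq_mul]
    · have h5 : ‖x‖ / ρ ≤ gauge A x := le_gauge_of_subset_closedBall habs hρ0.le hρ
      rw [one_div, inv_mul_eq_div]
      exact h5
    · have h4 : r * gauge A x ≤ ‖x‖ := mul_gauge_le_norm hrA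
      rw [one_div, inv_mul_eq_div, le_div_iff₀ hr]
      linarith
  refine ⟨gauge A, 1 / ρ, 1 / r, hG, fun κ hκ0 hκ1 => ?_⟩
  rw [ae_all_iff]
  intro x
  have h2 := (measurePreserving_shift ν x).quasiMeasurePreserving.ae
    (hA2 (κ / 2) ⟨by linarith, by linarith⟩)
  filter_upwards [h2] with ω h3 h4
  obtain ⟨t₀, ht₀, ht⟩ := Gau_ev (h3 (by
    show 1 ≤ (ω (0 + x)).1
    rw [zero_add]
    exact h4))
  refine ⟨⌈t₀⌉₊, h4, fun y => ?_⟩
  obtain ⟨h6, h7⟩ := Gau_det (shift x ω) A hconv h0 (by linarith) (by linarith) ht₀ ht (y - x)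
  have e : rv (y - x) = rv y - rv x := by
    funext i
    simp [rv]
  rw [T_shift, zero_add, sub_add_cancel, e] at h6 h7
  have hg : 0 ≤ gauge A (rv y - rv x) := gauge_nonneg _
  have hL := Nat.le_ceil t₀
  constructor
  · refine h6.trans (ENNReal.ofReal_le_ofReal ?_)
    have h8 : gauge A (rv y - rv x) / (1 - κ / 2) ≤ (1 + κ) * gauge A (rv y - rv x) := by
      rw [div_le_iff₀ (by linarith)]
      have h5 : 1 ≤ (1 + κ) * (1 - κ / 2) := by nlinarith
      nlinarith [mul_le_mul_of_nonneg_left h5 hg]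
    linarith
  · refine le_trans (ENNReal.ofReal_le_ofReal ?_) h7
    have h8 : (1 - κ) * gauge A (rv y - rv x) ≤ gauge A (rv y - rv x) / (1 + κ / 2) := by
      rw [le_div_iff₀ (by linarith)]
      have h5 : (1 - κ) * (1 + κ / 2) ≤ 1 := by nlinarith
      nlinarith [mul_le_mul_of_nonneg_left h5 hg]
    linarith

end Frog81
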