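import Pool.Agent.H.MP_53e2a7_pr.h81.Basic
import Pool.Agent.H.MP_53e2a7_pr.h81.Meas
import Pool.Agent.H.MP_53e2a7_pr.hd.Defs

/-!
# MG: regular sites: measurability, translation, monotonicity

PROOF of measurableSet_good: `measurable_count`, `measurable_T` (Meas), countable intersection over `y`. good_shift: `T_shift` (Basic), replace `y` by `y + v`;
`rv (y + v) - rv (g + v) = rv y - rv g`. good_mono: `ENNReal.ofReal_le_ofReal`.
-/

namespace Frog81

open MeasureTheory ProbabilityTheory Filter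
open scoped ENNReal NNReal

private theorem MG_rv {d : ℕ} (y g v : Site d) : rv (y + v) - rv (g + v) = rv y - rv g := by
  funext i
  simp [rv]

theorem measurableSet_good {d : ℕ} (μ : (Fin d → ℝ) → ℝ) (κ : ℝ) (N : ℕ) (g : Site d) :
    MeasurableSet {ω : Env d | Good μ κ N ω g} := by
  have h1 : MeasurableSet {ω : Env d | 1 ≤ (ω g).1} :=
    measurableSet_le measurable_const (measurable_count g)
  have h2 : ∀ y, MeasurableSet {ω : Env d |
      T ω g y ≤ ENNReal.ofReal ((1 + κ) * μ (rv y - rv g) + N)} :=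
    fun y => measurableSet_le (measurable_T g y) measurable_const
  have h3 : ∀ y, MeasurableSet {ω : Env d |
      ENNReal.ofReal ((1 - κ) * μ (rv y - rv g) - N) ≤ T ω g y} :=
    fun y => measurableSet_le measurable_const (measurable_T g y)
  have h4 : {ω : Env d | Good μ κ N ω g} = {ω : Env d | 1 ≤ (ω g).1} ∩
      ⋂ y : Site d, ({ω : Env d | T ω g y ≤ ENNReal.ofReal ((1 + κ) * μ (rv y - rv g) + N)} ∩
        {ω : Env d | ENNReal.ofReal ((1 - κ) * μ (rv y - rv g) - N) ≤ T ω g y}) := by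
    ext ω
    simp only [Good, Set.mem_inter_iff, Set.mem_iInter, Set.mem_setOf_eq]
  rw [h4]
  exact h1.inter (MeasurableSet.iInter fun y => (h2 y).inter (h3 y))

theorem good_shift {d : ℕ} (μ : (Fin d → ℝ) → ℝ) (κ : ℝ) (N : ℕ) (v g : Site d) (ω : Env d) :
    Good μ κ N (shift v ω) g ↔ Good μ κ N ω (g + v) := by
  constructor
  · rintro ⟨h1, h2⟩
    refine ⟨h1, fun y => ?_⟩
    have h3 := h2 (y - v)
    rw [T_shift, sub_add_cancel] at h3
    have h4 : rv (y - v) - rv g = rv y - rv (g + v) := by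
      rw [← MG_rv (y - v) g v, sub_add_cancel]
    rw [h4] at h3
    exact h3
  · rintro ⟨h1, h2⟩
    refine ⟨h1, fun y => ?_⟩
    have h3 := h2 (y + v)
    rw [MG_rv] at h3
    rw [T_shift]
    exact h3

theorem good_mono {d : ℕ} {μ : (Fin d → ℝ) → ℝ} {κ : ℝ} {N N' : ℕ} (h : N ≤ N') {ω : Env d}
    {g : Site d} (hg : Good μ κ N ω g) : Good μ κ N' ω g := by
  have h1 : (N : ℝ) ≤ N' := by exact_mod_cast h
  refine ⟨hg.1, fun y => ⟨?_, ?_⟩⟩
  · exact (hg.2 y).1.trans (ENNReal.ofReal_le_ofReal (by linarith))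
  · exact (ENNReal.ofReal_le_ofReal (by linarith)).trans (hg.2 y).2

theorem dense_mono {d : ℕ} {μ : (Fin d → ℝ) → ℝ} {κ : ℝ} {N N' : ℕ} (h : N ≤ N') {ω : Env d}
    (hg : Dense μ κ N ω) : Dense μ κ N' ω := by
  intro x hx
  have h1 : (N : ℝ) ≤ N' := by exact_mod_cast h
  obtain ⟨g, h2, h3⟩ := hg x (h1.trans hx)
  exact ⟨g, good_mono h h2, h3⟩

end Frog81
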