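import Pool.Agent.H.MP_53e2a7_pr.h81.Inv
import Pool.Agent.H.MP_53e2a7_pr.hd.MG

/-!
# Hit: near the origin there is a regular site, with high probability

PROOF. `B N = {ω | no Good μ κ N site g with ‖rv g‖ ≤ N}` is measurable (`measurableSet_good`, countable union over g) and decreasing in `N`
(`good_mono`), and almost surely `ω` is not in all of them: almost surely some site `x` is occupied (the sites are independent with the same law,
`ν {0}ᶜ ≠ 0`; there should be such a lemma in h81, search occupied; or `measure_eq_zero_of...`: for each finite set of n sites the probability that all are empty is `(ν {0})^n`),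
it is Good for some `N'`, take `N ≥ N'`, `N ≥ ‖rv x‖`. So `P (B N) → 0` (`tendsto_measure_iInter_atTop`). The second theorem is similar with the sets
`{ω | 1 ≤ (ω 0).1 ∧ ¬ Good μ κ N ω 0}`.
-/

namespace Frog81

open MeasureTheory ProbabilityTheory Filter
open scoped ENNReal NNReal

variable {d : ℕ} [NeZero d] (ν : Measure ℕ) [IsProbabilityMeasure ν]

private theorem small_of_antitone {Ω : Type*} [MeasurableSpace Ω] (P : Measure Ω)
    [IsProbabilityMeasure P] {A : ℕ → Set Ω} (hm : ∀ n, MeasurableSet (A n)) (ha : Antitone A)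
    (h0 : ∀ᵐ ω ∂ P, ∃ n, ω ∉ A n) {ε : ℝ≥0∞} (hε : 0 < ε) : ∃ n, P (A n) ≤ ε := by
  have h1 := tendsto_measure_iInter_atTop (μ := P) (fun n => (hm n).nullMeasurableSet) ha
    ⟨0, measure_ne_top P _⟩
  have h2 : P (⋂ n, A n) = 0 := by
    rw [ae_iff] at h0
    have h3 : {ω | ¬ ∃ n, ω ∉ A n} = ⋂ n, A n := by
      ext ω
      simp
    rw [← h3]
    exact h0
  rw [h2] at h1
  obtain ⟨n, hn⟩ := (h1.eventually (gt_mem_nhds hε)).exists
  exact ⟨n, hn.le⟩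

theorem hit_tendsto {μ : (Fin d → ℝ) → ℝ} {κ : ℝ} (hν : ν {0}ᶜ ≠ 0)
    (hg : ∀ᵐ ω ∂ envLaw d ν, ∀ x : Site d, 1 ≤ (ω x).1 → ∃ N : ℕ, Good μ κ N ω x) {ε : ℝ≥0∞}
    (hε : 0 < ε) : ∃ N : ℕ, envLaw d ν {ω | ¬ ∃ g, Good μ κ N ω g ∧ ‖rv g‖ ≤ N} ≤ ε := by
  refine small_of_antitone (envLaw d ν)
    (A := fun N : ℕ => {ω : Env d | ¬ ∃ g, Good μ κ N ω g ∧ ‖rv g‖ ≤ N}) (fun N => ?_) ?_ ?_ hε
  · have h1 : {ω : Env d | ¬ ∃ g, Good μ κ N ω g ∧ ‖rv g‖ ≤ N} =
        (⋃ g : Site d, {ω : Env d | Good μ κ N ω g} ∩ {_ω : Env d | ‖rv g‖ ≤ N})ᶜ := by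
      ext ω
      simp
    rw [h1]
    exact (MeasurableSet.iUnion fun g =>
      (measurableSet_good μ κ N g).inter (MeasurableSet.const _)).compl
  · intro N N' hN ω hω hc
    obtain ⟨g, hg1, hg2⟩ := hc
    refine hω ⟨g, good_mono hN hg1, hg2.trans ?_⟩
    exact_mod_cast hN
  · filter_upwards [hg, ae_occupied ν hν 0 1 one_ne_zero] with ω h1 h2
    obtain ⟨n, hn⟩ := h2.nonempty
    obtain ⟨N, hN⟩ := h1 _ hn
    refine ⟨max N ⌈‖rv (axis (0 + 1 * (n : ℤ)) : Site d)‖⌉₊, fun hc => hc ⟨_,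
      good_mono (le_max_left _ _) hN, ?_⟩⟩
    refine (Nat.le_ceil _).trans ?_
    exact_mod_cast le_max_right _ _

theorem bad_tendsto {μ : (Fin d → ℝ) → ℝ} {κ : ℝ}
    (hg : ∀ᵐ ω ∂ envLaw d ν, ∀ x : Site d, 1 ≤ (ω x).1 → ∃ N : ℕ, Good μ κ N ω x) {ε : ℝ≥0∞}
    (hε : 0 < ε) : ∃ N : ℕ, envLaw d ν {ω | 1 ≤ (ω 0).1 ∧ ¬ Good μ κ N ω 0} ≤ ε := by
  refine small_of_antitone (envLaw d ν)
    (A := fun N : ℕ => {ω : Env d | 1 ≤ (ω 0).1 ∧ ¬ Good μ κ N ω 0}) (fun N => ?_) ?_ ?_ hε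
  · have h1 : MeasurableSet {ω : Env d | 1 ≤ (ω 0).1} := by
      have h2 : Measurable fun ω : Env d => (ω 0).1 := measurable_fst.comp (measurable_pi_apply 0)
      exact h2 MeasurableSet.of_discrete
    exact h1.inter (measurableSet_good μ κ N 0).compl
  · intro N N' hN ω hω
    exact ⟨hω.1, fun hc => hω.2 (good_mono hN hc)⟩
  · filter_upwards [hg] with ω h1
    by_cases h2 : 1 ≤ (ω 0).1
    · obtain ⟨N, hN⟩ := h1 0 h2
      exact ⟨N, fun hc => hc.2 hN⟩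
    · exact ⟨0, fun hc => h2 hc.1⟩

end Frog81
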