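import Mathlib

/-!
# Max: the maximal ergodic inequality for a set

PROOF (Garsia). `f = 1_B - a`, `Sm m ω = ∑ k < m, f (S^[k] ω)`, `F n ω = max (0 ≤ m ≤ n) of Sm m ω ≥ 0` (a finite supremum, bounded, measurable). For `1 ≤ m ≤ n`:
`Sm m ω = f ω + Sm (m-1) (S ω) ≤ f ω + F n (S ω)`, so on `{F n > 0}`, `F n ω ≤ f ω + F n (S ω)`. Integrate over `{F n > 0}`:
`∫_{F n > 0} f ≥ ∫_{F n > 0} F n - ∫_{F n > 0} F n ∘ S ≥ ∫ F n - ∫ F n ∘ S = 0` (`hS.integral_comp'` or `MeasurePreserving.integral_comp`, bounded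
functions; `F n = 0` outside the set). As `∫_{F n > 0} f = P (B ∩ {F n > 0}) - a P {F n > 0}`: `a P {F n > 0} ≤ P B`. The event of the theorem is
the increasing union of the sets `{F n > 0}` (`a * m < card` means `Sm m ω > 0`).
-/

open MeasureTheory Filter
open scoped ENNReal

namespace Frog81

/-- The function `1_B - a`. -/
private noncomputable def MaxF0 {Ω : Type*} (B : Set Ω) (a : ℝ) (ω : Ω) : ℝ :=
  B.indicator (fun _ => (1 : ℝ)) ω - a

/-- The maximum of the sums. -/
private noncomputable def MaxF {Ω : Type*} (S : Ω → Ω) (B : Set Ω) (a : ℝ) : ℕ → Ω → ℝ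
  | 0 => fun _ => 0
  | n + 1 => fun ω => max 0 (MaxF0 B a ω + MaxF S B a n (S ω))

private lemma MaxF_nonneg {Ω : Type*} (S : Ω → Ω) (B : Set Ω) (a : ℝ) (n : ℕ) (ω : Ω) :
    0 ≤ MaxF S B a n ω := by
  cases n with
  | zero => exact le_rfl
  | succ n => exact le_max_left _ _

private lemma MaxF_mono {Ω : Type*} (S : Ω → Ω) (B : Set Ω) (a : ℝ) (n : ℕ) :
    ∀ ω, MaxF S B a n ω ≤ MaxF S B a (n + 1) ω := by
  induction n with
  | zero => intro ω; exact MaxF_nonneg S B a 1 ω
  | succ n ih =>
    intro ω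
    show max 0 (MaxF0 B a ω + MaxF S B a n (S ω)) ≤ max 0 (MaxF0 B a ω + MaxF S B a (n + 1) (S ω))
    exact max_le_max le_rfl (by linarith [ih (S ω)])

private lemma MaxF_sum {Ω : Type*} (S : Ω → Ω) (B : Set Ω) (a : ℝ) (n : ℕ) :
    ∀ ω, ∑ k ∈ Finset.range n, MaxF0 B a (S^[k] ω) ≤ MaxF S B a n ω := by
  induction n with
  | zero => intro ω; simp [MaxF]
  | succ n ih =>
    intro ω
    rw [Finset.sum_range_succ']
    have h1 : ∑ k ∈ Finset.range n, MaxF0 B a (S^[k + 1] ω) =
        ∑ k ∈ Finset.range n, MaxF0 B a (S^[k] (S ω)) := by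
      apply Finset.sum_congr rfl
      intro k _
      rw [Function.iterate_succ_apply]
    rw [h1]
    have h2 := ih (S ω)
    have h3 : MaxF0 B a ω + MaxF S B a n (S ω) ≤ MaxF S B a (n + 1) ω := le_max_right _ _
    simp only [Function.iterate_zero, id_eq]
    linarith

private lemma MaxF0_int {Ω : Type*} [MeasurableSpace Ω] {P : Measure Ω} [IsProbabilityMeasure P]
    {B : Set Ω} (hB : MeasurableSet B) (a : ℝ) : Integrable (MaxF0 B a) P :=
  ((integrable_const (1 : ℝ)).indicator hB).sub (integrable_const a)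

private lemma MaxF_int {Ω : Type*} [MeasurableSpace Ω] {P : Measure Ω} [IsProbabilityMeasure P]
    {S : Ω → Ω} (hS : MeasurePreserving S P P) {B : Set Ω} (hB : MeasurableSet B) (a : ℝ)
    (n : ℕ) : Integrable (MaxF S B a n) P := by
  induction n with
  | zero => exact integrable_zero _ _ _
  | succ n ih =>
    have h1 : Integrable (fun ω => MaxF S B a n (S ω)) P := hS.integrable_comp_of_integrable ih
    have h2 : Integrable (fun ω => MaxF0 B a ω + MaxF S B a n (S ω)) P := (MaxF0_int hB a).add h1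
    exact (integrable_zero Ω ℝ P).sup h2

private lemma MaxF_meas {Ω : Type*} [MeasurableSpace Ω]
    {S : Ω → Ω} (hS : Measurable S) {B : Set Ω} (hB : MeasurableSet B) (a : ℝ)
    (n : ℕ) : Measurable (MaxF S B a n) := by
  induction n with
  | zero => exact measurable_const
  | succ n ih =>
    have h0 : Measurable (MaxF0 B a) := (measurable_const.indicator hB).sub measurable_const
    exact measurable_const.max (h0.add (ih.comp hS))

private lemma MaxF_set {Ω : Type*} [MeasurableSpace Ω] {P : Measure Ω} [IsProbabilityMeasure P]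
    {S : Ω → Ω} (hS : MeasurePreserving S P P) {B : Set Ω} (hB : MeasurableSet B) {a : ℝ}
    (ha : 0 < a) (n : ℕ) :
    P {ω | 0 < MaxF S B a n ω} ≤ P B / ENNReal.ofReal a := by
  cases n with
  | zero => simp [MaxF]
  | succ n =>
    set E : Set Ω := {ω | 0 < MaxF S B a (n + 1) ω} with hE
    have hEm : MeasurableSet E :=
      measurableSet_lt measurable_const (MaxF_meas hS.measurable hB a (n + 1))
    have h0 := MaxF0_int (P := P) hB a
    have h1 := MaxF_int hS hB a (n + 1)
    have hn := MaxF_int hS hB a n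
    have h2 : Integrable (fun ω => MaxF S B a n (S ω)) P := hS.integrable_comp_of_integrable hn
    -- the integral over `E`
    have e1 : ∫ ω, MaxF S B a (n + 1) ω ∂P = ∫ ω in E, MaxF S B a (n + 1) ω ∂P := by
      symm
      apply setIntegral_eq_integral_of_forall_compl_eq_zero
      intro ω hω
      have h3 : ¬ 0 < MaxF S B a (n + 1) ω := hω
      exact le_antisymm (not_lt.1 h3) (MaxF_nonneg S B a (n + 1) ω)
    have e2 : ∫ ω in E, MaxF S B a (n + 1) ω ∂P =
        ∫ ω in E, (MaxF0 B a ω + MaxF S B a n (S ω)) ∂P := by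
      apply setIntegral_congr_fun hEm
      intro ω hω
      have h3 : 0 < max 0 (MaxF0 B a ω + MaxF S B a n (S ω)) := hω
      show max 0 (MaxF0 B a ω + MaxF S B a n (S ω)) = _
      rcases le_total (MaxF0 B a ω + MaxF S B a n (S ω)) 0 with h4 | h4
      · rw [max_eq_left h4] at h3
        exact absurd h3 (lt_irrefl _)
      · exact max_eq_right h4
    have e3 : ∫ ω in E, (MaxF0 B a ω + MaxF S B a n (S ω)) ∂P =
        ∫ ω in E, MaxF0 B a ω ∂P + ∫ ω in E, MaxF S B a n (S ω) ∂P :=
      integral_add h0.integrableOn h2.integrableOn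
    have e4 : ∫ ω in E, MaxF S B a n (S ω) ∂P ≤ ∫ ω, MaxF S B a n (S ω) ∂P :=
      setIntegral_le_integral h2 (Eventually.of_forall fun ω => MaxF_nonneg S B a n (S ω))
    have e5 : ∫ ω, MaxF S B a n (S ω) ∂P = ∫ ω, MaxF S B a n ω ∂P := by
      have h3 : ∫ ω, MaxF S B a n ω ∂(Measure.map S P) = ∫ ω, MaxF S B a n (S ω) ∂P :=
        integral_map hS.measurable.aemeasurable (by rw [hS.map_eq]; exact hn.aestronglyMeasurable)
      rw [← h3, hS.map_eq]
    have e6 : ∫ ω, MaxF S B a n ω ∂P ≤ ∫ ω, MaxF S B a (n + 1) ω ∂P :=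
      integral_mono hn h1 (MaxF_mono S B a n)
    have e7 : 0 ≤ ∫ ω in E, MaxF0 B a ω ∂P := by linarith
    have e8 : ∫ ω in E, MaxF0 B a ω ∂P = P.real (B ∩ E) - a * P.real E := by
      unfold MaxF0
      rw [integral_sub (((integrable_const (1 : ℝ)).indicator hB).integrableOn)
        (integrable_const a).integrableOn]
      rw [integral_indicator hB, Measure.restrict_restrict hB]
      simp [mul_comm]
    rw [e8] at e7
    have e9 : a * P.real E ≤ P.real B := by
      have h3 : P.real (B ∩ E) ≤ P.real B := measureReal_mono Set.inter_subset_left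
      linarith
    rw [ENNReal.le_div_iff_mul_le (Or.inl (by simpa using ha)) (Or.inl ENNReal.ofReal_ne_top)]
    rw [← ENNReal.ofReal_toReal (measure_ne_top P E), ← ENNReal.ofReal_toReal (measure_ne_top P B),
      ← ENNReal.ofReal_mul ENNReal.toReal_nonneg]
    apply ENNReal.ofReal_le_ofReal
    rw [mul_comm]
    exact e9

open scoped Classical in
theorem maximal {Ω : Type*} [MeasurableSpace Ω] {P : Measure Ω} [IsProbabilityMeasure P]
    {S : Ω → Ω} (hS : MeasurePreserving S P P) {B : Set Ω} (hB : MeasurableSet B) {a : ℝ}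
    (ha : 0 < a) :
    P {ω | ∃ n : ℕ, 1 ≤ n ∧ a * n < ((Finset.range n).filter fun k => S^[k] ω ∈ B).card} ≤
      P B / ENNReal.ofReal a := by
  have hsub : {ω | ∃ n : ℕ, 1 ≤ n ∧ a * n < ((Finset.range n).filter fun k => S^[k] ω ∈ B).card} ⊆
      ⋃ n, {ω | 0 < MaxF S B a n ω} := by
    rintro ω ⟨n, -, hn⟩
    refine Set.mem_iUnion.2 ⟨n, ?_⟩
    have h1 := MaxF_sum S B a n ω
    have h2 : ∑ k ∈ Finset.range n, MaxF0 B a (S^[k] ω) =
        ((Finset.range n).filter fun k => S^[k] ω ∈ B).card - a * n := by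
      unfold MaxF0
      rw [Finset.sum_sub_distrib, Finset.card_filter]
      simp only [Set.indicator_apply, Finset.sum_const, Finset.card_range, nsmul_eq_mul]
      push_cast
      ring
    show 0 < MaxF S B a n ω
    rw [h2] at h1
    linarith
  refine (measure_mono hsub).trans ?_
  have hmono : Monotone (fun n => {ω | 0 < MaxF S B a n ω}) := by
    apply monotone_nat_of_le_succ
    intro n ω hω
    exact lt_of_lt_of_le hω (MaxF_mono S B a n ω)
  rw [hmono.measure_iUnion]
  exact iSup_le fun n => MaxF_set hS hB ha n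

end Frog81
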