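import Pool.Agent.H.MP_53e2a7_pr.hd.RayA

/-!
# RayB: regular sites are dense on all scales

PROOF. `M ≥ 1` a natural number with `4 ≤ κ M`, `a = κ / 8`. Almost surely `ae_ray` holds for all `v` (countably many); let `N₁` be the maximum of the
`N` for the finitely many `v ∈ box d (M + 1)` (the counts decrease in `N`, `good_mono`). Let `‖x‖` be large, `u = (M / ‖x‖) • x`, `v i = round (u i)`, so
`‖rv v - u‖ ≤ 1/2`, `v ∈ box d (M+1)`; `n = ⌊‖x‖ / M⌋₊`. Among the `k` with `(1 - κ/4) n ≤ k ≤ n` (at least `κ n / 4` of them, all in `range (n+1)`) one is not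
bad, as `κ n / 4 > a (n+1)` for `n ≥ 2`: there is a Good `g` with `‖rv g - k rv v‖ ≤ N₁`. Now
`k rv v - x = (k - ‖x‖/M) rv v + (‖x‖/M) (rv v - u)`, norm at most `(κ n / 4 + 1) (M+1) + ‖x‖ / (2 M) ≤ κ ‖x‖ / 2 + (M + 1) + κ ‖x‖ / 8`. So the
distance is at most `5/8 κ ‖x‖ + M + 1 + N₁ ≤ κ ‖x‖` for `‖x‖ ≥ N`, `N` large; `good_mono`.
-/

namespace Frog81

open MeasureTheory ProbabilityTheory Filter
open scoped ENNReal NNReal

variable {d : ℕ} [NeZero d] (ν : Measure ℕ) [IsProbabilityMeasure ν]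

omit [NeZero d] in
private theorem RayB_geo {x : Fin d → ℝ} {X Y κ : ℝ} {M n k : ℕ} {v : Site d} (hM : 1 ≤ M)
    (hκM : 4 ≤ κ * M) (hκ0 : 0 < κ) (hX : ‖x‖ = X) (hY : Y * M = X) (hY0 : 0 < Y)
    (hn : (n : ℝ) ≤ Y) (hn' : Y < n + 1) (hk : k ≤ n) (hk' : (1 - κ / 4) * n ≤ k)
    (hv : v = fun i => round (Y⁻¹ * x i)) :
    ‖(k : ℝ) • rv v - x‖ ≤ 5 / 8 * (κ * X) + (M + 1) := by
  have hM' : (1 : ℝ) ≤ M := by exact_mod_cast hM
  have e1 : ∀ i, |Y⁻¹ * x i - (v i : ℝ)| ≤ 1 / 2 := by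
    intro i
    rw [hv]
    exact abs_sub_round _
  have e2 : ∀ i, |Y⁻¹ * x i| ≤ M := by
    intro i
    have h1 : |x i| ≤ X := by
      rw [← hX]
      exact norm_le_pi_norm x i
    rw [abs_mul, abs_of_pos (inv_pos.2 hY0), inv_mul_le_iff₀ hY0, hY]
    exact h1
  have e3 : ‖rv v‖ ≤ M + 1 := by
    refine (pi_norm_le_iff_of_nonneg (by linarith)).2 fun i => ?_
    show |(v i : ℝ)| ≤ M + 1
    have h1 := abs_le.1 (e1 i)
    have h2 := abs_le.1 (e2 i)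
    exact abs_le.2 ⟨by linarith [h1.1, h1.2, h2.1, h2.2], by linarith [h1.1, h1.2, h2.1, h2.2]⟩
  have e4 : ‖rv v - Y⁻¹ • x‖ ≤ 1 / 2 := by
    refine (pi_norm_le_iff_of_nonneg (by norm_num)).2 fun i => ?_
    show |(v i : ℝ) - Y⁻¹ * x i| ≤ 1 / 2
    rw [abs_sub_comm]
    exact e1 i
  have e5 : (k : ℝ) • rv v - x = ((k : ℝ) - Y) • rv v + Y • (rv v - Y⁻¹ • x) := by
    rw [smul_sub, smul_smul, mul_inv_cancel₀ hY0.ne', one_smul, sub_smul]
    abel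
  have hkr : (k : ℝ) ≤ n := by exact_mod_cast hk
  have hn0 : (0 : ℝ) ≤ n := Nat.cast_nonneg n
  have e6 : |(k : ℝ) - Y| ≤ κ * Y / 4 + 1 := by
    have h1 : κ * n ≤ κ * Y := mul_le_mul_of_nonneg_left hn hκ0.le
    exact abs_le.2 ⟨by linarith, by nlinarith⟩
  have e7 : ‖(k : ℝ) • rv v - x‖ ≤ (κ * Y / 4 + 1) * (M + 1) + Y * (1 / 2) := by
    rw [e5]
    refine (norm_add_le _ _).trans (add_le_add ?_ ?_)
    · rw [norm_smul]
      exact mul_le_mul e6 e3 (norm_nonneg _) (by positivity)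
    · rw [norm_smul, Real.norm_eq_abs, abs_of_pos hY0]
      exact mul_le_mul_of_nonneg_left e4 hY0.le
  have e8 : κ * Y ≤ κ * X := by
    rw [← hY]
    refine mul_le_mul_of_nonneg_left ?_ hκ0.le
    nlinarith
  have e9 : 4 * Y ≤ κ * X := by
    rw [← hY]
    nlinarith
  have e10 : κ * Y * M = κ * X := by
    rw [← hY]
    ring
  nlinarith

theorem ae_dense {μ : (Fin d → ℝ) → ℝ} {κ : ℝ} (hκ0 : 0 < κ) (hκ1 : κ < 1) (hν : ν {0}ᶜ ≠ 0)
    (hg : ∀ᵐ ω ∂ envLaw d ν, ∀ x : Site d, 1 ≤ (ω x).1 → ∃ N : ℕ, Good μ κ N ω x) :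
    ∀ᵐ ω ∂ envLaw d ν, ∃ N : ℕ, Dense μ κ N ω := by
  have ha : 0 < κ / 8 := by positivity
  have hA := ae_all_iff.2 fun v : Site d => ae_ray ν hν hg v ha
  filter_upwards [hA] with ω hω
  choose Nv hNv using hω
  obtain ⟨M, hM1, hκM⟩ : ∃ M : ℕ, 1 ≤ M ∧ 4 ≤ κ * M := by
    refine ⟨⌈4 / κ⌉₊ + 1, by omega, ?_⟩
    have h1 := Nat.le_ceil (4 / κ)
    have h2 : κ * (4 / κ) = 4 := by field_simp
    push_cast
    nlinarith
  have hM' : (1 : ℝ) ≤ M := by exact_mod_cast hM1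
  obtain ⟨N₁, hN₁⟩ : ∃ N₁, N₁ = (box d (M + 1)).sup Nv := ⟨_, rfl⟩
  obtain ⟨R, hR⟩ : ∃ R : ℕ, 8 * ((M : ℝ) + 1 + N₁) / (3 * κ) ≤ R := exists_nat_ge _
  refine ⟨N₁ + 2 * M + R, fun x hx => ?_⟩
  obtain ⟨X, hX⟩ : ∃ X, ‖x‖ = X := ⟨_, rfl⟩
  rw [hX] at hx ⊢
  push_cast at hx
  have hN₁0 : (0 : ℝ) ≤ N₁ := Nat.cast_nonneg _
  have hR0 : (0 : ℝ) ≤ R := Nat.cast_nonneg _
  have hX2 : 2 * (M : ℝ) ≤ X := by linarith
  obtain ⟨Y, hYd⟩ : ∃ Y, Y = X / M := ⟨_, rfl⟩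
  have hM0 : (0 : ℝ) < M := by linarith
  have hY : Y * M = X := by
    rw [hYd]
    field_simp
  have hY2 : 2 ≤ Y := by
    rw [hYd, le_div_iff₀ hM0]
    exact hX2
  have hY0 : 0 < Y := by linarith
  have hn := Nat.floor_le hY0.le
  have hn' := Nat.lt_floor_add_one Y
  have hn2 : 2 ≤ ⌊Y⌋₊ := Nat.le_floor (by exact_mod_cast hY2)
  generalize ⌊Y⌋₊ = n at hn hn' hn2
  have hn2' : (2 : ℝ) ≤ n := by exact_mod_cast hn2
  obtain ⟨v, hv⟩ : ∃ v : Site d, v = fun i => round (Y⁻¹ * x i) := ⟨_, rfl⟩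
  have hvb : v ∈ box d (M + 1) := by
    unfold box
    refine Fintype.mem_piFinset.2 fun i => Finset.mem_Icc.2 ?_
    have e1 : |Y⁻¹ * x i - (v i : ℝ)| ≤ 1 / 2 := by
      rw [hv]
      exact abs_sub_round _
    have e2 : |Y⁻¹ * x i| ≤ M := by
      have h1 : |x i| ≤ X := by
        rw [← hX]
        exact norm_le_pi_norm x i
      rw [abs_mul, abs_of_pos (inv_pos.2 hY0), inv_mul_le_iff₀ hY0, hY]
      exact h1
    have h1 := abs_le.1 e1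
    have h2 := abs_le.1 e2
    constructor
    · have h3 : (-((M + 1 : ℕ) : ℤ) : ℝ) ≤ (v i : ℝ) := by
        push_cast
        linarith [h1.1, h1.2, h2.1, h2.2]
      exact_mod_cast h3
    · have h3 : (v i : ℝ) ≤ ((M + 1 : ℕ) : ℤ) := by
        push_cast
        linarith [h1.1, h1.2, h2.1, h2.2]
      exact_mod_cast h3
  have hNvle : Nv v ≤ N₁ := by
    rw [hN₁]
    exact Finset.le_sup hvb
  have hK := Nat.le_ceil ((1 - κ / 4) * (n : ℝ))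
  have hpos : 0 ≤ (1 - κ / 4) * (n : ℝ) := mul_nonneg (by linarith) (by linarith)
  have hK' := Nat.ceil_lt_add_one hpos
  generalize ⌈(1 - κ / 4) * (n : ℝ)⌉₊ = K₀ at hK hK'
  obtain ⟨k, hk, g, hg1, hg2⟩ : ∃ k ∈ Finset.Icc K₀ n, ∃ g, Good μ κ (Nv v) ω g ∧
      ‖rv g - (k : ℝ) • rv v‖ ≤ Nv v := by
    classical
    by_contra hcon
    have hc := hNv v (n + 1) (Nat.succ_le_succ (Nat.zero_le n))
    have h1 : ((Finset.Icc K₀ n).card : ℝ) ≤ κ / 8 * ((n + 1 : ℕ) : ℝ) := by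
      refine hc.trans' ?_
      refine Nat.cast_le.2 ?_
      have hb : ∀ k ∈ Finset.Icc K₀ n, k ∈ Finset.range (n + 1) ∧
          ¬ ∃ g, Good μ κ (Nv v) ω g ∧ ‖rv g - (k : ℝ) • rv v‖ ≤ Nv v := fun k hk =>
        ⟨Finset.mem_range.2 (Nat.lt_succ_of_le (Finset.mem_Icc.1 hk).2),
          fun h => hcon ⟨k, hk, h⟩⟩
      first
      | exact Finset.card_le_card fun k hk => Finset.mem_filter.2 (hb k hk)
      | refine Finset.card_le_card_of_injOn (fun k : ℕ => (k : ℝ)) (fun k hk => ?_)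
          (fun a _ b _ h => Nat.cast_injective h)
        have h5 := (hb k hk).1
        have h6 := (hb k hk).2
        rw [Finset.mem_coe, Finset.mem_filter]
        refine ⟨?_, h6⟩
        simp only [Finset.bind_def, Finset.pure_def, Finset.mem_sup, Finset.mem_singleton]
        exact ⟨k, h5, rfl⟩
    have h2 : (n : ℝ) + 1 - K₀ ≤ ((Finset.Icc K₀ n).card : ℝ) := by
      rw [Nat.card_Icc]
      have h3 : n + 1 ≤ (n + 1 - K₀) + K₀ := by omega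
      have h4 : ((n + 1 : ℕ) : ℝ) ≤ ((n + 1 - K₀ + K₀ : ℕ) : ℝ) := by exact_mod_cast h3
      push_cast at h4
      linarith
    push_cast at h1
    nlinarith
  have hkI := Finset.mem_Icc.1 hk
  have hkK : (K₀ : ℝ) ≤ (k : ℝ) := Nat.cast_le.2 hkI.1
  have hgeo : ‖(k : ℝ) • rv v - x‖ ≤ 5 / 8 * (κ * X) + (M + 1) :=
    RayB_geo (x := x) (X := X) (Y := Y) (κ := κ) (M := M) (n := n) (k := k) (v := v)
      hM1 hκM hκ0 hX hY hY0 hn hn' hkI.2 (le_trans hK hkK) hv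
  refine ⟨g, good_mono (by omega) hg1, ?_⟩
  have h1 : rv g - x = (rv g - (k : ℝ) • rv v) + ((k : ℝ) • rv v - x) := by abel
  rw [h1]
  refine (norm_add_le _ _).trans ?_
  have h2 : (Nv v : ℝ) ≤ N₁ := by exact_mod_cast hNvle
  have h3 : 8 * ((M : ℝ) + 1 + N₁) ≤ X * (3 * κ) := by
    rw [div_le_iff₀ (by positivity)] at hR
    refine hR.trans (mul_le_mul_of_nonneg_right ?_ (by positivity))
    linarith
  linarith

end Frog81
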