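import Pool.Agent.H.MP_53e2a7_pr.h81.Comp
import Pool.Agent.H.MP_53e2a7_pr.hd.Defs

/-!
# Slo: the start of type two; the origin is occupied

PROOF of exists_slow: if `(ω z).1 = 0` then `T ω z y = ⊤` (`T_eq_top`), any `N₀ ≥ ‖rv z‖`. Otherwise `Good μ κ N ω z` and
`(1-κ) μ y ≤ (1-κ) (μ (y - z) + μ z)`; `N₀` at least `N + C ‖rv z‖` and `‖rv z‖`.
PROOF of occ_zero: suppose `(ω 0).1 = 0`. By `parent_induction` (Comp) with `p y := θ y = one → y = 0`: a type one site `y ≠ 0`, `t y ≠ ⊤` has a parent `x` of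
type one, so `x = 0`, `t y = t 0 + travel ω 0 y / 1 = ⊤` (`travel_eq_top`). So the filtered box of PosDensity is empty (`y = 0` has `(ω 0).1 = 0`), but
`a * card (box d n) > 0` (`0 ∈ box d n`).
-/

namespace Frog81

open MeasureTheory ProbabilityTheory Filter
open scoped ENNReal NNReal

theorem exists_slow {d : ℕ} {μ : (Fin d → ℝ) → ℝ} {c C κ : ℝ} (hμ : IsGauge μ c C) (hκ0 : 0 < κ)
    (hκ1 : κ < 1) {ω : Env d} {z : Site d} (hz : 1 ≤ (ω z).1 → ∃ N : ℕ, Good μ κ N ω z) :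
    ∃ N₀ : ℕ, Slow μ κ N₀ ω z := by
  rcases Nat.eq_zero_or_pos (ω z).1 with h0 | h0
  · refine ⟨⌈‖rv z‖⌉₊, Nat.le_ceil _, fun y _ => ?_⟩
    rw [T_eq_top ω z y h0]
    exact le_top
  · obtain ⟨N, -, hN⟩ := hz h0
    have hC : 0 ≤ C * ‖rv z‖ := mul_nonneg hμ.C_pos.le (norm_nonneg _)
    refine ⟨⌈‖rv z‖⌉₊ + (N + ⌈C * ‖rv z‖⌉₊), ?_, fun y _ => ?_⟩
    · have h1 : ‖rv z‖ ≤ (⌈‖rv z‖⌉₊ : ℝ) := Nat.le_ceil _
      have h2 : (0 : ℝ) ≤ ((N + ⌈C * ‖rv z‖⌉₊ : ℕ) : ℝ) := Nat.cast_nonneg _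
      push_cast at h2 ⊢
      linarith
    · refine le_trans (ENNReal.ofReal_le_ofReal ?_) (hN y).2
      have h1 : μ (rv y) ≤ μ (rv y - rv z) + μ (rv z) := by
        have h2 := hμ.add (rv y - rv z) (rv z)
        rwa [sub_add_cancel] at h2
      have h3 : μ (rv z) ≤ C * ‖rv z‖ := hμ.up _
      have h4 : (1 - κ) * μ (rv y) ≤ (1 - κ) * (μ (rv y - rv z) + C * ‖rv z‖) :=
        mul_le_mul_of_nonneg_left (by linarith) (by linarith)
      have h5 : κ * (C * ‖rv z‖) ≥ 0 := mul_nonneg hκ0.le hC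
      have h6 : C * ‖rv z‖ ≤ (⌈C * ‖rv z‖⌉₊ : ℝ) := Nat.le_ceil _
      have h7 : (0 : ℝ) ≤ (⌈‖rv z‖⌉₊ : ℝ) := Nat.cast_nonneg _
      push_cast
      nlinarith

theorem occ_zero {d : ℕ} {β : ℝ} {z : Site d} {ω : Env d} {t : Site d → ℝ≥0∞} {θ : Site d → Kind}
    (hreg : Regular ω) (hβ0 : 0 < β) (h : IsTwoType β z ω t θ)
    (hp : PosDensity ω t θ Kind.one) : 1 ≤ (ω 0).1 := by
  by_contra hcon
  have h0 : (ω 0).1 = 0 := by omega
  have key : ∀ y, t y ≠ ⊤ → θ y = Kind.one → y = 0 := by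
    intro y hy
    refine parent_induction hreg h (fun y => θ y = Kind.one → y = 0) ?_ y hy
    intro y hty ih hθy
    by_contra hy0
    have hyz : y ≠ z := by
      rintro rfl
      rw [h.kind_start] at hθy
      exact absurd hθy (by decide)
    obtain ⟨x, hxy, hθ, he⟩ := h.parent y hy0 hyz hty
    have hx := ih x (time_lt hreg hβ0 h x y hxy hty he) (hθ.trans hθy)
    rw [hx, h.kind_zero, h.time_zero, travel_eq_top ω 0 y h0] at he
    apply hty
    rw [he]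
    simp [rate]
  obtain ⟨a, ha, hev⟩ := hp
  obtain ⟨n, hn⟩ := hev.exists
  have hbox : 0 < (box d n).card := by
    refine Finset.card_pos.2 ⟨0, ?_⟩
    unfold box
    rw [Fintype.mem_piFinset]
    intro i
    rw [Finset.mem_Icc]
    constructor
    · simp
    · simp
  have hempty : ((box d n).filter fun y => θ y = Kind.one ∧ t y ≠ ⊤ ∧ 1 ≤ (ω y).1) = ∅ := by
    rw [Finset.filter_eq_empty_iff]
    rintro y _ ⟨h1, h2, h3⟩
    rw [key y h2 h1] at h3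
    omega
  rw [hempty, Finset.card_empty, Nat.cast_zero] at hn
  have h1 : 0 < a * ((box d n).card : ℝ) := mul_pos ha (by exact_mod_cast hbox)
  linarith

end Frog81
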