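import Pool.Agent.H.MP_53e2a7_pr.hd.Defs

/-!
# SpA: a step of the spiral is allowed

PROOF. `x' = (1+h)(x+v)`, `‖v‖ ≤ s ‖x‖`. `μ ((1+h) x) ≤ μ x' + μ ((1+h) (-v)) ≤ μ x' + 2 C ‖v‖`, so `μ x' ≥ (1+h) μ x - 2 C ‖v‖`;
`x' - x = h x + (1+h) v`, `μ (x'-x) ≤ h μ x + 2 C ‖v‖`, `‖x'-x‖ ≤ h ‖x‖ + 2 s ‖x‖ ≤ 3 h ‖x‖`. Then
`ρ (μ x' - μ x) - (1+κ) μ (x'-x) ≥ (ρ - 1 - κ) h μ x - (ρ + 2) 2 C s ‖x‖ ≥ δ h c ‖x‖ - δ h c ‖x‖ / 2`. Also `μ x' - μ x ≥ h c ‖x‖ - 2 C s ‖x‖ ≥ 0`.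
-/

namespace Frog81

open MeasureTheory ProbabilityTheory Filter
open scoped ENNReal NNReal

theorem sstep_ok {d : ℕ} {μ : (Fin d → ℝ) → ℝ} {c C ρ κ δ h s : ℝ} (hμ : IsGauge μ c C)
    (hκ0 : 0 < κ) (hκ1 : κ ≤ 1 / 2) (hδ : 0 < δ) (hδ1 : δ ≤ 1) (hρ : 1 + κ + δ ≤ ρ) (hh0 : 0 < h)
    (hh1 : h ≤ 1) (hs0 : 0 < s) (hs1 : s ≤ h) (hs : s * (4 * C * (ρ + 2)) ≤ δ * h * c)
    {x x' : Fin d → ℝ} (hx : SStep h s x x') :
    ‖x' - x‖ ≤ 3 * h * ‖x‖ ∧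
      (1 + κ) * μ (x' - x) + δ * h * c / 2 * ‖x‖ ≤ ρ * (μ x' - μ x) ∧ μ x ≤ μ x' := by
  obtain ⟨v, hv, rfl⟩ := hx
  have hC := hμ.C_pos
  have hc := hμ.c_pos
  have hX : 0 ≤ ‖x‖ := norm_nonneg x
  have hV : 0 ≤ ‖v‖ := norm_nonneg v
  have hCV : 0 ≤ C * ‖v‖ := mul_nonneg hC.le hV
  have hCV2 : C * ‖v‖ ≤ C * (s * ‖x‖) := mul_le_mul_of_nonneg_left hv hC.le
  -- the lower bound
  have h1 : (1 + h) * μ x ≤ μ ((1 + h) • (x + v)) + 2 * (C * ‖v‖) := by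
    have e1 : (1 + h) • x = (1 + h) • (x + v) + (1 + h) • (-v) := by
      rw [← smul_add, add_neg_cancel_right]
    have e2 : μ ((1 + h) • x) = (1 + h) * μ x := hμ.smul _ _ (by linarith)
    have e3 : μ ((1 + h) • (-v)) = (1 + h) * μ (-v) := hμ.smul _ _ (by linarith)
    have e4 : μ (-v) ≤ C * ‖v‖ := by
      have := hμ.up (-v)
      rwa [norm_neg] at this
    have e5 := hμ.add ((1 + h) • (x + v)) ((1 + h) • (-v))
    rw [← e1, e2, e3] at e5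
    have e6 : (1 + h) * μ (-v) ≤ (1 + h) * (C * ‖v‖) :=
      mul_le_mul_of_nonneg_left e4 (by linarith)
    have e7 : (1 + h) * (C * ‖v‖) ≤ 2 * (C * ‖v‖) :=
      mul_le_mul_of_nonneg_right (by linarith) hCV
    linarith
  -- the difference
  have ed : (1 + h) • (x + v) - x = h • x + (1 + h) • v := by
    rw [smul_add, add_smul, one_smul]
    abel
  have h2 : μ ((1 + h) • (x + v) - x) ≤ h * μ x + 2 * (C * ‖v‖) := by
    rw [ed]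
    have e5 := hμ.add (h • x) ((1 + h) • v)
    rw [hμ.smul h x hh0.le, hμ.smul (1 + h) v (by linarith)] at e5
    have e6 : (1 + h) * μ v ≤ (1 + h) * (C * ‖v‖) :=
      mul_le_mul_of_nonneg_left (hμ.up v) (by linarith)
    have e7 : (1 + h) * (C * ‖v‖) ≤ 2 * (C * ‖v‖) :=
      mul_le_mul_of_nonneg_right (by linarith) hCV
    linarith
  have h3 : ‖(1 + h) • (x + v) - x‖ ≤ 3 * h * ‖x‖ := by
    rw [ed]
    have e1 : ‖h • x + (1 + h) • v‖ ≤ h * ‖x‖ + (1 + h) * ‖v‖ := by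
      refine (norm_add_le _ _).trans ?_
      rw [norm_smul, norm_smul, Real.norm_of_nonneg hh0.le,
        Real.norm_of_nonneg (show (0 : ℝ) ≤ 1 + h by linarith)]
    have e2 : (1 + h) * ‖v‖ ≤ 2 * (h * ‖x‖) := by
      have e3 : ‖v‖ ≤ h * ‖x‖ := hv.trans (mul_le_mul_of_nonneg_right hs1 hX)
      have e4 : (1 + h) * ‖v‖ ≤ 2 * ‖v‖ := mul_le_mul_of_nonneg_right (by linarith) hV
      linarith
    linarith
  have hlow : c * ‖x‖ ≤ μ x := hμ.low x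
  have hρ0 : 0 < ρ := by linarith
  have hsC : s * (4 * C * (ρ + 2)) * ‖x‖ ≤ δ * h * c * ‖x‖ := mul_le_mul_of_nonneg_right hs hX
  have hCs : 0 ≤ C * (s * ‖x‖) := by positivity
  refine ⟨h3, ?_, ?_⟩
  · have a1 : ρ * (h * μ x - 2 * (C * ‖v‖)) ≤ ρ * (μ ((1 + h) • (x + v)) - μ x) :=
      mul_le_mul_of_nonneg_left (by linarith) hρ0.le
    have a2 : (1 + κ) * μ ((1 + h) • (x + v) - x) ≤ (1 + κ) * (h * μ x + 2 * (C * ‖v‖)) :=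
      mul_le_mul_of_nonneg_left h2 (by linarith)
    have a3 : δ * (h * (c * ‖x‖)) ≤ (ρ - 1 - κ) * (h * μ x) := by
      have b1 : h * (c * ‖x‖) ≤ h * μ x := mul_le_mul_of_nonneg_left hlow hh0.le
      have b2 : 0 ≤ h * (c * ‖x‖) := by positivity
      calc δ * (h * (c * ‖x‖)) ≤ (ρ - 1 - κ) * (h * (c * ‖x‖)) :=
            mul_le_mul_of_nonneg_right (by linarith) b2
        _ ≤ (ρ - 1 - κ) * (h * μ x) := mul_le_mul_of_nonneg_left b1 (by linarith)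
    have a4 : (ρ + 1 + κ) * (2 * (C * ‖v‖)) ≤ (ρ + 2) * (2 * (C * (s * ‖x‖))) := by
      calc (ρ + 1 + κ) * (2 * (C * ‖v‖)) ≤ (ρ + 2) * (2 * (C * ‖v‖)) :=
            mul_le_mul_of_nonneg_right (by linarith) (by linarith)
        _ ≤ (ρ + 2) * (2 * (C * (s * ‖x‖))) :=
            mul_le_mul_of_nonneg_left (by linarith) (by linarith)
    have a5 : (ρ + 2) * (2 * (C * (s * ‖x‖))) = s * (4 * C * (ρ + 2)) * ‖x‖ / 2 := by ring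
    have a6 : δ * (h * (c * ‖x‖)) = δ * h * c * ‖x‖ := by ring
    have a7 : δ * h * c / 2 * ‖x‖ = δ * h * c * ‖x‖ / 2 := by ring
    rw [a5] at a4
    rw [a6] at a3
    rw [a7]
    nlinarith
  · have b1 : h * (c * ‖x‖) ≤ h * μ x := mul_le_mul_of_nonneg_left hlow hh0.le
    have b2 : s * (4 * C * (ρ + 2)) * ‖x‖ = 4 * (ρ + 2) * (C * (s * ‖x‖)) := by ring
    have b3 : 2 * (C * (s * ‖x‖)) ≤ 4 * (ρ + 2) * (C * (s * ‖x‖)) :=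
      mul_le_mul_of_nonneg_right (by linarith) hCs
    have b4 : δ * h * c * ‖x‖ ≤ h * (c * ‖x‖) := by
      have b5 : 0 ≤ h * (c * ‖x‖) := by positivity
      have b6 : δ * h * c * ‖x‖ = δ * (h * (c * ‖x‖)) := by ring
      rw [b6]
      exact mul_le_of_le_one_left b5 hδ1
    linarith

end Frog81
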