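import Pool.Agent.H.MP_53e2a7_pr.hd.SpD

/-!
# SpB: every far point is reached by the spiral

PROOF. `K₀` from `exists_path_q`, `Λ = (1+h)^K₀`. For `Λ ‖x‖ ≤ ‖y‖` take `K` with `(1+h)^K ≤ ‖y‖ / ‖x‖ < (1+h)^(K+1)`
(`exists_nat_pow_near`); `K₀ ≤ K` (otherwise `(1+h)^(K+1) ≤ Λ`). Let `y' = (1+h)^(-K) y`, `‖x‖ ≤ ‖y'‖ ≤ (1+h) ‖x‖ ≤ 2 ‖x‖`, `q` the path from `x` to `y'`, and
`x_k = (1+h)^k q k`. `SStep h s x_k x_(k+1)` with `v = (1+h)^k (q (k+1) - q k)`. Induction on `k ≤ K`: `ReflTransGen (SStep h s) x x_k`; `x_K = y`.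
-/

namespace Frog81

open MeasureTheory ProbabilityTheory Filter
open scoped ENNReal NNReal

theorem spiral_reach {d : ℕ} (hd : 2 ≤ d) {h s : ℝ} (hh0 : 0 < h) (hh1 : h ≤ 1) (hs : 0 < s) :
    ∃ Λ : ℝ, 0 < Λ ∧ ∀ x y : Fin d → ℝ, x ≠ 0 → Λ * ‖x‖ ≤ ‖y‖ →
      Relation.ReflTransGen (SStep h s) x y := by
  obtain ⟨K₀, hK₀⟩ := exists_path_q hd hs
  have h1h : (1 : ℝ) < 1 + h := by linarith
  have h0h : (0 : ℝ) < 1 + h := by linarith
  refine ⟨(1 + h) ^ K₀, by positivity, fun x y hx hxy => ?_⟩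
  have hx0 : 0 < ‖x‖ := norm_pos_iff.mpr hx
  have hρ : (1 + h) ^ K₀ ≤ ‖y‖ / ‖x‖ := by
    rw [le_div_iff₀ hx0]
    exact hxy
  have hρ1 : 1 ≤ ‖y‖ / ‖x‖ := (one_le_pow₀ h1h.le).trans hρ
  obtain ⟨K, hK1, hK2⟩ := exists_nat_pow_near hρ1 h1h
  have hKK : K₀ ≤ K := by
    by_contra hcon
    have h1 : K + 1 ≤ K₀ := by omega
    have h2 : (1 + h) ^ (K + 1) ≤ (1 + h) ^ K₀ := pow_le_pow_right₀ h1h.le h1
    linarith
  have hP : (0 : ℝ) < (1 + h) ^ K := by positivity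
  set y' : Fin d → ℝ := ((1 + h) ^ K)⁻¹ • y with hy'
  have hny : ‖y'‖ = ((1 + h) ^ K)⁻¹ * ‖y‖ := by
    rw [hy', norm_smul, Real.norm_eq_abs, abs_of_pos (inv_pos.mpr hP)]
  have h1 : ‖x‖ ≤ ‖y'‖ := by
    rw [hny, le_inv_mul_iff₀ hP]
    rw [le_div_iff₀ hx0] at hK1
    exact hK1
  have h2 : ‖y'‖ ≤ 2 * ‖x‖ := by
    rw [hny, inv_mul_le_iff₀ hP]
    rw [div_lt_iff₀ hx0, pow_succ] at hK2
    have h3 : (1 + h) ^ K * (1 + h) * ‖x‖ ≤ (1 + h) ^ K * (2 * ‖x‖) := by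
      rw [mul_assoc]
      refine mul_le_mul_of_nonneg_left ?_ hP.le
      exact mul_le_mul_of_nonneg_right (by linarith) hx0.le
    linarith
  obtain ⟨q, hq0, hqK, hq⟩ := hK₀ K hKK x y' hx h1 h2
  have hstep : ∀ k, k < K → SStep h s ((1 + h) ^ k • q k) ((1 + h) ^ (k + 1) • q (k + 1)) := by
    intro k hk
    have hPk : (0 : ℝ) < (1 + h) ^ k := by positivity
    refine ⟨(1 + h) ^ k • (q (k + 1) - q k), ?_, ?_⟩
    · rw [norm_smul, norm_smul, Real.norm_eq_abs, abs_of_pos hPk]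
      calc (1 + h) ^ k * ‖q (k + 1) - q k‖ ≤ (1 + h) ^ k * (s * ‖q k‖) :=
            mul_le_mul_of_nonneg_left (hq k hk) hPk.le
        _ = s * ((1 + h) ^ k * ‖q k‖) := by ring
    · rw [← smul_add, add_sub_cancel, smul_smul, pow_succ']
  have hreach : ∀ k, k ≤ K → Relation.ReflTransGen (SStep h s) x ((1 + h) ^ k • q k) := by
    intro k
    induction k with
    | zero =>
      intro _
      rw [pow_zero, one_smul, hq0]
    | succ k ih =>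
      intro hk
      exact (ih (by omega)).tail (hstep k (by omega))
  have hfin := hreach K le_rfl
  rw [hqK, hy', smul_smul, mul_inv_cancel₀ hP.ne', one_smul] at hfin
  exact hfin

end Frog81
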