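import Pool.Agent.H.MP_53e2a7_pr.hd.StA

/-!
# StC: the start of the takeover

PROOF. `step_one` with `ρ₀` in place of `ρ` (`η ≤ 1 - κ - β ρ ≤ 1 - κ - β ρ₀`): for `‖y - g‖ ≤ κ ‖g‖ ≤ b ‖g‖`, `θ y = one` and
`t y ≤ ρ₀ μ g + (1+κ) μ (y-g) + N + 1 ≤ ρ₀ μ g + 2 C κ ‖g‖ + N + 1`; and `ρ μ y ≥ ρ (μ g - C κ ‖g‖)` (`μ g ≤ μ y + μ (g-y)`), `μ g ≥ c ‖g‖`; it remains
`(2 + ρ) C κ ‖g‖ + N + 1 ≤ (ρ - ρ₀) c ‖g‖`.
-/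

namespace Frog81

open MeasureTheory ProbabilityTheory Filter
open scoped ENNReal NNReal

theorem won_start {d : ℕ} {μ : (Fin d → ℝ) → ℝ} {c C β ρ ρ₀ κ η b : ℝ} (hμ : IsGauge μ c C)
    (hβ0 : 0 < β) (hβ1 : β ≤ 1) (hρ₀ : 0 < ρ₀) (hρ : ρ₀ < ρ) (hκ0 : 0 < κ) (hκ1 : κ ≤ 1 / 2)
    (hη : 0 < η) (hη1 : η ≤ 1 - κ - β * ρ) (hb0 : 0 < b)
    (hb : (4 * C ^ 2 / c + 2 * C) * b ≤ η * c / 2) (hκb : κ ≤ b)
    (hκρ : (2 + ρ) * C * κ ≤ (ρ - ρ₀) * c / 2)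
    (N N₀ : ℕ) : ∃ R : ℝ, ∀ (ω : Env d) (z : Site d) (t : Site d → ℝ≥0∞) (θ : Site d → Kind),
      Regular ω → IsTwoType β z ω t θ → Slow μ κ N₀ ω z → ∀ g : Site d, Good μ κ N ω g →
        R ≤ ‖rv g‖ → θ g = Kind.one → t g ≤ ENNReal.ofReal (ρ₀ * μ (rv g)) →
          Won μ κ ρ t θ (rv g) := by
  have hc := hμ.c_pos
  have hC := hμ.C_pos
  have hd : 0 < (ρ - ρ₀) * c / 2 := by
    have : 0 < (ρ - ρ₀) * c := mul_pos (by linarith) hc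
    linarith
  have hη2 : η ≤ 1 - κ - β * ρ₀ := by
    have : β * ρ₀ ≤ β * ρ := mul_le_mul_of_nonneg_left hρ.le hβ0.le
    linarith
  obtain ⟨R1, hR1⟩ := step_one hμ hβ0 hβ1 hρ₀ hκ0 hκ1 hη hη2 hb0 hb N N₀
  refine ⟨max R1 (((N : ℝ) + 1) / ((ρ - ρ₀) * c / 2)), ?_⟩
  intro ω z t θ hω hT hS g hg hR hθ ht y hy
  have hy' : ‖rv y - rv g‖ ≤ b * ‖rv g‖ :=
    hy.trans (mul_le_mul_of_nonneg_right hκb (norm_nonneg _))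
  obtain ⟨h1, h2⟩ := hR1 ω z t θ hω hT hS g hg (le_trans (le_max_left _ _) hR) hθ ht y hy'
  refine ⟨h1, h2.trans (ENNReal.ofReal_le_ofReal ?_)⟩
  have hR2 : (N : ℝ) + 1 ≤ (ρ - ρ₀) * c / 2 * ‖rv g‖ := by
    have := le_trans (le_max_right _ _) hR
    rw [div_le_iff₀ hd] at this
    linarith
  have h3 : μ (rv y - rv g) ≤ C * (κ * ‖rv g‖) :=
    (hμ.up _).trans (mul_le_mul_of_nonneg_left hy hC.le)
  have h4 : μ (rv g - rv y) ≤ C * (κ * ‖rv g‖) := by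
    refine (hμ.up _).trans (mul_le_mul_of_nonneg_left ?_ hC.le)
    rw [norm_sub_rev]
    exact hy
  have h5 : μ (rv g) ≤ μ (rv y) + μ (rv g - rv y) := by
    have := hμ.add (rv y) (rv g - rv y)
    rwa [add_sub_cancel] at this
  have h6 : c * ‖rv g‖ ≤ μ (rv g) := hμ.low _
  have h7 : 0 ≤ μ (rv y - rv g) := le_trans (mul_nonneg hc.le (norm_nonneg _)) (hμ.low _)
  have h8 : (1 + κ) * μ (rv y - rv g) ≤ 2 * (C * (κ * ‖rv g‖)) := by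
    calc (1 + κ) * μ (rv y - rv g) ≤ 2 * μ (rv y - rv g) :=
          mul_le_mul_of_nonneg_right (by linarith) h7
      _ ≤ _ := by linarith
  have hρ0 : 0 < ρ := hρ₀.trans hρ
  have h9 : ρ * μ (rv g) ≤ ρ * μ (rv y) + ρ * (C * (κ * ‖rv g‖)) := by
    rw [← mul_add]
    exact mul_le_mul_of_nonneg_left (by linarith) hρ0.le
  have h10 : (2 + ρ) * C * κ * ‖rv g‖ ≤ (ρ - ρ₀) * c / 2 * ‖rv g‖ :=
    mul_le_mul_of_nonneg_right hκρ (norm_nonneg _)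
  have h11 : (ρ - ρ₀) * (c * ‖rv g‖) ≤ (ρ - ρ₀) * μ (rv g) :=
    mul_le_mul_of_nonneg_left h6 (by linarith)
  have h12 : (2 + ρ) * C * κ * ‖rv g‖ = 2 * (C * (κ * ‖rv g‖)) + ρ * (C * (κ * ‖rv g‖)) := by ring
  have h13 : (ρ - ρ₀) * (c * ‖rv g‖) = (ρ - ρ₀) * c / 2 * ‖rv g‖ + (ρ - ρ₀) * c / 2 * ‖rv g‖ := by
    ring
  have h14 : (ρ - ρ₀) * μ (rv g) = ρ * μ (rv g) - ρ₀ * μ (rv g) := by ring
  linarith

end Frog81
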