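import Pool.Agent.H.MP_53e2a7_pr.hd.StB
import Pool.Agent.H.MP_53e2a7_pr.hd.StC
import Pool.Agent.H.MP_53e2a7_pr.hd.SpA
import Pool.Agent.H.MP_53e2a7_pr.hd.SpB

/-!
# Take: the takeover

PROOF. Constants: `ρ = (ρ₀ + 1/β) / 2`, so `1 < ρ₀ < ρ`, `β ρ < 1`; `η = (1 - β ρ) / 2`; `b = min 1 (η c / (2 (4 C^2 / c + 2 C)))`; `h = b / 12`;
`δ = min 1 ((ρ - 1) / 2)`; `s = min h (δ h c / (4 C (ρ + 2)))`; `η' = δ h c / 2`; `b' = 3 h = b / 4`; `κ₀` the minimum of `1/2`, `(1 - β ρ)/2`, `(ρ-1)/2`,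
`b / 12`, `η' / (2 (3 ρ + 6) C)`, `(ρ - ρ₀) c / (2 (2 + ρ) C)`. Given `κ < κ₀`, `N`, `N₀` let `R₁, R₂` be from `won_step`, `won_start` and `R` at least `R₂`, `1` and
`(C / c) (|R₁| + 1)`. Start: `won_start` gives Won at `rv g`. Induction on `ReflTransGen (SStep h s) (rv g) x`: Won at `x` and `μ (rv g) ≤ μ x`
(`sstep_ok`), hence `‖x‖ ≥ μ x / C ≥ μ (rv g) / C ≥ c ‖rv g‖ / C ≥ R₁`, so `won_step` applies. By `spiral_reach` all `x` with `‖x‖ ≥ Λ ‖rv g‖` are won; with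
`x = rv y` this gives `θ y = one`. So the type two sites have `‖rv y‖ < Λ ‖rv g‖`: finitely many.
-/

namespace Frog81

open MeasureTheory ProbabilityTheory Filter
open scoped ENNReal NNReal

private theorem Take_finite {d : ℕ} (M : ℝ) : {y : Site d | ‖rv y‖ < M}.Finite := by
  have h1 : {y : Site d | ‖rv y‖ < M} ⊆
      ((Fintype.piFinset fun _ => Finset.Icc (-⌈M⌉) ⌈M⌉ : Finset (Fin d → ℤ)) : Set (Fin d → ℤ)) := by
    intro y hy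
    rw [Finset.mem_coe, Fintype.mem_piFinset]
    intro i
    have h2 : |(y i : ℝ)| < M := by
      have h3 := norm_le_pi_norm (rv y) i
      rw [Real.norm_eq_abs] at h3
      exact lt_of_le_of_lt h3 hy
    have h4 := abs_lt.1 h2
    have h5 : M ≤ (⌈M⌉ : ℝ) := Int.le_ceil M
    rw [Finset.mem_Icc]
    constructor
    · have h6 : (-(⌈M⌉ : ℝ)) ≤ (y i : ℝ) := by linarith [h4.1]
      exact_mod_cast h6
    · have h6 : (y i : ℝ) ≤ (⌈M⌉ : ℝ) := by linarith [h4.2]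
      exact_mod_cast h6
  exact (Finset.finite_toSet _).subset h1

theorem takeover {d : ℕ} (hd : 2 ≤ d) {μ : (Fin d → ℝ) → ℝ} {c C β ρ₀ : ℝ} (hμ : IsGauge μ c C)
    (hβ0 : 0 < β) (hβ1 : β < 1) (hρ1 : 1 < ρ₀) (hρ2 : β * ρ₀ < 1) : ∃ κ₀ : ℝ, 0 < κ₀ ∧
      ∀ κ : ℝ, 0 < κ → κ < κ₀ → ∀ N N₀ : ℕ, ∃ R : ℝ, ∀ (ω : Env d) (z : Site d)
        (t : Site d → ℝ≥0∞) (θ : Site d → Kind), Regular ω → IsTwoType β z ω t θ →
          Slow μ κ N₀ ω z → Dense μ κ N ω → ∀ g : Site d, Good μ κ N ω g → R ≤ ‖rv g‖ →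
            θ g = Kind.one → t g ≤ ENNReal.ofReal (ρ₀ * μ (rv g)) →
              {y | θ y = Kind.two}.Finite := by
  have hc := hμ.c_pos
  have hC := hμ.C_pos
  obtain ⟨ρ, hρ0, hρβ⟩ : ∃ ρ : ℝ, ρ₀ < ρ ∧ β * ρ < 1 := by
    refine ⟨(ρ₀ + 1 / β) / 2, ?_, ?_⟩
    · have h1 : ρ₀ < 1 / β := by
        rw [lt_div_iff₀ hβ0]
        linarith [mul_comm β ρ₀]
      linarith
    · have h1 : β * ((ρ₀ + 1 / β) / 2) = (β * ρ₀ + 1) / 2 := by
        field_simp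
      rw [h1]
      linarith
  have hρpos : 0 < ρ := by linarith
  obtain ⟨η, hη, hη1⟩ : ∃ η : ℝ, 0 < η ∧ η = (1 - β * ρ) / 2 := ⟨_, by linarith, rfl⟩
  have hD : 0 < 4 * C ^ 2 / c + 2 * C := by positivity
  obtain ⟨b, hb0, hb1, hb⟩ : ∃ b : ℝ, 0 < b ∧ b ≤ 1 ∧
      (4 * C ^ 2 / c + 2 * C) * b ≤ η * c / 2 := by
    refine ⟨min 1 (η * c / 2 / (4 * C ^ 2 / c + 2 * C)), lt_min one_pos (by positivity),
      min_le_left _ _, ?_⟩
    have h1 := min_le_right (1 : ℝ) (η * c / 2 / (4 * C ^ 2 / c + 2 * C))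
    calc (4 * C ^ 2 / c + 2 * C) * min 1 (η * c / 2 / (4 * C ^ 2 / c + 2 * C))
        ≤ (4 * C ^ 2 / c + 2 * C) * (η * c / 2 / (4 * C ^ 2 / c + 2 * C)) :=
          mul_le_mul_of_nonneg_left h1 hD.le
      _ = η * c / 2 := by field_simp
  obtain ⟨h, hh0, hh1, hhb⟩ : ∃ h : ℝ, 0 < h ∧ h ≤ 1 ∧ 3 * h = b / 4 :=
    ⟨b / 12, by positivity, by linarith, by ring⟩
  obtain ⟨δ, hδ0, hδ1, hδ2⟩ : ∃ δ : ℝ, 0 < δ ∧ δ ≤ 1 ∧ δ ≤ (ρ - 1) / 2 :=
    ⟨min 1 ((ρ - 1) / 2), lt_min one_pos (by linarith), min_le_left _ _, min_le_right _ _⟩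
  have hE : 0 < 4 * C * (ρ + 2) := by positivity
  obtain ⟨s, hs0, hs1, hs⟩ : ∃ s : ℝ, 0 < s ∧ s ≤ h ∧ s * (4 * C * (ρ + 2)) ≤ δ * h * c := by
    refine ⟨min h (δ * h * c / (4 * C * (ρ + 2))), lt_min hh0 (by positivity),
      min_le_left _ _, ?_⟩
    rw [← le_div_iff₀ hE]
    exact min_le_right _ _
  have hη' : 0 < δ * h * c / 2 := by positivity
  have hF : 0 < (3 * ρ + 6) * C := by positivity
  have hG : 0 < (2 + ρ) * C := by positivity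
  have hρc : 0 < (ρ - ρ₀) * c / 2 := by
    have : 0 < ρ - ρ₀ := by linarith
    positivity
  obtain ⟨κ₀, hκ₀, k1, k2, k3, k4, k5, k6⟩ : ∃ κ₀ : ℝ, 0 < κ₀ ∧ κ₀ ≤ 1 / 2 ∧
      κ₀ ≤ (1 - β * ρ) / 2 ∧ κ₀ ≤ (ρ - 1) / 2 ∧ κ₀ ≤ b / 12 ∧
      κ₀ ≤ (δ * h * c / 2) / 2 / ((3 * ρ + 6) * C) ∧
      κ₀ ≤ (ρ - ρ₀) * c / 2 / ((2 + ρ) * C) := by
    refine ⟨min (min (min (1 / 2) ((1 - β * ρ) / 2)) (min ((ρ - 1) / 2) (b / 12)))
      (min ((δ * h * c / 2) / 2 / ((3 * ρ + 6) * C)) ((ρ - ρ₀) * c / 2 / ((2 + ρ) * C))),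
      ?_, ?_, ?_, ?_, ?_, ?_, ?_⟩
    · refine lt_min (lt_min (lt_min (by norm_num) (by linarith)) (lt_min (by linarith)
        (by positivity))) (lt_min (by positivity) (by positivity))
    · exact (min_le_left _ _).trans ((min_le_left _ _).trans (min_le_left _ _))
    · exact (min_le_left _ _).trans ((min_le_left _ _).trans (min_le_right _ _))
    · exact (min_le_left _ _).trans ((min_le_right _ _).trans (min_le_left _ _))
    · exact (min_le_left _ _).trans ((min_le_right _ _).trans (min_le_right _ _))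
    · exact (min_le_right _ _).trans (min_le_left _ _)
    · exact (min_le_right _ _).trans (min_le_right _ _)
  refine ⟨κ₀, hκ₀, fun κ hκ0 hκ N N₀ => ?_⟩
  have hκ1 : κ ≤ 1 / 2 := by linarith
  have hηκ : η ≤ 1 - κ - β * ρ := by linarith
  have hκ5 : (3 * ρ + 6) * C * κ ≤ (δ * h * c / 2) / 2 := by
    have h1 : κ ≤ (δ * h * c / 2) / 2 / ((3 * ρ + 6) * C) := hκ.le.trans k5
    rw [le_div_iff₀ hF] at h1
    linarith
  have hκ6 : (2 + ρ) * C * κ ≤ (ρ - ρ₀) * c / 2 := by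
    have h1 : κ ≤ (ρ - ρ₀) * c / 2 / ((2 + ρ) * C) := hκ.le.trans k6
    rw [le_div_iff₀ hG] at h1
    linarith
  obtain ⟨R₁, hR₁⟩ := won_step (b' := 3 * h) (η' := δ * h * c / 2) hμ hβ0 hβ1.le hρpos hκ0 hκ1
    hη hηκ hb0 hb (by positivity) (by linarith) (by linarith) hη' hκ5 N N₀
  obtain ⟨R₂, hR₂⟩ := won_start hμ hβ0 hβ1.le (by linarith) hρ0 hκ0 hκ1 hη hηκ hb0 hb
    (by linarith) hκ6 N N₀
  obtain ⟨Λ, hΛ0, hΛ⟩ := spiral_reach hd hh0 hh1 hs0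
  refine ⟨max (max R₂ 1) (C / c * (|R₁| + 1)), ?_⟩
  intro ω z t θ hreg htt hslow hdense g hgood hR hθ ht
  have hRa : R₂ ≤ ‖rv g‖ := ((le_max_left _ _).trans (le_max_left _ _)).trans hR
  have hRb : 1 ≤ ‖rv g‖ := ((le_max_right _ _).trans (le_max_left _ _)).trans hR
  have hRc : C / c * (|R₁| + 1) ≤ ‖rv g‖ := (le_max_right _ _).trans hR
  have hRc' : C * (|R₁| + 1) ≤ c * ‖rv g‖ := by
    have h1 := mul_le_mul_of_nonneg_left hRc hc.le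
    have h2 : c * (C / c * (|R₁| + 1)) = C * (|R₁| + 1) := by
      field_simp
    linarith
  have hstart : Won μ κ ρ t θ (rv g) := hR₂ ω z t θ hreg htt hslow g hgood hRa hθ ht
  have hind : ∀ x : Fin d → ℝ, Relation.ReflTransGen (SStep h s) (rv g) x →
      Won μ κ ρ t θ x ∧ μ (rv g) ≤ μ x := by
    intro x hx
    induction hx with
    | refl => exact ⟨hstart, le_rfl⟩
    | @tail x x' _ hstep ih =>
      obtain ⟨hwon, hle⟩ := ih
      obtain ⟨g1, g2, g3⟩ := sstep_ok hμ hκ0 hκ1 hδ0 hδ1 (by linarith) hh0 hh1 hs0 hs1 hs hstep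
      have h1 : R₁ ≤ ‖x‖ := by
        have h2 := hμ.low (rv g)
        have h3 := hμ.up x
        have h4 : C * (|R₁| + 1) ≤ C * ‖x‖ := by linarith
        have h5 := le_of_mul_le_mul_left h4 hC
        linarith [le_abs_self R₁]
      exact ⟨hR₁ ω z t θ hreg htt hslow hdense x x' h1 hwon g1 g2, hle.trans g3⟩
  refine (Take_finite (Λ * ‖rv g‖)).subset ?_
  intro y hy
  by_contra hcon
  have h1 : Λ * ‖rv g‖ ≤ ‖rv y‖ := not_lt.1 hcon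
  have hx0 : rv g ≠ 0 := by
    intro h2
    rw [h2, norm_zero] at hRb
    linarith
  have h2 := (hind (rv y) (hΛ (rv g) (rv y) hx0 h1)).1 y (by
    rw [sub_self, norm_zero]
    positivity)
  have h3 : θ y = Kind.two := hy
  rw [h3] at h2
  exact absurd h2.1 (by decide)

end Frog81
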