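import Pool.Agent.H.MP_53e2a7_pr.h81.Reg
import Pool.Agent.H.MP_53e2a7_pr.hd.Gau
import Pool.Agent.H.MP_53e2a7_pr.hd.Cpl
import Pool.Agent.H.MP_53e2a7_pr.hd.Take
import Pool.Agent.H.MP_53e2a7_pr.hd.RayB
import Pool.Agent.H.MP_53e2a7_pr.hd.Dens
import Pool.Agent.H.MP_53e2a7_pr.hd.Slo
import Pool.Agent.H.MP_53e2a7_pr.hd.Far

/-!
# Pair: two values of beta in one environment

PROOF. `exists_gauge`; `ρ₀ = (1/β' + 1/β) / 2`, so `1 < 1/β' < ρ₀ < 1/β`; `κ₀` from `takeover`; `κ` smaller than `κ₀`, `1/2` and with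
`(1 + κ) / β' < ρ₀`. Almost surely: `ae_regular`, all sites Good, `ae_dense` (`N₁`), `ae_bad_density`. Then `exists_slow` (`N₀`), `occ_zero`, Good at `0` (`N₂`),
`far_good` for `t'`, `θ'` (`N₃`); `N = max N₁ N₃`, `R` from `takeover`. Take `g` with `‖rv g‖` at least `R` and so large that
`((1+κ) μ g + N₂) / β' ≤ ρ₀ μ g` (`μ g ≥ c ‖rv g‖`). `coupling`: `θ g = one`, `t g ≤ t' g ≤ T ω 0 g / β' ≤ ρ₀ μ g` (`one_fast`). `takeover`: only finitely many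
type two sites, contradicting Activates. (`rv g - rv 0 = rv g`.)
-/

namespace Frog81

open MeasureTheory ProbabilityTheory Filter
open scoped ENNReal NNReal

theorem pair_null {d : ℕ} [NeZero d] (hd : 2 ≤ d) (ν : Measure ℕ) [IsProbabilityMeasure ν]
    (h : HasBoundedShape d ν) {β β' : ℝ} (hβ0 : 0 < β) (hββ : β < β') (hβ1 : β' < 1)
    (z : Site d) : ∀ᵐ ω ∂ envLaw d ν, ∀ t θ t' θ', IsTwoType β z ω t θ →
      IsTwoType β' z ω t' θ' → Activates ω t θ Kind.two → PosDensity ω t' θ' Kind.one → False := by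
  have hβ'0 : 0 < β' := hβ0.trans hββ
  have hβ1' : β < 1 := hββ.trans hβ1
  obtain ⟨μ, c, C, hμ, hgood⟩ := exists_gauge ν h
  obtain ⟨ρ₀, hρ⟩ : ∃ ρ₀ : ℝ, ρ₀ = (1 / β' + 1 / β) / 2 := ⟨_, rfl⟩
  have hi1 : 1 < 1 / β' := by
    rw [lt_div_iff₀ hβ'0, one_mul]
    exact hβ1
  have hi2 : 1 / β' < 1 / β := one_div_lt_one_div_of_lt hβ0 hββ
  have hρ3 : 1 / β' < ρ₀ := by
    rw [hρ]
    linarith
  have hρ1 : 1 < ρ₀ := hi1.trans hρ3
  have hρ2 : β * ρ₀ < 1 := by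
    have h1 : ρ₀ < 1 / β := by
      rw [hρ]
      linarith
    have h2 := (lt_div_iff₀ hβ0).1 h1
    linarith
  have hρ4 : 1 < ρ₀ * β' := (div_lt_iff₀ hβ'0).1 hρ3
  obtain ⟨κ₀, hκ₀, htake⟩ := takeover hd hμ hβ0 hβ1' hρ1 hρ2
  obtain ⟨κ, hκ⟩ : ∃ κ : ℝ, κ = min (κ₀ / 2) (min (1 / 4) ((ρ₀ * β' - 1) / 2)) := ⟨_, rfl⟩
  have hκ0 : 0 < κ := by
    rw [hκ]
    refine lt_min (by linarith) (lt_min (by norm_num) (by linarith))
  have hκa : κ < κ₀ := by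
    have h1 : κ ≤ κ₀ / 2 := by
      rw [hκ]
      exact min_le_left _ _
    linarith
  have hκb : κ < 1 := by
    have h1 : κ ≤ 1 / 4 := by
      rw [hκ]
      exact (min_le_right _ _).trans (min_le_left _ _)
    linarith
  have hκc : 1 + κ < ρ₀ * β' := by
    have h1 : κ ≤ (ρ₀ * β' - 1) / 2 := by
      rw [hκ]
      exact (min_le_right _ _).trans (min_le_right _ _)
    linarith
  have hg := hgood κ hκ0 hκb
  filter_upwards [ae_regular ν, hg, ae_dense ν hκ0 hκb h.1 hg, ae_bad_density ν hg]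
    with ω hreg hgω hdω hbω
  intro t θ t' θ' ht ht' hact hdens
  obtain ⟨N₁, hN₁⟩ := hdω
  obtain ⟨N₀, hN₀⟩ := exists_slow hμ hκ0 hκb (hgω z)
  have h0 : 1 ≤ (ω 0).1 := occ_zero hreg hβ'0 ht' hdens
  obtain ⟨N₂, hN₂⟩ := hgω 0 h0
  obtain ⟨N₃, hN₃⟩ := far_good (μ := μ) (κ := κ) hdens hbω
  obtain ⟨R, hR⟩ := htake κ hκ0 hκa (max N₁ N₃) N₀
  obtain ⟨q, hq⟩ : ∃ q : ℝ, q = c * (ρ₀ * β' - (1 + κ)) := ⟨_, rfl⟩
  have hq0 : 0 < q := by
    rw [hq]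
    exact mul_pos hμ.c_pos (by linarith)
  obtain ⟨g, hg1, hg2, hg3, hg4⟩ := hN₃ (max R (N₂ / q))
  have hgR : R ≤ ‖rv g‖ := (le_max_left _ _).trans hg4
  have hgN : (N₂ : ℝ) / q ≤ ‖rv g‖ := (le_max_right _ _).trans hg4
  obtain ⟨hc1, hc2⟩ := coupling hreg hβ0 hββ hβ1.le ht ht' g hg2 hg3
  have hrv : rv g - rv (0 : Site d) = rv g := by
    have h1 : rv (0 : Site d) = 0 := by
      funext i
      simp [rv]
    rw [h1, sub_zero]
  have hT : T ω 0 g ≤ ENNReal.ofReal ((1 + κ) * μ (rv g) + N₂) := by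
    have h1 := (hN₂.2 g).1
    rwa [hrv] at h1
  have hnum : ((1 + κ) * μ (rv g) + N₂) / β' ≤ ρ₀ * μ (rv g) := by
    rw [div_le_iff₀ hβ'0]
    have h1 := hμ.low (rv g)
    have h2 : (N₂ : ℝ) ≤ ‖rv g‖ * q := (div_le_iff₀ hq0).1 hgN
    have h3 : ‖rv g‖ * q ≤ μ (rv g) * (ρ₀ * β' - (1 + κ)) := by
      rw [hq]
      calc ‖rv g‖ * (c * (ρ₀ * β' - (1 + κ))) = (c * ‖rv g‖) * (ρ₀ * β' - (1 + κ)) := by ring
        _ ≤ μ (rv g) * (ρ₀ * β' - (1 + κ)) :=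
            mul_le_mul_of_nonneg_right h1 (by linarith)
    calc (1 + κ) * μ (rv g) + N₂ ≤ (1 + κ) * μ (rv g) + μ (rv g) * (ρ₀ * β' - (1 + κ)) := by
          linarith
      _ = ρ₀ * μ (rv g) * β' := by ring
  have htg : t g ≤ ENNReal.ofReal (ρ₀ * μ (rv g)) := by
    calc t g ≤ t' g := hc2
      _ ≤ T ω 0 g / ENNReal.ofReal β' := one_fast hβ'0 hβ1.le ht' g
      _ ≤ ENNReal.ofReal ((1 + κ) * μ (rv g) + N₂) / ENNReal.ofReal β' :=
          ENNReal.div_le_div_right hT _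
      _ = ENNReal.ofReal (((1 + κ) * μ (rv g) + N₂) / β') :=
          (ENNReal.ofReal_div_of_pos hβ'0).symm
      _ ≤ ENNReal.ofReal (ρ₀ * μ (rv g)) := ENNReal.ofReal_le_ofReal hnum
  have hfin := hR ω z t θ hreg ht hN₀ (dense_mono (le_max_left _ _) hN₁) g
    (good_mono (le_max_right _ _) hg1) hgR hc1 htg
  exact hact (hfin.subset fun y hy => hy.1)

end Frog81
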