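import Pool.Agent.H.MP_53e2a7_pr.hd.Hit
import Pool.Agent.H.MP_53e2a7_pr.hd.Max

/-!
# RayA: regular sites along a ray

PROOF. `B N` as in Hit.lean. `(shift v)^[k] ω = shift (k • v) ω`, and `(shift v)^[k] ω ∈ B N` iff there is no Good `g` in `ω` with
`‖rv g - k • rv v‖ ≤ N` (`good_shift`, `g ↦ g + k v`). `maximal` with `measurePreserving_shift` gives
`P {∃ n ≥ 1, a n < card ...} ≤ P (B N) / a`, and by `hit_tendsto` this is at most `ε` for some `N`, for every `ε`; so the event that it happens for all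
`N` is null.
-/

namespace Frog81

open MeasureTheory ProbabilityTheory Filter
open scoped ENNReal NNReal

variable {d : ℕ} [NeZero d] (ν : Measure ℕ) [IsProbabilityMeasure ν]

omit [NeZero d] in
private theorem RayA_iter (v : Site d) (k : ℕ) (ω : Env d) :
    (shift v)^[k] ω = shift (k • v) ω := by
  induction k generalizing ω with
  | zero =>
    funext x
    show ω x = ω (x + 0 • v)
    rw [zero_smul, add_zero]
  | succ k ih =>
    rw [Function.iterate_succ_apply, ih]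
    funext x
    show ω (x + k • v + v) = ω (x + (k + 1) • v)
    rw [add_assoc, ← succ_nsmul]

omit [NeZero d] in
private theorem RayA_rv (g v : Site d) (k : ℕ) : rv (g + k • v) - (k : ℝ) • rv v = rv g := by
  funext i
  simp [rv]

omit [NeZero d] in
private theorem RayA_mem (μ : (Fin d → ℝ) → ℝ) (κ : ℝ) (N : ℕ) (v : Site d) (k : ℕ)
    (ω : Env d) : (shift v)^[k] ω ∈ {ω : Env d | ¬ ∃ g, Good μ κ N ω g ∧ ‖rv g‖ ≤ N} ↔
      ¬ ∃ g, Good μ κ N ω g ∧ ‖rv g - (k : ℝ) • rv v‖ ≤ N := by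
  rw [Set.mem_ofPred_eq, RayA_iter, not_iff_not]
  constructor
  · rintro ⟨g, h1, h2⟩
    refine ⟨g + k • v, (good_shift μ κ N (k • v) g ω).1 h1, ?_⟩
    rw [RayA_rv]
    exact h2
  · rintro ⟨g, h1, h2⟩
    refine ⟨g - k • v, (good_shift μ κ N (k • v) _ ω).2 (by rw [sub_add_cancel]; exact h1), ?_⟩
    have h3 := RayA_rv (g - k • v) v k
    rw [sub_add_cancel] at h3
    rw [← h3]
    exact h2

omit [NeZero d] in
private theorem RayA_meas (μ : (Fin d → ℝ) → ℝ) (κ : ℝ) (N : ℕ) :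
    MeasurableSet {ω : Env d | ¬ ∃ g, Good μ κ N ω g ∧ ‖rv g‖ ≤ N} := by
  have h : {ω : Env d | ¬ ∃ g, Good μ κ N ω g ∧ ‖rv g‖ ≤ N} =
      (⋃ g : Site d, {ω : Env d | Good μ κ N ω g} ∩ {_ω : Env d | ‖rv g‖ ≤ N})ᶜ := by
    ext ω
    simp only [Set.mem_ofPred_eq, Set.mem_compl_iff, Set.mem_iUnion, Set.mem_inter_iff]
  rw [h]
  exact (MeasurableSet.iUnion fun g =>
    (measurableSet_good μ κ N g).inter (MeasurableSet.const _)).compl

open scoped Classical in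
theorem ae_ray {μ : (Fin d → ℝ) → ℝ} {κ : ℝ} (hν : ν {0}ᶜ ≠ 0)
    (hg : ∀ᵐ ω ∂ envLaw d ν, ∀ x : Site d, 1 ≤ (ω x).1 → ∃ N : ℕ, Good μ κ N ω x) (v : Site d)
    {a : ℝ} (ha : 0 < a) : ∀ᵐ ω ∂ envLaw d ν, ∃ N : ℕ, ∀ n : ℕ, 1 ≤ n →
      (((Finset.range n).filter fun k : ℕ => ¬ ∃ g, Good μ κ N ω g ∧
        ‖rv g - (k : ℝ) • rv v‖ ≤ N).card : ℝ) ≤ a * n := by
  set S : Set (Env d) := {ω | ¬ ∃ N : ℕ, ∀ n : ℕ, 1 ≤ n →
      (((Finset.range n).filter fun k : ℕ => ¬ ∃ g, Good μ κ N ω g ∧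
        ‖rv g - (k : ℝ) • rv v‖ ≤ N).card : ℝ) ≤ a * n} with hS
  have hzero : envLaw d ν S = 0 := by
    by_contra hne
    have ha' : ENNReal.ofReal a ≠ 0 := (ENNReal.ofReal_pos.2 ha).ne'
    have hfin : envLaw d ν S ≠ ⊤ := measure_ne_top _ _
    have hε : 0 < envLaw d ν S / 2 * ENNReal.ofReal a :=
      ENNReal.mul_pos (ENNReal.half_pos hne).ne' ha'
    obtain ⟨N, hN⟩ := hit_tendsto ν hν hg hε
    obtain ⟨B, hB⟩ : ∃ B : Set (Env d), B = {ω : Env d | ¬ ∃ g, Good μ κ N ω g ∧ ‖rv g‖ ≤ N} :=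
      ⟨_, rfl⟩
    have hBm : MeasurableSet B := by
      rw [hB]
      exact RayA_meas μ κ N
    have h1 := maximal (measurePreserving_shift ν v) hBm ha
    rw [← hB] at hN
    have h2 : S ⊆ {ω | ∃ n : ℕ, 1 ≤ n ∧ a * n < ((Finset.range n).filter fun k =>
        (shift v)^[k] ω ∈ B).card} := by
      intro ω hω
      rw [hS, Set.mem_ofPred_eq] at hω
      simp only [not_exists, not_forall, not_le] at hω
      obtain ⟨n, hn1, hn2⟩ := hω N
      refine ⟨n, hn1, hn2.trans_le ?_⟩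
      rw [Nat.cast_le]
      refine Finset.card_le_card fun k hk => ?_
      rw [Finset.mem_filter] at hk ⊢
      refine ⟨hk.1, ?_⟩
      rw [hB]
      refine (RayA_mem μ κ N v k ω).2 ?_
      rintro ⟨g, hg1⟩
      exact hk.2 g hg1
    have h4 := (measure_mono (μ := envLaw d ν) h2).trans h1
    have h5 : envLaw d ν B / ENNReal.ofReal a ≤ envLaw d ν S / 2 := by
      refine (ENNReal.div_le_div_right hN _).trans (le_of_eq ?_)
      exact ENNReal.mul_div_cancel_right ha' ENNReal.ofReal_ne_top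
    exact absurd (h4.trans h5) (not_le.2 (ENNReal.half_lt_self hne hfin))
  rw [ae_iff]
  exact hzero

end Frog81
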