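import Pool.Agent.H.MP_53e2a7_pr.hd.Defs

/-!
# SpC: two segments around the origin

PROOF of exists_corner: two half planes `{r | 0 ≤ x · r}`, `{r | 0 ≤ y · r}` of the plane of the first two coordinates meet outside 0 (all other coordinates
of `r` are 0): if `(x 0, x 1) ≠ 0` take `± (-x 1, x 0)` with the sign for which `y · r ≥ 0`; if `(x 0, x 1) = 0` and `(y 0, y 1) ≠ 0` take `(y 0, y 1)`; otherwise
`(1, 0)`; divide by the norm.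
PROOF of seg_low: with the Euclidean square `S p = ∑ i, p i ^ 2`: `S ((1-τ) u + τ r) ≥ (1-τ)^2 S u + τ^2 S r ≥ ((1-τ)^2 + τ^2) m^2 ≥ m^2 / 2`, and
`S p ≤ d ‖p‖^2`, `S u ≥ ‖u‖^2`; so `‖p‖^2 ≥ m^2 / (2 d) ≥ (m / (2 d))^2`.
-/

namespace Frog81

open MeasureTheory ProbabilityTheory Filter
open scoped ENNReal NNReal

private theorem SpC_plane (x1 x2 y1 y2 : ℝ) :
    ∃ a b : ℝ, (a ≠ 0 ∨ b ≠ 0) ∧ 0 ≤ x1 * a + x2 * b ∧ 0 ≤ y1 * a + y2 * b := by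
  by_cases hx : x1 = 0 ∧ x2 = 0
  · obtain ⟨rfl, rfl⟩ := hx
    by_cases hy : y1 = 0 ∧ y2 = 0
    · obtain ⟨rfl, rfl⟩ := hy
      exact ⟨1, 0, Or.inl one_ne_zero, by simp, by simp⟩
    · refine ⟨y1, y2, ?_, by simp, by nlinarith [mul_self_nonneg y1, mul_self_nonneg y2]⟩
      by_contra hc
      push Not at hc
      exact hy hc
  · rcases le_total 0 (y1 * (-x2) + y2 * x1) with h | h
    · refine ⟨-x2, x1, ?_, by nlinarith, h⟩
      by_contra hc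
      push Not at hc
      exact hx ⟨hc.2, neg_eq_zero.1 hc.1⟩
    · refine ⟨x2, -x1, ?_, by nlinarith, by nlinarith⟩
      by_contra hc
      push Not at hc
      exact hx ⟨neg_eq_zero.1 hc.2, hc.1⟩

private theorem SpC_sum {d : ℕ} (i0 i1 : Fin d) (x : Fin d → ℝ) (a b : ℝ) :
    ∑ i, x i * ((Pi.single i0 a + Pi.single i1 b : Fin d → ℝ) i) = x i0 * a + x i1 * b := by
  simp only [Pi.add_apply, mul_add, Finset.sum_add_distrib, Pi.single_apply, mul_ite, mul_zero,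
    Finset.sum_ite_eq', Finset.mem_univ, if_true]

theorem exists_corner {d : ℕ} (hd : 2 ≤ d) (x y : Fin d → ℝ) :
    ∃ r : Fin d → ℝ, ‖r‖ = 1 ∧ 0 ≤ ∑ i, x i * r i ∧ 0 ≤ ∑ i, y i * r i := by
  obtain ⟨i0, hi0⟩ : ∃ i : Fin d, i.val = 0 := ⟨⟨0, by omega⟩, rfl⟩
  obtain ⟨i1, hi1⟩ : ∃ i : Fin d, i.val = 1 := ⟨⟨1, by omega⟩, rfl⟩
  have hne : i0 ≠ i1 := by
    intro h
    rw [h, hi1] at hi0
    omega
  obtain ⟨a, b, hab, hx, hy⟩ := SpC_plane (x i0) (x i1) (y i0) (y i1)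
  obtain ⟨r, hr⟩ : ∃ r : Fin d → ℝ, r = Pi.single i0 a + Pi.single i1 b := ⟨_, rfl⟩
  have hr0 : r i0 = a := by
    rw [hr, Pi.add_apply, Pi.single_eq_same, Pi.single_eq_of_ne hne, add_zero]
  have hr1 : r i1 = b := by
    rw [hr, Pi.add_apply, Pi.single_eq_same, Pi.single_eq_of_ne hne.symm, zero_add]
  have hrn : r ≠ 0 := by
    intro h
    rw [h] at hr0 hr1
    rcases hab with h1 | h1
    · exact h1 hr0.symm
    · exact h1 hr1.symm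
  have hpos : 0 < ‖r‖ := norm_pos_iff.2 hrn
  have hsum : ∀ z : Fin d → ℝ, ∑ i, z i * ((‖r‖⁻¹ • r) i) = ‖r‖⁻¹ * (z i0 * a + z i1 * b) := by
    intro z
    rw [← SpC_sum i0 i1 z a b, ← hr, Finset.mul_sum]
    refine Finset.sum_congr rfl fun i _ => ?_
    rw [Pi.smul_apply, smul_eq_mul]
    ring
  refine ⟨‖r‖⁻¹ • r, ?_, ?_, ?_⟩
  · rw [norm_smul, norm_inv, norm_norm, inv_mul_cancel₀ hpos.ne']
  · rw [hsum]
    exact mul_nonneg (inv_nonneg.2 hpos.le) hx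
  · rw [hsum]
    exact mul_nonneg (inv_nonneg.2 hpos.le) hy

theorem seg_low {d : ℕ} (hd : 1 ≤ d) {u r : Fin d → ℝ} {m τ : ℝ} (hm : 0 ≤ m) (hu : m ≤ ‖u‖)
    (hr : m ≤ ‖r‖) (hur : 0 ≤ ∑ i, u i * r i) (h0 : 0 ≤ τ) (h1 : τ ≤ 1) :
    m / (2 * d) ≤ ‖(1 - τ) • u + τ • r‖ := by
  obtain ⟨p, hp⟩ : ∃ p : Fin d → ℝ, p = (1 - τ) • u + τ • r := ⟨_, rfl⟩
  rw [← hp]
  have hlow : ∀ z : Fin d → ℝ, m ≤ ‖z‖ → m ^ 2 ≤ ∑ i, z i ^ 2 := by
    intro z hz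
    have hS : 0 ≤ ∑ i, z i ^ 2 := Finset.sum_nonneg fun i _ => sq_nonneg _
    have h2 : ‖z‖ ≤ Real.sqrt (∑ i, z i ^ 2) := by
      refine (pi_norm_le_iff_of_nonneg (Real.sqrt_nonneg _)).2 fun i => ?_
      rw [Real.norm_eq_abs]
      refine Real.abs_le_sqrt ?_
      exact Finset.single_le_sum (f := fun i => z i ^ 2) (fun i _ => sq_nonneg _)
        (Finset.mem_univ i)
    have h3 : m ≤ Real.sqrt (∑ i, z i ^ 2) := hz.trans h2
    have h4 := mul_self_le_mul_self hm h3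
    rw [Real.mul_self_sqrt hS] at h4
    nlinarith
  have hup : ∑ i, p i ^ 2 ≤ d * ‖p‖ ^ 2 := by
    have h2 : ∀ i ∈ (Finset.univ : Finset (Fin d)), p i ^ 2 ≤ ‖p‖ ^ 2 := by
      intro i _
      have h3 := norm_le_pi_norm p i
      rw [Real.norm_eq_abs] at h3
      rw [← sq_abs (p i)]
      exact pow_le_pow_left₀ (abs_nonneg _) h3 2
    have h4 := Finset.sum_le_card_nsmul _ _ _ h2
    rw [Finset.card_univ, Fintype.card_fin, nsmul_eq_mul] at h4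
    exact h4
  have hS : ∑ i, p i ^ 2 = (1 - τ) ^ 2 * ∑ i, u i ^ 2 + 2 * ((1 - τ) * τ) * ∑ i, u i * r i +
      τ ^ 2 * ∑ i, r i ^ 2 := by
    rw [Finset.mul_sum, Finset.mul_sum, Finset.mul_sum, ← Finset.sum_add_distrib,
      ← Finset.sum_add_distrib]
    refine Finset.sum_congr rfl fun i _ => ?_
    rw [hp]
    simp only [Pi.add_apply, Pi.smul_apply, smul_eq_mul]
    ring
  have hU := hlow u hu
  have hR := hlow r hr
  have k1 : (1 - τ) ^ 2 * m ^ 2 ≤ (1 - τ) ^ 2 * ∑ i, u i ^ 2 :=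
    mul_le_mul_of_nonneg_left hU (sq_nonneg _)
  have k2 : τ ^ 2 * m ^ 2 ≤ τ ^ 2 * ∑ i, r i ^ 2 := mul_le_mul_of_nonneg_left hR (sq_nonneg _)
  have k3 : 0 ≤ 2 * ((1 - τ) * τ) * ∑ i, u i * r i := by
    have : 0 ≤ (1 - τ) * τ := mul_nonneg (by linarith) h0
    positivity
  have k4 : m ^ 2 ≤ 2 * ((1 - τ) ^ 2 * m ^ 2 + τ ^ 2 * m ^ 2) := by
    nlinarith [mul_nonneg (sq_nonneg (1 - 2 * τ)) (sq_nonneg m)]
  have k5 : m ^ 2 ≤ 2 * (d * ‖p‖ ^ 2) := by linarith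
  have hd' : (1 : ℝ) ≤ d := by exact_mod_cast hd
  have hp0 : 0 ≤ ‖p‖ := norm_nonneg p
  rw [div_le_iff₀ (by linarith)]
  by_contra hc
  push Not at hc
  have h5 : 0 ≤ ‖p‖ * (2 * d) := by positivity
  have h6 : (‖p‖ * (2 * d)) ^ 2 < m ^ 2 := pow_lt_pow_left₀ hc h5 two_ne_zero
  have h7 : 0 ≤ (d : ℝ) * ‖p‖ ^ 2 * (d - 1) :=
    mul_nonneg (by positivity) (by linarith)
  nlinarith [mul_nonneg (by linarith : (0 : ℝ) ≤ d) (sq_nonneg ‖p‖)]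

end Frog81
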