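import Pool.Agent.H.MP_53e2a7_pr.hd.SpC

/-!
# SpD: paths with small steps

PROOF. `r` from `exists_corner x y`, `r' = ‖x‖ • r`. Take `K₁` with `K₁ * s ≥ 6 d` (`‖r' - x‖ ≤ 2 ‖x‖`, `‖y - r'‖ ≤ 3 ‖x‖`) and `K₀ = 2 K₁`. For `k ≤ K₁`:
`q k = (1 - k/K₁) x + (k/K₁) r'`; for `K₁ ≤ k ≤ 2 K₁`: `q k = (1 - (k-K₁)/K₁) r' + ((k-K₁)/K₁) y`; `q k = y` for `k ≥ 2 K₁`. By `seg_low` with
`m = ‖x‖`: `‖q k‖ ≥ ‖x‖ / (2 d)`, and the steps have norm at most `3 ‖x‖ / K₁ ≤ s ‖x‖ / (2 d)`.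
-/

namespace Frog81

open MeasureTheory ProbabilityTheory Filter
open scoped ENNReal NNReal

theorem exists_path_q {d : ℕ} (hd : 2 ≤ d) {s : ℝ} (hs : 0 < s) : ∃ K₀ : ℕ, ∀ K : ℕ, K₀ ≤ K →
    ∀ x y : Fin d → ℝ, x ≠ 0 → ‖x‖ ≤ ‖y‖ → ‖y‖ ≤ 2 * ‖x‖ → ∃ q : ℕ → Fin d → ℝ, q 0 = x ∧
      q K = y ∧ ∀ k < K, ‖q (k + 1) - q k‖ ≤ s * ‖q k‖ := by
  have hd0 : (0 : ℝ) < d := by exact_mod_cast (by omega : 0 < d)
  obtain ⟨K₂, hK₂⟩ := exists_nat_ge (6 * d / s)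
  obtain ⟨K₁, hK₁, hK₁'⟩ : ∃ K₁ : ℕ, 1 ≤ K₁ ∧ 6 * (d : ℝ) ≤ K₁ * s := by
    refine ⟨K₂ + 1, by omega, ?_⟩
    rw [div_le_iff₀ hs] at hK₂
    push_cast
    nlinarith
  refine ⟨2 * K₁, fun K hK x y hx hxy hyx => ?_⟩
  have hKp : (0 : ℝ) < K₁ := by exact_mod_cast hK₁
  have hm : 0 < ‖x‖ := norm_pos_iff.2 hx
  obtain ⟨r, hr, hxr, hyr⟩ := exists_corner hd x y
  obtain ⟨r', hr', hxr', hyr'⟩ : ∃ r' : Fin d → ℝ, ‖r'‖ = ‖x‖ ∧ 0 ≤ ∑ i, x i * r' i ∧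
      0 ≤ ∑ i, y i * r' i := by
    refine ⟨‖x‖ • r, by rw [norm_smul, hr, norm_norm, mul_one], ?_, ?_⟩
    · have : ∑ i, x i * (‖x‖ • r) i = ‖x‖ * ∑ i, x i * r i := by
        rw [Finset.mul_sum]
        refine Finset.sum_congr rfl fun i _ => ?_
        rw [Pi.smul_apply, smul_eq_mul]; ring
      rw [this]; positivity
    · have : ∑ i, y i * (‖x‖ • r) i = ‖x‖ * ∑ i, y i * r i := by
        rw [Finset.mul_sum]
        refine Finset.sum_congr rfl fun i _ => ?_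
        rw [Pi.smul_apply, smul_eq_mul]; ring
      rw [this]; positivity
  -- the two parts
  let A : ℝ → Fin d → ℝ := fun t => (1 - t) • x + t • r'
  let B : ℝ → Fin d → ℝ := fun t => (t - 1) • y + (2 - t) • r'
  have hA1 : A 1 = r' := by
    show (1 - (1 : ℝ)) • x + (1 : ℝ) • r' = r'
    rw [sub_self, zero_smul, zero_add, one_smul]
  have hB1 : B 1 = r' := by
    show ((1 : ℝ) - 1) • y + (2 - (1 : ℝ)) • r' = r'
    rw [sub_self, zero_smul, zero_add, show (2 : ℝ) - 1 = 1 by norm_num, one_smul]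
  have hB2 : B 2 = y := by
    show ((2 : ℝ) - 1) • y + (2 - (2 : ℝ)) • r' = y
    rw [sub_self, zero_smul, add_zero, show (2 : ℝ) - 1 = 1 by norm_num, one_smul]
  let q : ℕ → Fin d → ℝ := fun k =>
    if k ≤ K₁ then A (k / K₁) else if k ≤ 2 * K₁ then B (k / K₁) else y
  have hqA : ∀ k, k ≤ K₁ → q k = A (k / K₁) := fun k hk => if_pos hk
  have hqB : ∀ k, K₁ ≤ k → k ≤ 2 * K₁ → q k = B (k / K₁) := by
    intro k h1 h2
    rcases h1.eq_or_lt with h | h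
    · rw [hqA k h.ge, ← h, div_self hKp.ne', hA1, hB1]
    · show (if k ≤ K₁ then A (k / K₁) else if k ≤ 2 * K₁ then B (k / K₁) else y) = _
      rw [if_neg (by omega), if_pos h2]
  have hqC : ∀ k, 2 * K₁ ≤ k → q k = y := by
    intro k h1
    rcases h1.eq_or_lt with h | h
    · rw [hqB k (by omega) h.ge, ← h]
      have : ((2 * K₁ : ℕ) : ℝ) / K₁ = 2 := by
        push_cast
        field_simp
      rw [this, hB2]
    · show (if k ≤ K₁ then A (k / K₁) else if k ≤ 2 * K₁ then B (k / K₁) else y) = _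
      rw [if_neg (by omega), if_neg (by omega)]
  have hdiv : ∀ k : ℕ, ((k + 1 : ℕ) : ℝ) / K₁ = k / K₁ + 1 / K₁ := by
    intro k
    push_cast
    rw [add_div]
  have hlow : s * (‖x‖ / (2 * d)) ≥ 3 * ‖x‖ / K₁ := by
    rw [ge_iff_le, div_le_iff₀ hKp]
    have h1 : s * (‖x‖ / (2 * d)) * K₁ = ‖x‖ * (K₁ * s) / (2 * d) := by ring
    rw [h1, le_div_iff₀ (by positivity)]
    nlinarith
  refine ⟨q, ?_, hqC K hK, fun k _ => ?_⟩
  · rw [hqA 0 (Nat.zero_le _)]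
    show (1 - ((0 : ℕ) : ℝ) / K₁) • x + (((0 : ℕ) : ℝ) / K₁) • r' = x
    rw [Nat.cast_zero, zero_div, sub_zero, zero_smul, add_zero, one_smul]
  · rcases Nat.lt_or_ge k K₁ with h1 | h1
    · rw [hqA k h1.le, hqA (k + 1) h1, hdiv k]
      have h2 : A (k / K₁ + 1 / K₁) - A (k / K₁) = ((1 : ℝ) / K₁) • (r' - x) := by
        show (1 - ((k : ℝ) / K₁ + 1 / K₁)) • x + ((k : ℝ) / K₁ + 1 / K₁) • r' -
          ((1 - (k : ℝ) / K₁) • x + ((k : ℝ) / K₁) • r') = _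
        module
      have h3 : ‖x‖ / (2 * d) ≤ ‖A (k / K₁)‖ := by
        refine seg_low (by omega) hm.le le_rfl hr'.ge hxr' (by positivity) ?_
        rw [div_le_one hKp]
        exact_mod_cast h1.le
      rw [h2, norm_smul, Real.norm_eq_abs, abs_of_pos (by positivity)]
      have h4 : ‖r' - x‖ ≤ 3 * ‖x‖ := by
        have := norm_sub_le r' x
        rw [hr'] at this
        linarith
      calc 1 / (K₁ : ℝ) * ‖r' - x‖ ≤ 1 / (K₁ : ℝ) * (3 * ‖x‖) := by gcongr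
        _ = 3 * ‖x‖ / K₁ := by ring
        _ ≤ s * (‖x‖ / (2 * d)) := hlow
        _ ≤ s * ‖A (k / K₁)‖ := by gcongr
    · rcases Nat.lt_or_ge k (2 * K₁) with h2 | h2
      · rw [hqB k h1 h2.le, hqB (k + 1) (by omega) h2, hdiv k]
        have h5 : B (k / K₁ + 1 / K₁) - B (k / K₁) = ((1 : ℝ) / K₁) • (y - r') := by
          show ((k : ℝ) / K₁ + 1 / K₁ - 1) • y + (2 - ((k : ℝ) / K₁ + 1 / K₁)) • r' -
            (((k : ℝ) / K₁ - 1) • y + (2 - (k : ℝ) / K₁) • r') = _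
          module
        have h3 : ‖x‖ / (2 * d) ≤ ‖B (k / K₁)‖ := by
          have h6 : B (k / K₁) = (1 - (2 - (k : ℝ) / K₁)) • y + (2 - (k : ℝ) / K₁) • r' := by
            show ((k : ℝ) / K₁ - 1) • y + (2 - (k : ℝ) / K₁) • r' = _
            module
          rw [h6]
          refine seg_low (by omega) hm.le hxy hr'.ge hyr' ?_ ?_
          · rw [sub_nonneg, div_le_iff₀ hKp]
            exact_mod_cast h2.le
          · have : (1 : ℝ) ≤ k / K₁ := by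
              rw [le_div_iff₀ hKp, one_mul]
              exact_mod_cast h1
            linarith
        rw [h5, norm_smul, Real.norm_eq_abs, abs_of_pos (by positivity)]
        have h4 : ‖y - r'‖ ≤ 3 * ‖x‖ := by
          have := norm_sub_le y r'
          rw [hr'] at this
          linarith
        calc 1 / (K₁ : ℝ) * ‖y - r'‖ ≤ 1 / (K₁ : ℝ) * (3 * ‖x‖) := by gcongr
          _ = 3 * ‖x‖ / K₁ := by ring
          _ ≤ s * (‖x‖ / (2 * d)) := hlow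
          _ ≤ s * ‖B (k / K₁)‖ := by gcongr
      · rw [hqC k h2, hqC (k + 1) (by omega), sub_self, norm_zero]
        positivity

end Frog81
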