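import Pool.Agent.H.MP_53e2a7_pr.h81.Comp
import Pool.Agent.H.MP_53e2a7_pr.hd.Defs

/-!
# Two: type two is slow, everything is reached at rate beta

PROOF of two_slow: `parent_induction` (Comp) with `p y := θ y = two → y ≠ z → T ω z y / β ≤ t y` exactly as `le_time_two` in Comp.lean
(there without the factor `β`): the parent `x` of `y` has type two, `t y = t x + travel ω x y / β`; if `x = z`, `t y ≥ travel ω z y / β`;
otherwise add (`T_triangle`, `T_le_travel`, `ENNReal.add_div`). If `t y = ⊤` trivial. Also `y = 0` has type one.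
PROOF of one_fast: by `h.le`, `t b ≤ t a + travel ω a b / β` as `rate β κ ≥ ofReal β`; apply `le_add_T` (Basic) to
`f x = ofReal β * t x` (`β * (a / β) = a`, `0 < β < ⊤`), `t 0 = 0`.
-/

namespace Frog81

open MeasureTheory ProbabilityTheory Filter
open scoped ENNReal NNReal

theorem two_slow {d : ℕ} {β : ℝ} {z : Site d} {ω : Env d} {t : Site d → ℝ≥0∞} {θ : Site d → Kind}
    (hreg : Regular ω) (hβ0 : 0 < β) (hβ1 : β ≤ 1) (h : IsTwoType β z ω t θ) (y : Site d)
    (hy : θ y = Kind.two) (hyz : y ≠ z) : T ω z y / ENNReal.ofReal β ≤ t y := by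
  by_cases hty : t y = ⊤
  · rw [hty]
    exact le_top
  refine parent_induction hreg h (fun y => θ y = Kind.two → y ≠ z →
    T ω z y / ENNReal.ofReal β ≤ t y) ?_ y hty hy hyz
  intro y hty ih hy hyz
  have hy0 : y ≠ 0 := by
    rintro rfl
    rw [h.kind_zero] at hy
    exact absurd hy (by decide)
  obtain ⟨x, hxy, hθ, he⟩ := h.parent y hy0 hyz hty
  have hr : rate β (θ x) = ENNReal.ofReal β := by
    rw [hθ, hy]
    rfl
  by_cases hxz : x = z
  · rw [he, hr, hxz]
    exact (ENNReal.div_le_div_right (T_le_travel ω z y) _).trans le_add_self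
  · have h1 := ih x (time_lt hreg hβ0 h x y hxy hty he) (hθ.trans hy) hxz
    calc T ω z y / ENNReal.ofReal β ≤ (T ω z x + T ω x y) / ENNReal.ofReal β :=
          ENNReal.div_le_div_right (T_triangle ω z x y) _
      _ = T ω z x / ENNReal.ofReal β + T ω x y / ENNReal.ofReal β := ENNReal.add_div
      _ ≤ t x + travel ω x y / ENNReal.ofReal β :=
          add_le_add h1 (ENNReal.div_le_div_right (T_le_travel ω x y) _)
      _ = t y := by rw [he, hr]

theorem one_fast {d : ℕ} {β : ℝ} {z : Site d} {ω : Env d} {t : Site d → ℝ≥0∞} {θ : Site d → Kind}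
    (hβ0 : 0 < β) (hβ1 : β ≤ 1) (h : IsTwoType β z ω t θ) (y : Site d) :
    t y ≤ T ω 0 y / ENNReal.ofReal β := by
  have hb0 : ENNReal.ofReal β ≠ 0 := (ENNReal.ofReal_pos.2 hβ0).ne'
  have hbt : ENNReal.ofReal β ≠ ⊤ := ENNReal.ofReal_ne_top
  have hr : ∀ κ, ENNReal.ofReal β ≤ rate β κ := by
    intro κ
    cases κ
    · show ENNReal.ofReal β ≤ 1
      rw [← ENNReal.ofReal_one]
      exact ENNReal.ofReal_le_ofReal hβ1
    · exact le_refl _
  have h1 : ∀ a b, ENNReal.ofReal β * t b ≤ ENNReal.ofReal β * t a + travel ω a b := by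
    intro a b
    have h2 : t b ≤ t a + travel ω a b / ENNReal.ofReal β :=
      (h.le a b).trans (add_le_add le_rfl (ENNReal.div_le_div_left (hr _) _))
    calc ENNReal.ofReal β * t b ≤
          ENNReal.ofReal β * (t a + travel ω a b / ENNReal.ofReal β) := mul_le_mul_right h2 _
      _ = ENNReal.ofReal β * t a + travel ω a b := by
          rw [mul_add, ENNReal.mul_div_cancel hb0 hbt]
  have h3 := le_add_T ω (fun x => ENNReal.ofReal β * t x) h1 0 y
  have h4 : ENNReal.ofReal β * t y ≤ T ω 0 y := by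
    have h5 : ENNReal.ofReal β * t y ≤ ENNReal.ofReal β * t 0 + T ω 0 y := h3
    rwa [h.time_zero, mul_zero, zero_add] at h5
  rw [ENNReal.le_div_iff_mul_le (Or.inl hb0) (Or.inl hbt), mul_comm]
  exact h4

end Frog81
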