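import Pool.Agent.H.MP_53e2a7_pr.hd.Chain
import Pool.Agent.H.MP_53e2a7_pr.hd.Two

/-!
# StA: near an early regular type one site everything is type one

PROOF. Use `chain_or` (`T ω g y ≠ ⊤` as g is Good). In the first case `t y ≤ t g + (T ω g y + 1) ≤ ofReal (ρ μ g + (1+κ) μ (y-g) + N + 1)`. Otherwise
there is `w` of type two with `t w ≤ t g + (T ω g y + 1)` and `T ω g w ≤ T ω g y + 1`. Write `D = ‖rv g‖`; `μ (y - g) ≤ C b D`, `1 + κ ≤ 2`, so
`(1-κ) μ (w - g) - N ≤ 2 C b D + N + 1`, `1 - κ ≥ 1/2`, `‖w - g‖ ≤ μ (w-g) / c ≤ (4 C b D + 4 N + 2) / c` and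
`μ w ≥ μ g - μ (g - w) ≥ μ g - (C / c) (4 C b D + 4 N + 2)`; `μ g ≥ c D`. If `w = z`, `μ w ≤ C N₀`, impossible for large `D` (note `4 C^2 b / c ≤ c / 2`, as
`η ≤ 1`). Otherwise `two_slow` and Slow: `(1-κ) μ w - N₀ ≤ β (ρ μ g + 2 C b D + N + 1)`; so
`η μ g ≤ (1 - κ - β ρ) μ g ≤ (C/c) (4 C b D + 4 N + 2) + N₀ + 2 C b D + N + 1`, and `(4 C^2 / c + 2 C) b ≤ η c / 2` gives
`η c D / 2 ≤` a constant, impossible if `R` is large.
-/

namespace Frog81

open MeasureTheory ProbabilityTheory Filter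
open scoped ENNReal NNReal

private theorem StA_core {c C β ρ κ η b D m A m1 m2 mw N N₀ K : ℝ} (hc : 0 < c) (hC : 0 < C)
    (hβ0 : 0 < β) (hβ1 : β ≤ 1) (hρ : 0 < ρ) (hκ0 : 0 < κ) (hκ1 : κ ≤ 1 / 2) (hη : 0 < η)
    (hη1 : η ≤ 1 - κ - β * ρ) (hb0 : 0 < b) (hb : (4 * C ^ 2 / c + 2 * C) * b ≤ η * c / 2)
    (hN : 0 ≤ N) (hN0 : 0 ≤ N₀) (hK : K = C / c * (4 * N + 2) + N₀ + N + 1)
    (hD : 2 * (C * N₀ + K) / c + 2 * K / (η * c) + 1 ≤ D)
    (hm : c * D ≤ m) (hA0 : 0 ≤ A) (hA : A ≤ 2 * C * b * D + N)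
    (h1 : (1 - κ) * m1 - N ≤ A + 1) (hm1 : 0 ≤ m1) (h2 : m2 ≤ C / c * m1) (h3 : m ≤ mw + m2)
    (h4 : mw ≤ C * N₀ ∨ (1 - κ) * mw - N₀ ≤ β * (ρ * m + A + 1)) : False := by
  obtain ⟨q, hq⟩ : ∃ q, q = C / c := ⟨_, rfl⟩
  have hq0 : 0 < q := by rw [hq]; exact div_pos hC hc
  have e1 : 4 * C ^ 2 / c = 4 * C * q := by rw [hq]; ring
  rw [e1] at hb
  rw [← hq] at hK h2
  have hK0 : 0 < K := by
    have := mul_pos hq0 (show (0 : ℝ) < 4 * N + 2 by linarith)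
    rw [hK]; linarith
  have hCN : 0 ≤ C * N₀ := mul_nonneg hC.le hN0
  have hηc : 0 < η * c := mul_pos hη hc
  have p1 : 0 ≤ 2 * (C * N₀ + K) / c := div_nonneg (by linarith) hc.le
  have p2 : 0 ≤ 2 * K / (η * c) := div_nonneg (by linarith) hηc.le
  have hD0 : 0 < D := by linarith
  have d1 : 2 * (C * N₀ + K) < D * c := by
    rw [← div_lt_iff₀ hc]; linarith
  have d2 : 2 * K < D * (η * c) := by
    rw [← div_lt_iff₀ hηc]; linarith
  have h5 : m1 ≤ 4 * C * b * D + 4 * N + 2 := by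
    have := mul_nonneg hm1 (show (0 : ℝ) ≤ 1 / 2 - κ by linarith)
    nlinarith
  have h6 : m2 ≤ q * (4 * C * b * D + 4 * N + 2) :=
    h2.trans (mul_le_mul_of_nonneg_left h5 hq0.le)
  have h7 : (4 * C * q + 2 * C) * b * D ≤ η * c / 2 * D := mul_le_mul_of_nonneg_right hb hD0.le
  have hβρ : 0 < β * ρ := mul_pos hβ0 hρ
  have hη2 : η ≤ 1 := by linarith
  have hCbD : 0 ≤ C * b * D := mul_nonneg (mul_nonneg hC.le hb0.le) hD0.le
  have e2 : q * (4 * C * b * D + 4 * N + 2) = 4 * C * q * b * D + q * (4 * N + 2) := by ring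
  rw [e2] at h6
  have h8 : 4 * C * q * b * D + 2 * C * b * D ≤ η * (c * D) / 2 := by
    calc 4 * C * q * b * D + 2 * C * b * D = (4 * C * q + 2 * C) * b * D := by ring
      _ ≤ η * c / 2 * D := h7
      _ = η * (c * D) / 2 := by ring
  have hcD : 0 < c * D := mul_pos hc hD0
  have hqN : q * (4 * N + 2) ≤ K := by rw [hK]; linarith
  rcases h4 with h4 | h4
  · have h9 : η * (c * D) ≤ c * D := by
      have := mul_le_mul_of_nonneg_right hη2 hcD.le
      linarith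
    have e3 : D * c = c * D := mul_comm _ _
    linarith
  · have hm0 : 0 ≤ m := by linarith
    have hβA : β * (A + 1) ≤ A + 1 := by
      have := mul_le_mul_of_nonneg_right hβ1 (show (0 : ℝ) ≤ A + 1 by linarith)
      linarith
    have e4 : β * (ρ * m + A + 1) = β * ρ * m + β * (A + 1) := by ring
    rw [e4] at h4
    -- the lower bound of `(1 - κ) mw`
    have hE : 0 ≤ 4 * C * q * b * D + q * (4 * N + 2) := by
      rw [← e2]
      refine mul_nonneg hq0.le ?_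
      have : 0 ≤ 4 * (C * b * D) := by linarith
      nlinarith
    have h10 : m - (4 * C * q * b * D + q * (4 * N + 2)) ≤ mw := by linarith
    have h11 : (1 - κ) * (m - (4 * C * q * b * D + q * (4 * N + 2))) ≤ (1 - κ) * mw :=
      mul_le_mul_of_nonneg_left h10 (by linarith)
    have h12 : κ * (4 * C * q * b * D + q * (4 * N + 2)) ≥ 0 := mul_nonneg hκ0.le hE
    have h13 : (1 - κ) * m - (4 * C * q * b * D + q * (4 * N + 2)) ≤ (1 - κ) * mw := by
      have e5 : (1 - κ) * (m - (4 * C * q * b * D + q * (4 * N + 2))) = (1 - κ) * m -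
        (4 * C * q * b * D + q * (4 * N + 2)) + κ * (4 * C * q * b * D + q * (4 * N + 2)) := by ring
      rw [e5] at h11
      linarith
    have h14 : η * m ≤ (1 - κ) * m - β * ρ * m := by
      have := mul_le_mul_of_nonneg_right hη1 hm0
      have e6 : (1 - κ - β * ρ) * m = (1 - κ) * m - β * ρ * m := by ring
      rw [e6] at this
      exact this
    have h15 : η * (c * D) ≤ η * m := mul_le_mul_of_nonneg_left hm hη.le
    have e7 : D * (η * c) = η * (c * D) := by ring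
    rw [e7] at d2
    have e8 : 2 * C * b * D = 2 * (C * b * D) := by ring
    linarith

theorem step_one {d : ℕ} {μ : (Fin d → ℝ) → ℝ} {c C β ρ κ η b : ℝ} (hμ : IsGauge μ c C)
    (hβ0 : 0 < β) (hβ1 : β ≤ 1) (hρ : 0 < ρ) (hκ0 : 0 < κ) (hκ1 : κ ≤ 1 / 2) (hη : 0 < η)
    (hη1 : η ≤ 1 - κ - β * ρ) (hb0 : 0 < b) (hb : (4 * C ^ 2 / c + 2 * C) * b ≤ η * c / 2)
    (N N₀ : ℕ) : ∃ R : ℝ, ∀ (ω : Env d) (z : Site d) (t : Site d → ℝ≥0∞) (θ : Site d → Kind),
      Regular ω → IsTwoType β z ω t θ → Slow μ κ N₀ ω z → ∀ g : Site d, Good μ κ N ω g →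
        R ≤ ‖rv g‖ → θ g = Kind.one → t g ≤ ENNReal.ofReal (ρ * μ (rv g)) →
          ∀ y : Site d, ‖rv y - rv g‖ ≤ b * ‖rv g‖ → θ y = Kind.one ∧
            t y ≤ ENNReal.ofReal (ρ * μ (rv g) + (1 + κ) * μ (rv y - rv g) + N + 1) := by
  have hc := hμ.c_pos
  have hC := hμ.C_pos
  obtain ⟨K, hK⟩ : ∃ K : ℝ, K = C / c * (4 * (N : ℝ) + 2) + N₀ + N + 1 := ⟨_, rfl⟩
  refine ⟨2 * (C * N₀ + K) / c + 2 * K / (η * c) + 1, ?_⟩
  intro ω z t θ hreg h hS g hG hR hg1 htg y hy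
  have hN : (0 : ℝ) ≤ N := Nat.cast_nonneg N
  have hN0 : (0 : ℝ) ≤ N₀ := Nat.cast_nonneg N₀
  have hpos : ∀ x, 0 ≤ μ x := fun x =>
    (mul_nonneg hc.le (norm_nonneg x)).trans (hμ.low x)
  obtain ⟨A, hA⟩ : ∃ A : ℝ, A = (1 + κ) * μ (rv y - rv g) + N := ⟨_, rfl⟩
  have hA0 : 0 ≤ A := by
    rw [hA]
    exact add_nonneg (mul_nonneg (by linarith) (hpos _)) hN
  have hTA : T ω g y ≤ ENNReal.ofReal A := by
    rw [hA]
    exact (hG.2 y).1
  have hT : T ω g y ≠ ⊤ := ne_top_of_le_ne_top ENNReal.ofReal_ne_top hTA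
  have hA1 : ENNReal.ofReal A + 1 = ENNReal.ofReal (A + 1) := by
    rw [ENNReal.ofReal_add hA0 zero_le_one, ENNReal.ofReal_one]
  have hT1 : T ω g y + 1 ≤ ENNReal.ofReal (A + 1) := by
    rw [← hA1]
    exact add_le_add hTA le_rfl
  have hρm : 0 ≤ ρ * μ (rv g) := mul_nonneg hρ.le (hpos _)
  have htT : t g + (T ω g y + 1) ≤ ENNReal.ofReal (ρ * μ (rv g) + A + 1) := by
    rw [add_assoc, ENNReal.ofReal_add hρm (by linarith)]
    exact add_le_add htg hT1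
  rcases chain_or h hG.1 hg1 hT with ⟨h1, h2⟩ | ⟨w, hw, h1, h2⟩
  · refine ⟨h1, (h2.trans htT).trans (ENNReal.ofReal_le_ofReal ?_)⟩
    rw [hA]
    linarith
  · exfalso
    have hyb : μ (rv y - rv g) ≤ C * (b * ‖rv g‖) :=
      (hμ.up _).trans (mul_le_mul_of_nonneg_left hy hC.le)
    have hA2 : A ≤ 2 * C * b * ‖rv g‖ + N := by
      have k1 : (1 + κ) * μ (rv y - rv g) ≤ 2 * μ (rv y - rv g) :=
        mul_le_mul_of_nonneg_right (by linarith) (hpos _)
      rw [hA]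
      linarith
    have k2 : (1 - κ) * μ (rv w - rv g) - N ≤ A + 1 := by
      have k3 := ((hG.2 w).2.trans h2).trans hT1
      exact (ENNReal.ofReal_le_ofReal_iff (by linarith)).1 k3
    have k4 : μ (rv g - rv w) ≤ C / c * μ (rv w - rv g) := by
      have k5 := hμ.up (rv g - rv w)
      have k6 := hμ.low (rv w - rv g)
      rw [norm_sub_rev] at k5
      have k7 : ‖rv w - rv g‖ ≤ μ (rv w - rv g) / c := by
        rw [le_div_iff₀ hc]
        linarith
      calc μ (rv g - rv w) ≤ C * ‖rv w - rv g‖ := k5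
        _ ≤ C * (μ (rv w - rv g) / c) := mul_le_mul_of_nonneg_left k7 hC.le
        _ = C / c * μ (rv w - rv g) := by ring
    have k8 : μ (rv g) ≤ μ (rv w) + μ (rv g - rv w) := by
      have := hμ.add (rv w) (rv g - rv w)
      rwa [add_sub_cancel] at this
    refine StA_core (D := ‖rv g‖) (m := μ (rv g)) (A := A) (m1 := μ (rv w - rv g))
      (m2 := μ (rv g - rv w)) (mw := μ (rv w)) hc hC hβ0 hβ1 hρ hκ0 hκ1 hη hη1 hb0 hb hN hN0 hK hR
      (hμ.low _) hA0 hA2 k2 (hpos _) k4 k8 ?_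
    by_cases hwz : w = z
    · left
      rw [hwz]
      exact (hμ.up _).trans (mul_le_mul_of_nonneg_left hS.1 hC.le)
    · right
      have k9 := two_slow hreg hβ0 hβ1 h w hw hwz
      have k10 : T ω z w / ENNReal.ofReal β ≤ ENNReal.ofReal (ρ * μ (rv g) + A + 1) :=
        (k9.trans h1).trans htT
      have hβ : ENNReal.ofReal β ≠ 0 := by
        rw [Ne, ENNReal.ofReal_eq_zero, not_le]
        exact hβ0
      rw [ENNReal.div_le_iff hβ ENNReal.ofReal_ne_top, ← ENNReal.ofReal_mul (by linarith)] at k10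
      have k11 := (hS.2 w hwz).trans k10
      have k12 := (ENNReal.ofReal_le_ofReal_iff (mul_nonneg (by linarith) hβ0.le)).1 k11
      linarith

end Frog81
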