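import Pool.Agent.H.MP_53e2a7_pr.hd.StA

/-!
# StB: one step of the takeover

PROOF. Let `y` with `‖y - x'‖ ≤ κ ‖x'‖ ≤ 2 κ ‖x‖` (`b' ≤ 1`). By Dense there is a Good `g` with `‖g - x‖ ≤ κ ‖x‖`; Won at `x`: `θ g = one`, `t g ≤ ρ μ g`.
`‖y - g‖ ≤ (b' + 3 κ) ‖x‖ ≤ (b / 2) ‖x‖ ≤ b ‖g‖` as `‖g‖ ≥ (1 - κ) ‖x‖ ≥ ‖x‖ / 2`. `step_one`: `θ y = one`, `t y ≤ ρ μ g + (1+κ) μ (y-g) + N + 1`. With
`μ g ≤ μ x + C κ ‖x‖`, `μ (y-g) ≤ μ (x'-x) + 3 C κ ‖x‖`, `μ x' ≤ μ y + 2 C κ ‖x‖` this is at most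
`ρ μ y + (3 ρ + 6) C κ ‖x‖ - η' ‖x‖ + N + 1 ≤ ρ μ y` if `(3 ρ + 6) C κ ≤ η' / 2` and `N + 1 ≤ η' ‖x‖ / 2` (take `R` large; also `R ≥ N`, `R ≥ 2 R_step_one`, `R ≥ 0`).
-/

namespace Frog81

open MeasureTheory ProbabilityTheory Filter
open scoped ENNReal NNReal

theorem won_step {d : ℕ} {μ : (Fin d → ℝ) → ℝ} {c C β ρ κ η b b' η' : ℝ} (hμ : IsGauge μ c C)
    (hβ0 : 0 < β) (hβ1 : β ≤ 1) (hρ : 0 < ρ) (hκ0 : 0 < κ) (hκ1 : κ ≤ 1 / 2) (hη : 0 < η)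
    (hη1 : η ≤ 1 - κ - β * ρ) (hb0 : 0 < b) (hb : (4 * C ^ 2 / c + 2 * C) * b ≤ η * c / 2)
    (hb'0 : 0 < b') (hb'1 : b' ≤ 1) (hb' : b' + 3 * κ ≤ b / 2) (hη' : 0 < η')
    (hκη : (3 * ρ + 6) * C * κ ≤ η' / 2)
    (N N₀ : ℕ) : ∃ R : ℝ, ∀ (ω : Env d) (z : Site d) (t : Site d → ℝ≥0∞) (θ : Site d → Kind),
      Regular ω → IsTwoType β z ω t θ → Slow μ κ N₀ ω z → Dense μ κ N ω →
        ∀ x x' : Fin d → ℝ, R ≤ ‖x‖ → Won μ κ ρ t θ x → ‖x' - x‖ ≤ b' * ‖x‖ →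
          (1 + κ) * μ (x' - x) + η' * ‖x‖ ≤ ρ * (μ x' - μ x) → Won μ κ ρ t θ x' := by
  obtain ⟨R₁, hR₁⟩ := step_one hμ hβ0 hβ1 hρ hκ0 hκ1 hη hη1 hb0 hb N N₀
  refine ⟨max (N : ℝ) (max (2 * R₁) (2 * ((N : ℝ) + 1) / η')), ?_⟩
  intro ω z t θ hreg hT hS hD x x' hR hW hxx' hgain y hy
  have hRN : (N : ℝ) ≤ ‖x‖ := (le_max_left _ _).trans hR
  have hR2 : 2 * R₁ ≤ ‖x‖ := (le_max_left _ _).trans ((le_max_right _ _).trans hR)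
  have hR3 : 2 * ((N : ℝ) + 1) / η' ≤ ‖x‖ :=
    (le_max_right _ _).trans ((le_max_right _ _).trans hR)
  obtain ⟨g, hg, hgx⟩ := hD x hRN
  obtain ⟨hθg, htg⟩ := hW g hgx
  have hD0 : 0 ≤ ‖x‖ := norm_nonneg _
  have hC0 : 0 < C := hμ.C_pos
  have h1 : ‖x'‖ ≤ 2 * ‖x‖ := by
    have h5 : ‖x'‖ ≤ ‖x' - x‖ + ‖x‖ := by
      have h6 := norm_add_le (x' - x) x
      rwa [sub_add_cancel] at h6
    have h7 : b' * ‖x‖ ≤ 1 * ‖x‖ := mul_le_mul_of_nonneg_right hb'1 hD0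
    linarith
  have h2 : ‖rv y - x'‖ ≤ 2 * κ * ‖x‖ := by
    have h5 : κ * ‖x'‖ ≤ κ * (2 * ‖x‖) := mul_le_mul_of_nonneg_left h1 hκ0.le
    linarith
  have hgx' : ‖x - rv g‖ ≤ κ * ‖x‖ := by
    rw [norm_sub_rev]
    exact hgx
  have h3 : ‖x‖ / 2 ≤ ‖rv g‖ := by
    have h5 := norm_sub_norm_le x (rv g)
    have h6 : κ * ‖x‖ ≤ 1 / 2 * ‖x‖ := mul_le_mul_of_nonneg_right hκ1 hD0
    linarith
  have h4 : ‖rv y - rv g‖ ≤ b * ‖rv g‖ := by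
    have e : rv y - rv g = (rv y - x') + (x' - x) + (x - rv g) := by abel
    have h5 : ‖rv y - rv g‖ ≤ ‖rv y - x'‖ + ‖x' - x‖ + ‖x - rv g‖ := by
      rw [e]
      exact (norm_add_le _ _).trans (by linarith [norm_add_le (rv y - x') (x' - x)])
    have h6 : (b' + 3 * κ) * ‖x‖ ≤ b / 2 * ‖x‖ := mul_le_mul_of_nonneg_right hb' hD0
    have h7 : b * (‖x‖ / 2) ≤ b * ‖rv g‖ := mul_le_mul_of_nonneg_left h3 hb0.le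
    linarith
  have h5 := hR₁ ω z t θ hreg hT hS g hg (by linarith) hθg htg y h4
  refine ⟨h5.1, h5.2.trans (ENNReal.ofReal_le_ofReal ?_)⟩
  -- the gauge
  have m1 : μ (rv g) ≤ μ x + C * (κ * ‖x‖) := by
    have h6 := hμ.add x (rv g - x)
    rw [add_sub_cancel] at h6
    have h7 := hμ.up (rv g - x)
    have h8 : C * ‖rv g - x‖ ≤ C * (κ * ‖x‖) := mul_le_mul_of_nonneg_left hgx hC0.le
    linarith
  have m2 : μ (rv y - rv g) ≤ μ (x' - x) + 3 * (C * (κ * ‖x‖)) := by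
    have e : rv y - rv g = ((x' - x) + (rv y - x')) + (x - rv g) := by abel
    have h6 := hμ.add ((x' - x) + (rv y - x')) (x - rv g)
    rw [← e] at h6
    have h7 := hμ.add (x' - x) (rv y - x')
    have h8 := hμ.up (rv y - x')
    have h9 := hμ.up (x - rv g)
    have h10 : C * ‖rv y - x'‖ ≤ C * (2 * κ * ‖x‖) := mul_le_mul_of_nonneg_left h2 hC0.le
    have h11 : C * ‖x - rv g‖ ≤ C * (κ * ‖x‖) := mul_le_mul_of_nonneg_left hgx' hC0.le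
    linarith
  have m3 : μ x' ≤ μ (rv y) + 2 * (C * (κ * ‖x‖)) := by
    have h6 := hμ.add (rv y) (x' - rv y)
    rw [add_sub_cancel] at h6
    have h7 := hμ.up (x' - rv y)
    have h8 : ‖x' - rv y‖ ≤ 2 * κ * ‖x‖ := by
      rw [norm_sub_rev]
      exact h2
    have h9 : C * ‖x' - rv y‖ ≤ C * (2 * κ * ‖x‖) := mul_le_mul_of_nonneg_left h8 hC0.le
    linarith
  have hE : 0 ≤ C * (κ * ‖x‖) := by positivity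
  have n1 : ρ * μ (rv g) ≤ ρ * (μ x + C * (κ * ‖x‖)) := mul_le_mul_of_nonneg_left m1 hρ.le
  have n2 : (1 + κ) * μ (rv y - rv g) ≤ (1 + κ) * (μ (x' - x) + 3 * (C * (κ * ‖x‖))) :=
    mul_le_mul_of_nonneg_left m2 (by linarith)
  have n3 : ρ * μ x' ≤ ρ * (μ (rv y) + 2 * (C * (κ * ‖x‖))) := mul_le_mul_of_nonneg_left m3 hρ.le
  have n4 : (1 + κ) * (3 * (C * (κ * ‖x‖))) ≤ 2 * (3 * (C * (κ * ‖x‖))) :=
    mul_le_mul_of_nonneg_right (by linarith) (by linarith)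
  have n5 : (3 * ρ + 6) * C * κ * ‖x‖ ≤ η' / 2 * ‖x‖ := mul_le_mul_of_nonneg_right hκη hD0
  have n6 : (N : ℝ) + 1 ≤ η' / 2 * ‖x‖ := by
    rw [div_le_iff₀ hη'] at hR3
    linarith
  have n7 : (3 * ρ + 6) * C * κ * ‖x‖ = 3 * (ρ * (C * (κ * ‖x‖))) + 6 * (C * (κ * ‖x‖)) := by
    ring
  rw [n7] at n5
  linarith

end Frog81
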