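import Pool.Agent.H.MP_53e2a7_pr.hd.Defs

/-!
# WienA: the covering lemma for boxes

PROOF. `X` the filtered set on the left; choose `n x ≤ M` for `x ∈ X`. `Vitali.exists_disjoint_subfamily_covering_enlargement` (Mathlib) with the sets
`Q x = {x + y | y ∈ box d (n x)}`, `δ x = n x`, `τ = 2`: `u ⊆ X` with `Q x`, `x ∈ u`, pairwise disjoint and every `x ∈ X` has `x' ∈ u` with `Q x ∩ Q x'` nonempty,
`n x ≤ 2 n x'`, so `x - x' ∈ box d (3 (n x'))`. Hence `card X ≤ ∑ x ∈ u, card (box d (3 n x))`, `card (box d n) = (2 n + 1)^d`, `(6 n + 1)^d ≤ 3^d (2 n + 1)^d`, and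
`a * ∑ x ∈ u, card (box d (n x)) ≤ ∑ x ∈ u, card {y ∈ box d (n x) | x + y ∈ B} ≤ card {y ∈ box d (L + M) | y ∈ B}` (the translated sets are disjoint
subsets of `box d (L+M)`).
-/

namespace Frog81

open MeasureTheory ProbabilityTheory Filter
open scoped ENNReal NNReal

theorem card_box (d n : ℕ) : (box d n).card = (2 * n + 1) ^ d := by
  unfold box
  rw [Fintype.card_piFinset]
  simp only [Int.card_Icc, Finset.prod_const, Finset.card_univ, Fintype.card_fin]
  congr 1
  omega

theorem WienA_mem {d n : ℕ} {x : Site d} : x ∈ box d n ↔ ∀ i, |x i| ≤ n := by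
  unfold box
  rw [Fintype.mem_piFinset]
  exact forall_congr' fun i => by rw [Finset.mem_Icc, abs_le]

open scoped Classical in
theorem cover_count {d : ℕ} (B : Set (Site d)) {a : ℝ} (ha : 0 < a) (L M : ℕ) :
    a * (((box d L).filter fun x => ∃ n ≤ M,
      a * (box d n).card < (((box d n).filter fun y => x + y ∈ B).card : ℝ)).card : ℝ) ≤
        3 ^ d * (((box d (L + M)).filter fun y => y ∈ B).card : ℝ) := by
  set X := (box d L).filter fun x => ∃ n ≤ M,
      a * (box d n).card < (((box d n).filter fun y => x + y ∈ B).card : ℝ) with hX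
  have h2 : ∀ x : Site d, ∃ n : ℕ, x ∈ X → n ≤ M ∧
      a * (box d n).card < (((box d n).filter fun y => x + y ∈ B).card : ℝ) := by
    intro x
    by_cases hx : x ∈ X
    · obtain ⟨n, h3, h4⟩ := (Finset.mem_filter.1 hx).2
      exact ⟨n, fun _ => ⟨h3, h4⟩⟩
    · exact ⟨0, fun h => absurd h hx⟩
  choose nn hnn using h2
  let Q : Site d → Set (Site d) := fun x => {z | z - x ∈ box d (nn x)}
  have hne : ∀ x ∈ (X : Set (Site d)), (Q x).Nonempty := by
    intro x _
    refine ⟨x, ?_⟩
    show x - x ∈ box d (nn x)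
    rw [sub_self, WienA_mem]
    intro i
    simp
  obtain ⟨u, hu, hdis, hcov⟩ := Vitali.exists_disjoint_subfamily_covering_enlargement Q
    (X : Set (Site d)) (fun x => (nn x : ℝ)) 2 one_lt_two (fun x _ => Nat.cast_nonneg _) (M : ℝ)
    (fun x hx => by exact_mod_cast (hnn x hx).1) hne
  set U := X.filter (fun x => x ∈ u) with hU
  have h3 : X ⊆ U.biUnion fun x' => (box d (3 * nn x')).image (fun y => x' + y) := by
    intro x hx
    obtain ⟨x', hx', ⟨z, hz1, hz2⟩, hle⟩ := hcov x hx
    rw [Finset.mem_biUnion]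
    refine ⟨x', Finset.mem_filter.2 ⟨hu hx', hx'⟩, Finset.mem_image.2 ⟨x - x', ?_, by abel⟩⟩
    rw [WienA_mem]
    intro i
    have e1 : |z i - x i| ≤ (nn x : ℤ) := WienA_mem.1 hz1 i
    have e2 : |z i - x' i| ≤ (nn x' : ℤ) := WienA_mem.1 hz2 i
    have e3 : nn x ≤ 2 * nn x' := by exact_mod_cast hle
    have e4 : (nn x : ℤ) ≤ 2 * nn x' := by exact_mod_cast e3
    show |x i - x' i| ≤ ((3 * nn x' : ℕ) : ℤ)
    push_cast
    rw [abs_le] at e1 e2 ⊢
    constructor <;> linarith [e1.1, e1.2, e2.1, e2.2]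
  have h4 : (X.card : ℝ) ≤ ∑ x ∈ U, 3 ^ d * ((box d (nn x)).card : ℝ) := by
    have h5 : X.card ≤ ∑ x ∈ U, 3 ^ d * (box d (nn x)).card := by
      refine (Finset.card_le_card h3).trans (Finset.card_biUnion_le.trans ?_)
      refine Finset.sum_le_sum fun x _ => Finset.card_image_le.trans ?_
      rw [card_box, card_box, ← Nat.mul_pow]
      exact Nat.pow_le_pow_left (by omega) d
    exact_mod_cast h5
  let D : Site d → Finset (Site d) := fun x =>
    ((box d (nn x)).filter fun y => x + y ∈ B).image (fun y => x + y)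
  have hDc : ∀ x, (D x).card = ((box d (nn x)).filter fun y => x + y ∈ B).card := fun x =>
    Finset.card_image_of_injective _ (add_right_injective x)
  have hDQ : ∀ x, ∀ z ∈ D x, z ∈ Q x := by
    intro x z hz
    obtain ⟨y, hy, rfl⟩ := Finset.mem_image.1 hz
    show x + y - x ∈ box d (nn x)
    rw [add_sub_cancel_left]
    exact (Finset.mem_filter.1 hy).1
  have h6 : (U.biUnion D).card = ∑ x ∈ U, (D x).card := by
    refine Finset.card_biUnion fun x hx x' hx' hne' => ?_
    show Disjoint (D x) (D x')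
    rw [Finset.disjoint_left]
    intro z hz hz'
    exact Set.disjoint_left.1 (hdis (Finset.mem_filter.1 hx).2 (Finset.mem_filter.1 hx').2 hne')
      (hDQ x z hz) (hDQ x' z hz')
  have h7 : U.biUnion D ⊆ (box d (L + M)).filter fun y => y ∈ B := by
    intro z hz
    obtain ⟨x, hx, hz⟩ := Finset.mem_biUnion.1 hz
    obtain ⟨y, hy, rfl⟩ := Finset.mem_image.1 hz
    have hxX : x ∈ X := (Finset.mem_filter.1 hx).1
    have hxL : x ∈ box d L := (Finset.mem_filter.1 hxX).1
    have hn : nn x ≤ M := (hnn x hxX).1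
    refine Finset.mem_filter.2 ⟨?_, (Finset.mem_filter.1 hy).2⟩
    rw [WienA_mem]
    intro i
    have e1 := WienA_mem.1 hxL i
    have e2 := WienA_mem.1 (Finset.mem_filter.1 hy).1 i
    have e3 : (nn x : ℤ) ≤ M := by exact_mod_cast hn
    show |x i + y i| ≤ ((L + M : ℕ) : ℤ)
    push_cast
    exact (abs_add_le _ _).trans (by linarith)
  have h8 : ∑ x ∈ U, a * ((box d (nn x)).card : ℝ) ≤
      (((box d (L + M)).filter fun y => y ∈ B).card : ℝ) := by
    calc ∑ x ∈ U, a * ((box d (nn x)).card : ℝ) ≤ ∑ x ∈ U, ((D x).card : ℝ) := by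
          refine Finset.sum_le_sum fun x hx => ?_
          rw [hDc]
          exact (hnn x (Finset.mem_filter.1 hx).1).2.le
      _ = ((U.biUnion D).card : ℝ) := by rw [h6]; push_cast; rfl
      _ ≤ _ := by exact_mod_cast Finset.card_le_card h7
  calc a * (X.card : ℝ) ≤ a * ∑ x ∈ U, 3 ^ d * ((box d (nn x)).card : ℝ) :=
        mul_le_mul_of_nonneg_left h4 ha.le
    _ = 3 ^ d * ∑ x ∈ U, a * ((box d (nn x)).card : ℝ) := by
        rw [Finset.mul_sum, Finset.mul_sum]
        exact Finset.sum_congr rfl fun x _ => by ring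
    _ ≤ _ := mul_le_mul_of_nonneg_left h8 (by positivity)

end Frog81
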