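import Pool.Agent.H.MP_53e2a7_pr.h81.Inv
import Pool.Agent.H.MP_53e2a7_pr.hd.WienA

/-!
# WienB: the maximal inequality for boxes

PROOF. `G M = {ω | ∃ n ≤ M, a * card (box d n) < card {y ∈ box d n | shift y ω ∈ B}}` (measurable). `shift y (shift x ω) = shift (x + y) ω` up to the order of the
sum (`add_comm`), so by `cover_count` for `{y | shift y ω ∈ B}`: `a * card {x ∈ box d L | shift x ω ∈ G M} ≤ 3^d card {y ∈ box d (L+M) | shift y ω ∈ B}`. Integrate
(`lintegral` of a finite sum of indicators, `measurePreserving_shift`): `a (2L+1)^d P (G M) ≤ 3^d (2L+2M+1)^d P B`. Divide by `(2L+1)^d` and let `L → ∞`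
(for example `((2L+2M+1)/(2L+1))^d → 1`). The event of the theorem is the increasing union of the `G M`.
-/

namespace Frog81

open MeasureTheory ProbabilityTheory Filter
open scoped ENNReal NNReal

variable {d : ℕ} [NeZero d] (ν : Measure ℕ) [IsProbabilityMeasure ν]

open scoped Classical in
private theorem wienB_int {S : Set (Env d)} (hS : MeasurableSet S) (L : ℕ) :
    ∫⁻ ω, (((box d L).filter fun y => shift y ω ∈ S).card : ℝ≥0∞) ∂(envLaw d ν) =
      ((box d L).card : ℝ≥0∞) * envLaw d ν S := by
  have hm : ∀ y : Site d, MeasurableSet (shift y ⁻¹' S) := fun y =>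
    (measurePreserving_shift ν y).measurable hS
  have h1 : (fun ω : Env d => (((box d L).filter fun y => shift y ω ∈ S).card : ℝ≥0∞)) =
      fun ω => ∑ y ∈ box d L, (shift y ⁻¹' S).indicator (fun _ => (1 : ℝ≥0∞)) ω := by
    funext ω
    rw [Finset.card_filter]
    push_cast
    refine Finset.sum_congr rfl fun y _ => ?_
    by_cases hy : shift y ω ∈ S
    · rw [if_pos hy, Set.indicator_of_mem (show ω ∈ shift y ⁻¹' S from hy)]
    · rw [if_neg hy, Set.indicator_of_notMem (show ω ∉ shift y ⁻¹' S from hy)]
  rw [h1, lintegral_finsetSum _ fun y _ => measurable_const.indicator (hm y)]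
  have h2 : ∀ y ∈ box d L, ∫⁻ ω, (shift y ⁻¹' S).indicator (fun _ => (1 : ℝ≥0∞)) ω ∂(envLaw d ν) =
      envLaw d ν S := by
    intro y _
    rw [lintegral_indicator_const (hm y), one_mul]
    exact (measurePreserving_shift ν y).measure_preimage hS.nullMeasurableSet
  rw [Finset.sum_congr rfl h2, Finset.sum_const, nsmul_eq_mul]

open scoped Classical in
private theorem wienB_meas {B : Set (Env d)} (hB : MeasurableSet B) (n : ℕ) :
    Measurable fun ω : Env d => (((box d n).filter fun y => shift y ω ∈ B).card : ℝ) := by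
  have hms : ∀ y : Site d, Measurable (shift (d := d) y) := fun y =>
    measurable_pi_lambda _ fun x => measurable_pi_apply (x + y)
  have hm : ∀ y : Site d, MeasurableSet (shift y ⁻¹' B) := fun y => hms y hB
  have h1 : (fun ω : Env d => (((box d n).filter fun y => shift y ω ∈ B).card : ℝ)) =
      fun ω => ∑ y ∈ box d n, (shift y ⁻¹' B).indicator (fun _ => (1 : ℝ)) ω := by
    funext ω
    rw [Finset.card_filter]
    push_cast
    refine Finset.sum_congr rfl fun y _ => ?_
    by_cases hy : shift y ω ∈ B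
    · rw [if_pos hy, Set.indicator_of_mem (show ω ∈ shift y ⁻¹' B from hy)]
    · rw [if_neg hy, Set.indicator_of_notMem (show ω ∉ shift y ⁻¹' B from hy)]
  rw [h1]
  exact Finset.measurable_sum _ fun y _ => measurable_const.indicator (hm y)

open scoped Classical in
theorem wiener_fin {B : Set (Env d)} (hB : MeasurableSet B) {a : ℝ} (ha : 0 < a) (L M : ℕ) :
    ENNReal.ofReal (a * (2 * L + 1) ^ d) * envLaw d ν {ω | ∃ n ≤ M, a * (box d n).card <
      (((box d n).filter fun y => shift y ω ∈ B).card : ℝ)} ≤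
        ENNReal.ofReal (3 ^ d * (2 * (L + M) + 1) ^ d) * envLaw d ν B := by
  obtain ⟨G, hGd⟩ : ∃ G : Set (Env d), G = {ω | ∃ n ≤ M, a * (box d n).card <
      (((box d n).filter fun y => shift y ω ∈ B).card : ℝ)} := ⟨_, rfl⟩
  rw [← hGd]
  have hG : MeasurableSet G := by
    have h1 : G = ⋃ n : ℕ, ⋃ _ : n ≤ M, {ω : Env d | a * (box d n).card <
        (((box d n).filter fun y => shift y ω ∈ B).card : ℝ)} := by
      rw [hGd]
      ext ω
      simp only [Set.mem_ofPred_eq, Set.mem_iUnion, exists_prop]
    rw [h1]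
    exact MeasurableSet.iUnion fun n => MeasurableSet.iUnion fun _ =>
      measurableSet_lt measurable_const (wienB_meas hB n)
  have hsh : ∀ (ω : Env d) (x y : Site d), shift y (shift x ω) = shift (x + y) ω := by
    intro ω x y
    funext z
    show ω (z + y + x) = ω (z + (x + y))
    rw [add_assoc, add_comm y x]
  have hpt : ∀ ω : Env d, ENNReal.ofReal a *
      (((box d L).filter fun x => shift x ω ∈ G).card : ℝ≥0∞) ≤
      ENNReal.ofReal (3 ^ d) * (((box d (L + M)).filter fun y => shift y ω ∈ B).card : ℝ≥0∞) := by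
    intro ω
    have h1 := cover_count {y : Site d | shift y ω ∈ B} ha L M
    have h2 : ((box d L).filter fun x => shift x ω ∈ G) = (box d L).filter fun x => ∃ n ≤ M,
        a * (box d n).card < (((box d n).filter fun y => x + y ∈
          {y : Site d | shift y ω ∈ B}).card : ℝ) := by
      refine Finset.filter_congr fun x _ => ?_
      rw [hGd]
      simp only [Set.mem_ofPred_eq, hsh]
    have h3 : ((box d (L + M)).filter fun y => shift y ω ∈ B) =
        (box d (L + M)).filter fun y => y ∈ {y : Site d | shift y ω ∈ B} := by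
      refine Finset.filter_congr fun x _ => ?_
      simp only [Set.mem_ofPred_eq]
    rw [h2, h3, ← ENNReal.ofReal_natCast, ← ENNReal.ofReal_natCast, ← ENNReal.ofReal_mul ha.le,
      ← ENNReal.ofReal_mul (by positivity)]
    exact ENNReal.ofReal_le_ofReal h1
  have e1 : ENNReal.ofReal (a * (2 * L + 1) ^ d) = ENNReal.ofReal a * ((box d L).card : ℝ≥0∞) := by
    rw [card_box, ← ENNReal.ofReal_natCast, ← ENNReal.ofReal_mul ha.le]
    push_cast
    rfl
  have e2 : ENNReal.ofReal (3 ^ d * (2 * (L + M) + 1) ^ d) =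
      ENNReal.ofReal (3 ^ d) * ((box d (L + M)).card : ℝ≥0∞) := by
    rw [card_box, ← ENNReal.ofReal_natCast, ← ENNReal.ofReal_mul (by positivity)]
    push_cast
    rfl
  rw [e1, e2, mul_assoc, mul_assoc, ← wienB_int ν hG L, ← wienB_int ν hB (L + M),
    ← lintegral_const_mul' _ _ ENNReal.ofReal_ne_top,
    ← lintegral_const_mul' _ _ ENNReal.ofReal_ne_top]
  exact lintegral_mono hpt

end Frog81
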